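import Pool.Agent.TH563.V.FinalV

/-!
# Arborescent links with large vertices, crossing circles and hubs: all numbers of hubs
-/

set_option autoImplicit false

namespace Pool.Agent.TH563.V.Arb

open Finset Filter Topology
open Pool.Agent.TH563.UV.Arb
open Pool.Agent.TH563.Z.Arb
open Pool.Agent.W719.AX (EXY)
open scoped Real

/-- everything, for trees with at least one edge -/
theorem mainVE (hF : S_FINV) : ∃ K : ℕ, ∀ t : Tree, Fine K t → 1 ≤ t.children →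
    (∀ N : ℕ, ContinuousAt (jones t N) (root N)) ∧
    ∃ V : ℝ, IsGreatest {W : ℝ | ∃ y : AngleTree, y.tree = t ∧ IsAngle y ∧ vol y = W} V ∧
      (∀ e f : ℤ, ∃ (v : ℂ) (y : ℕ → ℂ), 2 * Real.pi * v.re = V ∧ y 0 ≠ 0 ∧
        EXY (kashaev e f t) v y) ∧
      (∀ s : Tree, t = s.double → ∃ x : ℕ → ℝ, 0 < x 0 ∧
        EXY (kashaev (4 * s.circles) 1 t) ((V / (2 * Real.pi) : ℝ) : ℂ)
          (fun k => (x k : ℂ))) ∧
      (t.weight = 0 → (t.kids.map Tree.mirror).Perm t.kids → ∃ (f : ℤ) (x : ℕ → ℝ), x 0 ≠ 0 ∧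
        (∀ N : ℕ, 2 ≤ N → ∃ r : ℝ, kashaev (2 * t.circles) f t N = r) ∧
        EXY (kashaev (2 * t.circles) f t) ((V / (2 * Real.pi) : ℝ) : ℂ)
          (fun k => (x k : ℂ))) := by
  obtain ⟨K, hK⟩ := mainV hF
  refine ⟨K, fun t ht hs => ?_⟩
  obtain ⟨h1, V, h2, h3⟩ := hK t hs ht
  refine ⟨h1, V, h2, h3, ?_, fun hw hp => perm_part hw hp h3⟩
  rintro s rfl
  exact dbl_part h3

end Pool.Agent.TH563.V.Arb
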