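import Pool.Agent.TH563.V.Defs

/-!
# Several hubs: edges and functions on small rectangles
-/

set_option autoImplicit false
set_option maxHeartbeats 1000000

namespace Pool.Agent.TH563.V

open Finset Filter Topology Metric
open Pool.Agent.W711.HT hiding XX
open Pool.Agent.TH563.UV
open Pool.Agent.TH563.Z hiding gd
open Pool.Agent.W85.HT hiding Rc_mono
open Pool.Agent.W293.HT
open Pool.Agent.W719.AX (UX GX KXD)
open scoped Real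

lemma xy_re' (x y : ℝ) : ((x : ℂ) + y * Complex.I).re = x := by simp
lemma xy_im' (x y : ℝ) : ((x : ℂ) + y * Complex.I).im = y := by simp

/-- in both imaginary directions -/
lemma gh_up2 {ρ τ c C : ℝ} {G : ℂ → ℂ} (hG : GH ρ τ c C G) (hρ : 0 < ρ) (hτ : 0 < τ) {x y : ℝ}
    (hC : 0 ≤ C) (hx : |x| ≤ ρ) (hy : |y| ≤ τ) :
    (G (x + y * Complex.I)).re ≤ (G x).re + C * ((|x| + |y|) * |y|) := by
  rcases le_total 0 y with h | h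
  · rw [abs_of_nonneg h] at hy ⊢
    exact gh_up hG hρ hτ hC hx h hy
  · rw [abs_of_nonpos h] at hy ⊢
    have h1 := gh_up hG hρ hτ (x := -x) (y := -y) hC (by rwa [abs_neg]) (by linarith) hy
    have m1 : (x : ℂ) + y * Complex.I ∈ Rc (3 * ρ) (3 * τ) := by
      refine ⟨?_, ?_⟩
      · rw [xy_re']; linarith
      · rw [xy_im', abs_of_nonpos h]; linarith
    have m2 : (x : ℂ) ∈ Rc (3 * ρ) (3 * τ) := by
      refine ⟨?_, ?_⟩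
      · rw [Complex.ofReal_re]; linarith
      · rw [Complex.ofReal_im, abs_zero]; linarith
    have e1 : ((-x : ℝ) : ℂ) + ((-y : ℝ) : ℂ) * Complex.I = -((x : ℂ) + y * Complex.I) := by
      push_cast; ring
    have e2 : ((-x : ℝ) : ℂ) = -(x : ℂ) := by push_cast; ring
    rw [e1, e2, hG.ev _ m1, hG.ev _ m2, abs_neg] at h1
    exact h1

/-- monotonicity -/
lemma gh_mono {ρ τ c C ρ' τ' c' C' : ℝ} {G : ℂ → ℂ} (hG : GH ρ τ c C G) (h1 : ρ' ≤ ρ)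
    (h2 : τ' ≤ τ) (h3 : c' ≤ c) (h4 : C ≤ C') : GH ρ' τ' c' C' G := by
  have m3 : Rc (3 * ρ') (3 * τ') ⊆ Rc (3 * ρ) (3 * τ) := Rc_mono (by linarith) (by linarith)
  have m2 : Rc (2 * ρ') (2 * τ') ⊆ Rc (2 * ρ) (2 * τ) := Rc_mono (by linarith) (by linarith)
  exact ⟨hG.an.mono m3, fun w hw => hG.ev w (m3 hw), fun w hw => (hG.d2 w (m2 hw)).trans
    (by linarith), fun w hw => (hG.d2b w (m2 hw)).trans h4⟩

lemma inv_ev {t : ℝ} (ht : 0 < t) : ∀ᶠ N : ℕ in atTop, (1 : ℝ) / N < t :=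
  (tendsto_const_div_atTop_nhds_zero_nat (1 : ℝ)).eventually_lt_const ht

/-- the bound away from `0`, on smaller rectangles -/
lemma far_restrict {ρ τ c C κ : ℝ} {K : Set ℂ} {Y : ℕ → ℂ → ℂ → ℂ} {G : ℂ → ℂ → ℂ} (hρ : 0 < ρ)
    (hτ : 0 < τ) (hC : 0 ≤ C) (hG : ∀ p ∈ K, GH ρ τ c C fun w => G w p)
    (hmw : ∀ ε : ℝ, 0 < ε → ∀ᶠ N : ℕ in atTop, ∀ w ∈ Rc (2 * ρ) (2 * τ), ∀ p ∈ K,
      Y N w p ≠ 0 ∧ |Real.log ‖Y N w p‖ - N * (G w p).re| ≤ ε * N)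
    (hfar : ∀ᶠ N : ℕ in atTop, ∀ x y : ℝ, ρ ≤ |x| → |x| ≤ π → |y| ≤ 1 / N → ∀ p ∈ K,
      ‖Y N (x + y * Complex.I) p‖ ≤ Real.exp (N * ((G 0 p).re - κ))) {ρ' κ' : ℝ} (hρ' : 0 < ρ')
    (hc : 0 < c) (h1 : κ' ≤ κ) (h2 : κ' < c / 2 * ρ' ^ 2) :
    ∀ᶠ N : ℕ in atTop, ∀ x y : ℝ, ρ' ≤ |x| → |x| ≤ π → |y| ≤ 1 / N → ∀ p ∈ K,
      ‖Y N (x + y * Complex.I) p‖ ≤ Real.exp (N * ((G 0 p).re - κ')) := by
  obtain ⟨g, hg⟩ : ∃ g : ℝ, g = c / 2 * ρ' ^ 2 - κ' := ⟨_, rfl⟩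
  have hg0 : 0 < g := by rw [hg]; linarith
  obtain ⟨b, hb⟩ : ∃ b : ℝ, b = g / 2 / ((C + 1) * (ρ + τ)) := ⟨_, rfl⟩
  have hb0 : 0 < b := by rw [hb]; positivity
  filter_upwards [hmw (g / 2) (by positivity), hfar, inv_ev hτ, inv_ev hb0] with N k1 k2 k3 k4 x y
    hx hx' hy p hp
  have hN : (0 : ℝ) ≤ N := Nat.cast_nonneg N
  rcases le_total ρ |x| with h | h
  · refine (k2 x y h hx' hy p hp).trans (Real.exp_le_exp.2 ?_)
    apply mul_le_mul_of_nonneg_left _ hN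
    linarith
  · have m1 : (x : ℂ) + y * Complex.I ∈ Rc (2 * ρ) (2 * τ) := by
      refine ⟨?_, ?_⟩
      · rw [xy_re']; linarith
      · rw [xy_im']; linarith
    obtain ⟨a1, a2⟩ := k1 _ m1 p hp
    rw [← Real.log_le_iff_le_exp (norm_pos_iff.2 a1)]
    have a3 := (abs_le.1 a2).2
    have a4 := gh_up2 (hG p hp) hρ hτ hC h (hy.trans k3.le)
    have a5 := real_axis (hG p hp) hτ hρ x h
    have a6 : ρ' ^ 2 ≤ x ^ 2 := by
      rw [← sq_abs x]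
      exact pow_le_pow_left₀ hρ'.le hx 2
    have a7 : c / 2 * ρ' ^ 2 ≤ c / 2 * x ^ 2 := mul_le_mul_of_nonneg_left a6 (by positivity)
    have a8 : C * ((|x| + |y|) * |y|) ≤ g / 2 := by
      have e1 : |x| + |y| ≤ ρ + τ := add_le_add h (hy.trans k3.le)
      have e2 : |y| ≤ b := hy.trans k4.le
      have e3 : (|x| + |y|) * |y| ≤ (ρ + τ) * b :=
        mul_le_mul e1 e2 (abs_nonneg _) (by positivity)
      have e4 : (C + 1) * ((ρ + τ) * b) = g / 2 := by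
        rw [hb]; field_simp
      have e5 : 0 ≤ (|x| + |y|) * |y| := by positivity
      nlinarith
    have a9 : (G (x + y * Complex.I) p).re ≤ (G 0 p).re - κ' - g / 2 := by linarith
    have a10 := mul_le_mul_of_nonneg_left a9 hN
    nlinarith

/-- the potential of an edge -/
lemma ed_gh {ρ τ κ c C : ℝ} {U : Set ℂ} {k : ℕ → ℂ → ℂ → ℂ} {σ : ℂ → ℂ → ℂ}
    (h : ED ρ τ κ c C U k σ) {p : ℂ} (hp : p ∈ U) :
    GH ρ τ c (8 * C / τ ^ 2) fun w => σ w p := by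
  have hU := isOpen_Rc (3 * ρ) (3 * τ)
  have hd : DifferentiableOn ℂ (fun w => σ w p) (Rc (3 * ρ) (3 * τ)) := by
    have : DifferentiableOn ℂ (fun w : ℂ => (w, p)) (Rc (3 * ρ) (3 * τ)) :=
      (differentiable_id.prodMk (differentiable_const p)).differentiableOn
    exact h.san.comp this (fun w hw => ⟨hw, hp⟩)
  have hsub : Rc (2 * ρ) (2 * τ) ⊆ Rc (3 * ρ) (3 * τ) :=
    Rc_mono (by linarith [h.hρ.1]) (by linarith [h.hτ.1])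
  exact ⟨hd, fun w hw => h.ev w hw p hp, fun w hw => h.conc w (hsub hw) p hp,
    fun w hw => cauchy2 h.hτ.1 h.hτ.2 hd (fun z hz => h.sbd z hz p hp) hw⟩

/-- edges on smaller rectangles -/
theorem ed_restrict {ρ τ κ c C : ℝ} {U : Set ℂ} {k : ℕ → ℂ → ℂ → ℂ} {σ : ℂ → ℂ → ℂ}
    (h : ED ρ τ κ c C U k σ) {ρ' τ' κ' : ℝ} (hρ' : 0 < ρ') (h1 : ρ' ≤ ρ) (hτ' : 0 < τ')
    (h2 : τ' ≤ τ) (h3 : τ' ≤ ρ') (h4 : 0 < κ') (h5 : κ' ≤ κ) (h6 : κ' < c / 2 * ρ' ^ 2) :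
    ED ρ' τ' κ' c C U k σ := by
  have m3 : Rc (3 * ρ') (3 * τ') ⊆ Rc (3 * ρ) (3 * τ) := Rc_mono (by linarith) (by linarith)
  have m23 : Rc (2 * ρ) (2 * τ) ⊆ Rc (3 * ρ) (3 * τ) :=
    Rc_mono (by linarith [h.hρ.1]) (by linarith [h.hτ.1])
  refine ⟨⟨hρ', h1.trans h.hρ.2⟩, ⟨hτ', h3⟩, ⟨h4, h5.trans h.hκ.2⟩, h.hc, h.hC, h.hU, h.kan,
    h.san.mono (Set.prod_mono m3 subset_rfl), fun ψ hψ => h.sbd ψ (m3 hψ), fun ψ hψ => h.ev ψ (m3 hψ),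
    fun ψ hψ => h.conc ψ (m3 hψ), h.slow, ?_, ?_⟩
  · intro ε hε
    filter_upwards [h.mw ε hε] with N hN ψ hψ
    exact hN ψ (m3 hψ)
  · have hCn : 0 ≤ 8 * C / τ ^ 2 := by have := h.hC; positivity
    exact far_restrict (Y := k) (G := σ) h.hρ.1 h.hτ.1 hCn (fun p hp => ed_gh h hp) (by
      intro ε hε
      filter_upwards [h.mw ε hε] with N hN ψ hψ
      exact hN ψ (m23 hψ)) h.far hρ' h.hc h5 h6

/-- the edges between vertices near `0` -/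
theorem ed_s {ρ τ κ c : ℝ} {s dl : ℂ → ℂ → ℂ} (hK : KD ρ τ κ c s dl) :
    ∃ C : ℝ, ED ρ τ κ c C (Rc (3 * ρ) (3 * τ)) Pool.Agent.W711.HT.ker s := by
  obtain ⟨C, hC⟩ := hK.sbd
  exact ⟨|C| + 1, ⟨hK.hρ, hK.hτ, hK.hκ, hK.hc, by positivity, isOpen_Rc _ _,
    fun N p _ => ker_diff N p, hK.san, fun ψ hψ p hp => (hC ψ hψ p hp).trans
      ((le_abs_self C).trans (by linarith)), hK.ev, hK.conc, hK.slow, hK.mw, hK.far⟩⟩

/-- the edges between a hub and a vertex near `0` -/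
theorem ed_z {η ε ρ τ ρ' τ' κ c' : ℝ} {s' dl' : ℂ → ℂ → ℂ} (h : KDZ η ε ρ τ ρ' τ' κ c' s' dl') :
    ∃ C : ℝ, ED ρ τ κ c' C (Rz η (3 * ρ') (3 * τ')) (kerL ε) s' := by
  obtain ⟨C, hE⟩ := ez_of h
  exact ⟨C, ⟨h.hρ, h.hτ, h.hκ, h.hc, hE.hC, Pool.Agent.TH563.Z.isOpen_Rz _ _ _,
    fun N p _ => kerL_diff ε N p, hE.san, hE.sbd, hE.ev, hE.conc1, h.slow, h.mw, h.far1⟩⟩

/-! ### The functions of the recursion -/

/-- the constant one -/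
lemma gv_one {ρ τ κ c C : ℝ} (hρ : 0 < ρ) (hτ : 0 < τ) :
    GoodV ρ τ κ c C 0 (fun _ _ => 1) (fun _ => 0) := by
  refine ⟨fun N => differentiable_const _, fun N ψ => rfl, by simp, ?_, ?_, ?_⟩
  · refine ⟨differentiableOn_const _, fun w _ => rfl, fun w _ => ?_, fun w _ => ?_⟩
    · simp
    · simp
  · intro ε he
    refine Eventually.of_forall fun N z _ => ⟨one_ne_zero, ?_⟩
    have h1 : (0 : ℝ) ≤ ε * N := mul_nonneg he.le (Nat.cast_nonneg N)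
    simpa using h1
  · refine Eventually.of_forall fun N x y _ _ _ => ?_
    simp

/-- products -/
lemma gv_mul {ρ τ κ c C : ℝ} (hρ : 0 < ρ) (hτ : 0 < τ) {t : ℕ} {X Y : ℕ → ℂ → ℂ} {F G : ℂ → ℂ}
    (hX : GoodV ρ τ κ c C t X F) (hY : GoodV ρ τ κ c C 1 Y G) :
    GoodV ρ τ κ c C (t + 1) (fun N ψ => X N ψ * Y N ψ) (fun ψ => F ψ + G ψ) := by
  have hU := isOpen_Rc (3 * ρ) (3 * τ)
  have hsub : Rc (2 * ρ) (2 * τ) ⊆ Rc (3 * ρ) (3 * τ) := Rc_mono (by linarith) (by linarith)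
  refine ⟨fun N => (hX.an N).mul (hY.an N), fun N ψ => ?_, ?_, ?_, ?_, ?_⟩
  · show X N (-ψ) * Y N (-ψ) = X N ψ * Y N ψ
    rw [hX.ev, hY.ev]
  · show 0 ≤ (F 0 + G 0).re
    rw [Complex.add_re]
    exact add_nonneg hX.pos hY.pos
  · refine ⟨hX.gh.an.add hY.gh.an, fun w hw => ?_, fun w hw => ?_, fun w hw => ?_⟩
    · show F (-w) + G (-w) = F w + G w
      rw [hX.gh.ev w hw, hY.gh.ev w hw]
    · rw [dd_add hU hX.gh.an hY.gh.an (hsub hw), Complex.add_re]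
      have h1 := hX.gh.d2 w hw
      have h2 := hY.gh.d2 w hw
      push_cast at h2 ⊢
      linarith
    · rw [dd_add hU hX.gh.an hY.gh.an (hsub hw)]
      have h1 := hX.gh.d2b w hw
      have h2 := hY.gh.d2b w hw
      refine (norm_add_le _ _).trans ?_
      push_cast at h2 ⊢
      linarith
  · intro ε he
    filter_upwards [hX.mw (ε / 2) (by positivity), hY.mw (ε / 2) (by positivity)] with N h1 h2
    intro z hz
    obtain ⟨hx0, hx1⟩ := h1 z hz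
    obtain ⟨hy0, hy1⟩ := h2 z hz
    refine ⟨mul_ne_zero hx0 hy0, ?_⟩
    show |Real.log ‖X N z * Y N z‖ - N * (F z + G z).re| ≤ ε * N
    rw [norm_mul, Real.log_mul (norm_ne_zero_iff.mpr hx0) (norm_ne_zero_iff.mpr hy0),
      Complex.add_re]
    have e1 : Real.log ‖X N z‖ + Real.log ‖Y N z‖ - (N : ℝ) * ((F z).re + (G z).re) =
        (Real.log ‖X N z‖ - N * (F z).re) + (Real.log ‖Y N z‖ - N * (G z).re) := by ring
    rw [e1]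
    refine (abs_add_le _ _).trans ((add_le_add hx1 hy1).trans (le_of_eq ?_))
    ring
  · filter_upwards [hX.gl1, hY.gl1] with N h1 h2
    intro x y hx hx' hy
    show ‖X N (x + y * Complex.I) * Y N (x + y * Complex.I)‖ ≤ _
    rw [norm_mul]
    refine (mul_le_mul (h1 x y hx hx' hy) (h2 x y hx hx' hy) (norm_nonneg _)
      (Real.exp_pos _).le).trans (le_of_eq ?_)
    rw [← Real.exp_add]
    congr 1
    show _ = N * ((F 0 + G 0).re - ((t + 1 : ℕ) : ℝ) * (κ / 2))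
    rw [Complex.add_re]
    push_cast
    ring

/-- weaker constants -/
lemma gv_mono {ρ τ κ c C κ' c' C' : ℝ} {t : ℕ} {X : ℕ → ℂ → ℂ} {F : ℂ → ℂ}
    (hX : GoodV ρ τ κ c C t X F) (h1 : κ' ≤ κ) (h2 : c' ≤ c) (h3 : C ≤ C') :
    GoodV ρ τ κ' c' C' t X F := by
  have ht : (0 : ℝ) ≤ t := Nat.cast_nonneg t
  refine ⟨hX.an, hX.ev, hX.pos, gh_mono hX.gh le_rfl le_rfl (mul_le_mul_of_nonneg_right h2 ht)
    (mul_le_mul_of_nonneg_right h3 ht), hX.mw, ?_⟩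
  filter_upwards [hX.gl1] with N k1 x y hx hx' hy
  refine (k1 x y hx hx' hy).trans (Real.exp_le_exp.2 ?_)
  apply mul_le_mul_of_nonneg_left _ (Nat.cast_nonneg N)
  have := mul_le_mul_of_nonneg_left h1 ht
  linarith

/-- one function, on smaller rectangles -/
lemma gv_restrict {ρ τ κ c C : ℝ} (hρ : 0 < ρ) (hτ : 0 < τ) (hC : 0 ≤ C) (hc : 0 < c)
    {X : ℕ → ℂ → ℂ} {F : ℂ → ℂ} (hX : GoodV ρ τ κ c C 1 X F) {ρ' τ' κ' : ℝ} (hρ' : 0 < ρ')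
    (h1 : ρ' ≤ ρ) (hτ' : 0 < τ') (h2 : τ' ≤ τ) (h5 : κ' ≤ κ) (h6 : κ' / 2 < c / 2 * ρ' ^ 2) :
    GoodV ρ' τ' κ' c C 1 X F := by
  refine ⟨hX.an, hX.ev, hX.pos, gh_mono hX.gh h1 h2 le_rfl le_rfl, ?_, ?_⟩
  · intro ε hε
    filter_upwards [hX.mw ε hε] with N hN ψ hψ
    exact hN ψ (Rc_mono (by linarith) (by linarith) hψ)
  · have e1 : GH ρ τ c C F := by
      have := hX.gh
      rwa [Nat.cast_one, mul_one, mul_one] at this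
    have h := far_restrict (K := {0}) (Y := fun N w _ => X N w) (G := fun w _ => F w) (κ := κ / 2)
      (κ' := κ' / 2) hρ hτ hC (fun p _ => e1) (by
        intro ε hε
        filter_upwards [hX.mw ε hε] with N hN w hw p _
        exact hN w hw) (by
        filter_upwards [hX.gl1] with N hN x y hx hx' hy p _
        have := hN x y hx hx' hy
        rwa [Nat.cast_one, one_mul] at this) hρ' hc (by linarith) h6
    filter_upwards [h] with N hN x y hx hx' hy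
    rw [Nat.cast_one, one_mul]
    exact hN x y hx hx' hy 0 rfl

/-- the functions of `GoodU` -/
lemma gv_of_gu {ρ τ κ c ε₀ C₀ : ℝ} {s dl : ℂ → ℂ → ℂ} (hK : KD ρ τ κ c s dl) (hε₁ : ε₀ ≤ 1)
    (hε₂ : ε₀ ≤ c * τ ^ 2 / 16)
    (hC₀ : ∀ ψ ∈ Rc (3 * ρ) (3 * τ), ∀ ψ' ∈ Rc (3 * ρ) (3 * τ), ‖s ψ ψ'‖ ≤ C₀) {t : ℕ}
    {X : ℕ → ℂ → ℂ} {F : ℂ → ℂ} (hX : GoodU ρ τ κ ε₀ s t X F) :
    GoodV ρ τ κ (c / 2) (8 * (1 + 3 * C₀) / τ ^ 2) t X F := by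
  refine ⟨hX.an, hX.ev, hX.pos, ?_, hX.mw, hX.gl1⟩
  exact (gh_U (t := (t : ℝ)) hK hε₁ hε₂ hC₀ (Nat.cast_nonneg t) hX.Fan hX.Fev (by
    intro ψ hψ
    have := hX.Fcl ψ hψ
    rwa [Complex.ofReal_natCast])).2

/-- the bound on the real axis -/
lemma xb_gv {ρ τ κ c C : ℝ} (hρ : 0 < ρ) (hτ : 0 < τ) (hκ : 0 ≤ κ) (hc : 0 ≤ c) (hC : 0 ≤ C)
    {t : ℕ} {X : ℕ → ℂ → ℂ} {F : ℂ → ℂ} (hX : GoodV ρ τ κ c C t X F) : XB X (F 0).re := by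
  intro ε hε
  obtain ⟨b, hb⟩ : ∃ b : ℝ, b = ε / 2 / ((C * t + 1) * (ρ + τ)) := ⟨_, rfl⟩
  have ht : (0 : ℝ) ≤ t := Nat.cast_nonneg t
  have hCt : 0 ≤ C * t := by positivity
  have hb0 : 0 < b := by rw [hb]; positivity
  filter_upwards [hX.mw (ε / 2) (by positivity), hX.gl1, inv_ev hτ, inv_ev hb0] with N k1 k2 k3 k4
    x y hx hy
  have hN : (0 : ℝ) ≤ N := Nat.cast_nonneg N
  rcases le_total ρ |x| with h | h
  · refine (k2 x y h hx hy).trans (Real.exp_le_exp.2 ?_)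
    apply mul_le_mul_of_nonneg_left _ hN
    have : 0 ≤ (t : ℝ) * (κ / 2) := by positivity
    linarith
  · have m1 : (x : ℂ) + y * Complex.I ∈ Rc (2 * ρ) (2 * τ) := by
      refine ⟨?_, ?_⟩
      · rw [xy_re']; linarith
      · rw [xy_im']; linarith
    obtain ⟨a1, a2⟩ := k1 _ m1
    rw [← Real.log_le_iff_le_exp (norm_pos_iff.2 a1)]
    have a3 := (abs_le.1 a2).2
    have a4 := gh_up2 hX.gh hρ hτ hCt h (hy.trans k3.le)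
    have a5 := real_axis hX.gh hτ hρ x h
    have a7 : 0 ≤ c * t / 2 * x ^ 2 := by positivity
    have a8 : C * t * ((|x| + |y|) * |y|) ≤ ε / 2 := by
      have e1 : |x| + |y| ≤ ρ + τ := add_le_add h (hy.trans k3.le)
      have e2 : |y| ≤ b := hy.trans k4.le
      have e3 : (|x| + |y|) * |y| ≤ (ρ + τ) * b :=
        mul_le_mul e1 e2 (abs_nonneg _) (by positivity)
      have e4 : (C * t + 1) * ((ρ + τ) * b) = ε / 2 := by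
        rw [hb]; field_simp
      have e5 : 0 ≤ (|x| + |y|) * |y| := by positivity
      nlinarith
    have a9 : (F (x + y * Complex.I)).re ≤ (F 0).re + ε / 2 := by linarith
    have a10 := mul_le_mul_of_nonneg_left a9 hN
    nlinarith

/-! ### Expansions -/

lemma gxg_of_gx {ρ τ : ℝ} {m : ℕ} {X : ℕ → ℂ → ℂ} {F : ℂ → ℂ} {A : ℕ → ℂ → ℂ}
    (h : GX ρ τ m X F A) : GXG (Rc ρ τ) m X F A := ⟨h.ux, h.an, h.nz⟩

lemma gx_of_gxg {ρ τ : ℝ} {m : ℕ} {X : ℕ → ℂ → ℂ} {F : ℂ → ℂ} {A : ℕ → ℂ → ℂ}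
    (h : GXG (Rc ρ τ) m X F A) : GX ρ τ m X F A := ⟨h.ux, h.an, h.nz⟩

lemma gxz_of_gxg {η ρ τ : ℝ} {m : ℕ} {X : ℕ → ℂ → ℂ} {F : ℂ → ℂ} {A : ℕ → ℂ → ℂ}
    (h : GXG (Rz η ρ τ) m X F A) : GXZ η ρ τ m X F A := ⟨h.ux, h.an, h.nz⟩

/-- the kernel between vertices near `0` -/
lemma kxg_s {ρ₂ τ₂ ρ₃ τ₃ : ℝ} {s : ℂ → ℂ → ℂ} {A : ℕ → ℂ × ℂ → ℂ} (h : KXD ρ₂ τ₂ s A)
    (h1 : 0 < ρ₃) (h2 : ρ₃ ≤ ρ₂) (h3 : 0 < τ₃) (h4 : τ₃ ≤ τ₂) :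
    KXG ρ₃ τ₃ (Rc ρ₂ τ₂) Pool.Agent.W711.HT.ker s A := by
  have hs : Rc ρ₃ τ₃ ⊆ Rc ρ₂ τ₂ := Rc_mono h2 h4
  exact ⟨h1, h3, isOpen_Rc _ _, ux_mono h.ux (Set.prod_mono hs subset_rfl),
    fun n p hp => (h.d1 n p hp).mono hs, fun x hx => h.nz x ⟨hs hx.1, hx.2⟩⟩

/-- the kernel between a vertex near `0` and a hub -/
lemma kxg_z {η ε ρ₂ τ₂ ρ₃ τ₃ ρ₄ τ₄ : ℝ} {s : ℂ → ℂ → ℂ} {A : ℕ → ℂ × ℂ → ℂ}
    (h : KXZ η ε ρ₂ τ₂ ρ₃ τ₃ s A) (h1 : 0 < ρ₄) (h2 : ρ₄ ≤ ρ₂) (h3 : 0 < τ₄) (h4 : τ₄ ≤ τ₂) :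
    KXG ρ₄ τ₄ (Rz η ρ₃ τ₃) (kerL ε) s A := by
  have hs : Rc ρ₄ τ₄ ⊆ Rc ρ₂ τ₂ := Rc_mono h2 h4
  exact ⟨h1, h3, Pool.Agent.TH563.Z.isOpen_Rz _ _ _, ux_mono h.ux (Set.prod_mono hs subset_rfl),
    fun n p hp => (h.d1 n p hp).mono hs, fun x hx => h.nz x ⟨hs hx.1, hx.2⟩⟩

end Pool.Agent.TH563.V
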