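import Pool.Agent.TH563.V.FinV
import Pool.Agent.TH563.Z.ArbXD

/-!
# Arborescent links with large vertices, crossing circles, and several hubs of weight `0`

Weighted planar trees as in `Pool.Agent.TH563.UV.Arb`.  Every vertex is large (it has a crossing
circle, or `K² ≤ n² + a²`, where `n` is the number of its neighbours and `a` its weight), or it is a
hub: it has weight `0`, no crossing circle, and at least three neighbours.  Of two neighbouring
vertices, at least one is large.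
-/

set_option autoImplicit false

namespace Pool.Agent.TH563.V.Arb

open Finset Filter Topology
open Pool.Agent.TH563.UV.Arb
open Pool.Agent.TH563.Z.Arb
open Pool.Agent.TH563.UV (XX JT stpb Eb ngb kb)
open Pool.Agent.W711.HT (upp kr Ea vN)
open Pool.Agent.TH219.J139 (Ub Ub_conj Ub_even ngb_XX wt_ngb bl_ngb ne_ngb nb_ngb ws_ngb)
open Pool.Agent.W719.AX (EXY)
open scoped Real

/-! ### Trees with hubs -/

/-- A hub: a vertex of weight `0` without crossing circle, with at least three neighbours (`n` is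
the number of neighbours, `a` the weight). -/
def Hub (b : Bool) (n : ℕ) (a : ℤ) : Prop := b = false ∧ a = 0 ∧ 3 ≤ n

/-- Every vertex other than the root is large or a hub, and of two neighbouring vertices at least
one is large; `g` is the statement that the root is large. -/
def FineBelow (K : ℕ) : Prop → Tree → Prop
  | _, .single _ _ => True
  | g, .join t c => FineBelow K g t ∧
      FineBelow K (Tree.Big K c.circle (c.children + 1) c.weight) c ∧
      (Tree.Big K c.circle (c.children + 1) c.weight ∨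
        (g ∧ Hub c.circle (c.children + 1) c.weight))

/-- Every vertex is large or a hub, and of two neighbouring vertices at least one is large. -/
def Fine (K : ℕ) (t : Tree) : Prop :=
  (Tree.Big K t.circle t.children t.weight ∨ Hub t.circle t.children t.weight) ∧
    FineBelow K (Tree.Big K t.circle t.children t.weight) t

open Classical in
/-- The number of vertices other than the root which are hubs. -/
noncomputable def hubsBelow : Tree → ℕ
  | .single _ _ => 0
  | .join t c => hubsBelow t + hubsBelow c +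
      if Hub c.circle (c.children + 1) c.weight then 1 else 0

open Classical in
/-- The number of hubs: vertices of weight `0` without crossing circle, with at least three
neighbours. -/
noncomputable def hubs (t : Tree) : ℕ :=
  hubsBelow t + if Hub t.circle t.children t.weight then 1 else 0

/-! ### Conversion -/

lemma below_ok (K : ℕ) (t : Tree) : ∀ (g : Prop) (gb : Bool), (g → gb = true) →
    FineBelow K g t → Ok K gb (toTb t) := by
  induction t with
  | single b a => intro g gb _ _; trivial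
  | join t c iht ihc =>
    rintro g gb hg ⟨h1, h2, h3⟩
    refine ⟨iht g gb hg h1, ?_⟩
    rw [bl_to, nc_to, wt_to]
    by_cases hbig : Tree.Big K c.circle (c.children + 1) c.weight
    · exact Or.inl ⟨big_to hbig, ihc _ true (fun _ => rfl) h2⟩
    · rcases h3 with h3 | ⟨h3, h4⟩
      · exact absurd h3 hbig
      · exact Or.inr ⟨hg h3, h4, ihc _ false (fun h => absurd h hbig) h2⟩

lemma fine_ok (K : ℕ) (t : Tree) (h : Fine K t) : OkT K (toTb t) := by
  obtain ⟨h1, h2⟩ := h
  unfold OkT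
  rw [bl_to, nc_to, wt_to]
  by_cases hbig : Tree.Big K t.circle t.children t.weight
  · exact Or.inl ⟨big_to hbig, below_ok K t _ true (fun _ => rfl) h2⟩
  · rcases h1 with h1 | h1
    · exact absurd h1 hbig
    · exact Or.inr ⟨h1, below_ok K t _ false (fun h => absurd h hbig) h2⟩

lemma children_pos {t : Tree} (h : 2 ≤ hubs t) : 1 ≤ t.children := by
  classical
  cases t with
  | single b a =>
    unfold hubs hubsBelow at h
    split_ifs at h <;> omega
  | join t c => exact Nat.succ_pos _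

/-! ### The expansion -/

/-- The expansion to all orders of the Kashaev invariants. -/
theorem mainV (hF : S_FINV) : ∃ K : ℕ, ∀ t : Tree, 1 ≤ t.children → Fine K t →
    (∀ N : ℕ, ContinuousAt (jones t N) (root N)) ∧
    ∃ V : ℝ, IsGreatest {W : ℝ | ∃ y : AngleTree, y.tree = t ∧ IsAngle y ∧ vol y = W} V ∧
      ∀ e f : ℤ, ∃ (v : ℂ) (y : ℕ → ℂ), 2 * Real.pi * v.re = V ∧ y 0 ≠ 0 ∧
        EXY (kashaev e f t) v y := by
  obtain ⟨K, hK0, hM⟩ := hF
  refine ⟨⌈K⌉₊, fun t hc ht => ?_⟩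
  have hl := okT_mono hK0.le (Nat.le_ceil K) (fine_ok _ t ht)
  obtain ⟨V, v, y, h2, hv, hy, hexp⟩ := hM (toTb t) hl (by rw [nc_to]; exact hc)
  have hj : ∀ N, jones t N = Pool.Agent.TH563.UV.jt (toTb t) N := fun N => jones_to t N
  have hroot : ∀ N : ℕ, root N = Pool.Agent.W711.HT.vN N := fun N => rfl
  have hE : EXY (fun N : ℕ => jones t N (root N)) v y := by
    intro K
    obtain ⟨C, hC⟩ := hexp K
    refine ⟨C, hC.mono fun N hN => ?_⟩
    beta_reduce
    rw [hj, hroot]
    exact hN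
  refine ⟨fun N => ?_, V, ?_, ?_⟩
  · rw [hj]
    exact Pool.Agent.TH639.J28.cnt _ _
  · rw [volume_eq]
    exact h2
  · intro e f
    obtain ⟨y', hy', h⟩ := hE.frame hy e f
    refine ⟨_, y', ?_, hy', h⟩
    have e1 : (v + Real.pi * Complex.I * (e + f)).re = v.re := by
      have : (Real.pi : ℂ) * Complex.I * (e + f) = ((Real.pi * (e + f) : ℝ) : ℂ) * Complex.I := by
        push_cast
        ring
      rw [this, Complex.add_re, Complex.re_ofReal_mul, Complex.I_re, mul_zero, add_zero]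
    rw [e1]
    exact hv

/-! ### Doubles -/

/-- the expansion for doubles: positive, with a real growth rate -/
theorem dbl_part {s : Tree} {V : ℝ} (h3 : ∀ e f : ℤ, ∃ (v : ℂ) (y : ℕ → ℂ),
    2 * Real.pi * v.re = V ∧ y 0 ≠ 0 ∧ EXY (kashaev e f s.double) v y) :
    ∃ x : ℕ → ℝ, 0 < x 0 ∧ EXY (kashaev (4 * s.circles) 1 s.double)
      ((V / (2 * Real.pi) : ℝ) : ℂ) (fun k => (x k : ℂ)) := by
  obtain ⟨v, y, hv, hy, h⟩ := h3 (4 * s.circles) 0
  have hk : ∀ N : ℕ, 2 ≤ N → kashaev (4 * s.circles) 0 s.double N =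
      (-1) ^ (N - 1) * kashaev (4 * s.circles) 1 s.double N := by
    intro N hN
    unfold kashaev
    have h2 : ((-1 : ℂ)) ^ ((1 : ℤ) * ((N : ℤ) - 1)) = (-1) ^ (N - 1) := by
      rw [one_mul, ← zpow_natCast, Nat.cast_sub (by omega : 1 ≤ N)]
      norm_num
    have h3 : ((-1 : ℂ)) ^ (N - 1) * (-1) ^ (N - 1) = 1 := by
      rw [← mul_pow]
      norm_num
    rw [h2, zero_mul, zpow_zero]
    calc _ = 1 * (root N ^ ((4 * (s.circles : ℤ)) * ((N : ℤ) ^ 2 - 1)) *
          jones s.double N (root N)) := by ring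
      _ = ((-1 : ℂ) ^ (N - 1) * (-1) ^ (N - 1)) *
          (root N ^ ((4 * (s.circles : ℤ)) * ((N : ℤ) ^ 2 - 1)) *
            jones s.double N (root N)) := by rw [h3]
      _ = _ := by ring
  obtain ⟨x, hx, hx2⟩ := Pool.Agent.W719.AX.f_POS _ v y hy (by
    filter_upwards [Filter.eventually_ge_atTop 2] with N hN
    obtain ⟨r, hr, h⟩ := double_nonneg s N hN
    refine ⟨r, hr, ?_⟩
    rw [hk N hN, h]) h
  refine ⟨x, hx, ?_⟩
  intro K
  obtain ⟨C, hC⟩ := hx2 K
  refine ⟨C, ?_⟩
  filter_upwards [hC, Filter.eventually_ge_atTop 2] with N hN h1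
  have hv' : V / (2 * Real.pi) = v.re := by
    rw [← hv]
    field_simp
  have h3 : ((-1 : ℂ)) ^ (N - 1) * (-1) ^ (N - 1) = 1 := by
    rw [← mul_pow]
    norm_num
  have e2 : kashaev (4 * s.circles) 1 s.double N =
      (-1) ^ (N - 1) * kashaev (4 * s.circles) 0 s.double N := by
    rw [hk N h1, ← mul_assoc, h3, one_mul]
  rw [e2, hv']
  have e3 : (((Real.sqrt N) ^ 3 * Real.exp (N * v.re) : ℝ) : ℂ) =
      (((Real.sqrt N) ^ 3 : ℝ) : ℂ) * Complex.exp (N * (v.re : ℂ)) := by
    push_cast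
    ring
  rw [← e3]
  exact hN

/-! ### Trees whose root has weight `0` and children which are mirror images of each other -/

lemma JT_mirror' {t : Tree} (hw : t.weight = 0)
    (hp : (t.kids.map Tree.mirror).Perm t.kids) (N : ℕ) :
    JT (ngb (toTb t)) N = JT (toTb t) N := by
  have hX : ∀ ψ, XX (ngb (toTb t)) N ψ = XX (toTb t) N ψ := by
    intro ψ
    rw [← mirror_toTb, XX_kids, XX_kids, kids_mirror]
    exact (hp.map _).prod_eq
  have hwt : (ngb (toTb t)).wt = (toTb t).wt := by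
    rw [wt_ngb, wt_to, hw, neg_zero]
  unfold JT
  rw [bl_ngb, hwt]
  congr 1
  funext ψ
  rw [hX]

/-- The Kashaev invariants, with the framing corrected at the circles, are real. -/
theorem real_of_perm' {t : Tree} (hw : t.weight = 0)
    (hp : (t.kids.map Tree.mirror).Perm t.kids) (f : ℤ) (N : ℕ) (hN : 2 ≤ N) :
    ∃ r : ℝ, kashaev (2 * t.circles) f t N = r := by
  have hN0 : (N : ℂ) ≠ 0 := by exact_mod_cast (by omega : N ≠ 0)
  have h1 : jones t N (root N) = _ :=
    (jones_to t N ▸ (Pool.Agent.TH639.J28.rtb (toTb t) N hN).2 :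
      jones t N (vN N) = (-1) ^ ((N - 1) * (toTb t).ne) *
        (Complex.I * N ^ 2 / (2 * π)) ^ ((toTb t).ne + 1) *
        Pool.Agent.W719.AR.kp N ^ (toTb t).ws * kb N ^ (toTb t).nb * JT (toTb t) N)
  have h2 : kb N ^ (toTb t).nb * root N ^ ((2 * (t.circles : ℤ)) * ((N : ℤ) ^ 2 - 1)) = 1 := by
    rw [circles_to]
    unfold kb root
    rw [← Complex.exp_nat_mul, ← Complex.exp_int_mul, ← Complex.exp_add]
    have h3 : ((t.circles : ℂ) * (2 * π * Complex.I / N) +
        (((2 * (t.circles : ℤ)) * ((N : ℤ) ^ 2 - 1) : ℤ) : ℂ) * (π * Complex.I / N)) =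
        ((t.circles * N : ℤ) : ℂ) * (2 * π * Complex.I) := by
      push_cast
      field_simp
      ring
    rw [h3]
    exact Complex.exp_int_mul_two_pi_mul_I _
  obtain ⟨n, hn⟩ : ∃ n : ℕ, n = (toTb t).ne := ⟨_, rfl⟩
  obtain ⟨Z, hZ⟩ : ∃ Z : ℂ, Z = Complex.I ^ (n + 1) * JT (toTb t) N := ⟨_, rfl⟩
  have hZr : (starRingEnd ℂ) Z = Z := by
    rw [hZ, map_mul, conj_JT, JT_mirror' hw hp, map_pow, Complex.conj_I, ← hn]
    have : (-Complex.I) ^ (n + 1) * ((-1) ^ (n + 1) * JT (toTb t) N) =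
        ((-Complex.I) * (-1)) ^ (n + 1) * JT (toTb t) N := by
      rw [mul_pow]
      ring
    rw [this]
    congr 2
    ring
  have hZ2 : Z = (Z.re : ℂ) := (Complex.conj_eq_iff_re.1 hZr).symm
  refine ⟨(-1) ^ (f * ((N : ℤ) - 1)) * ((-1) ^ ((N - 1) * n) *
    ((N : ℝ) ^ 2 / (2 * π)) ^ (n + 1)) * Z.re, ?_⟩
  unfold kashaev
  rw [h1, ws_mirror hw hp, zpow_zero, mul_one, ← hn]
  have h4 : (Complex.I * (N : ℂ) ^ 2 / (2 * π)) ^ (n + 1) =
      Complex.I ^ (n + 1) * ((N : ℂ) ^ 2 / (2 * π)) ^ (n + 1) := by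
    rw [mul_div_assoc, mul_pow]
  rw [h4]
  push_cast
  rw [← hZ2, hZ]
  linear_combination ((-1 : ℂ) ^ (f * ((N : ℤ) - 1)) * (-1) ^ ((N - 1) * n) *
    (Complex.I ^ (n + 1) * ((N : ℂ) ^ 2 / (2 * π)) ^ (n + 1)) * JT (toTb t) N) * h2

/-- the expansion if the weight of the root is `0` and the children are, up to order, the mirror
images of the children -/
theorem perm_part {t : Tree} (hw : t.weight = 0) (hp : (t.kids.map Tree.mirror).Perm t.kids)
    {V : ℝ} (h3 : ∀ e f : ℤ, ∃ (v : ℂ) (y : ℕ → ℂ),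
      2 * Real.pi * v.re = V ∧ y 0 ≠ 0 ∧ EXY (kashaev e f t) v y) :
    ∃ (f : ℤ) (x : ℕ → ℝ), x 0 ≠ 0 ∧
      (∀ N : ℕ, 2 ≤ N → ∃ r : ℝ, kashaev (2 * t.circles) f t N = r) ∧
      EXY (kashaev (2 * t.circles) f t) ((V / (2 * Real.pi) : ℝ) : ℂ) (fun k => (x k : ℂ)) := by
  obtain ⟨v, y, hv, hy, h⟩ := h3 (2 * t.circles) 0
  have hreal := real_of_perm' hw hp
  -- the ratios are real
  have hrat := (Pool.Agent.W460.AX.rat _ v y hy h).2.1
  have him : (Complex.exp v).im = 0 := by
    have g1 := (Complex.continuous_im.tendsto _).comp hrat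
    refine tendsto_nhds_unique g1 ?_
    refine tendsto_const_nhds.congr' ?_
    filter_upwards [eventually_ge_atTop 2] with N hN
    obtain ⟨r, hr⟩ := hreal 0 N hN
    obtain ⟨r', hr'⟩ := hreal 0 (N + 1) (by omega)
    show (0 : ℝ) = (kashaev (2 * t.circles) 0 t (N + 1) / kashaev (2 * t.circles) 0 t N).im
    rw [hr, hr', ← Complex.ofReal_div, Complex.ofReal_im]
  obtain ⟨m, hm⟩ : ∃ m : ℤ, (m : ℝ) * π = v.im := by
    rw [Complex.exp_im] at him
    have : Real.sin v.im = 0 := by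
      rcases mul_eq_zero.1 him with h0 | h0
      · exact absurd h0 (Real.exp_pos _).ne'
      · exact h0
    exact Real.sin_eq_zero_iff.1 this
  have hvre : v.re = V / (2 * π) := by
    rw [← hv]
    field_simp
  have hv2 : v = ((V / (2 * π) : ℝ) : ℂ) + π * Complex.I * m := by
    rw [← hvre]
    conv_lhs => rw [← Complex.re_add_im v, ← hm]
    push_cast
    ring
  -- correct the sign
  have hE : EXY (kashaev (2 * t.circles) m t) ((V / (2 * π) : ℝ) : ℂ)
      (fun k => (-1) ^ m * y k) := by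
    intro K
    obtain ⟨C, hC⟩ := h K
    refine ⟨C, ?_⟩
    filter_upwards [hC] with N hN
    have e1 : kashaev (2 * t.circles) m t N = (-1) ^ m * (-1) ^ (m * (N : ℤ)) *
        kashaev (2 * t.circles) 0 t N := by
      unfold kashaev
      rw [zero_mul, zpow_zero, one_mul, ← zpow_add₀ (by norm_num : (-1 : ℂ) ≠ 0)]
      have e2 : (-1 : ℂ) ^ (m * ((N : ℤ) - 1)) = (-1) ^ (m + m * (N : ℤ)) := by
        have e3 : m + m * (N : ℤ) = m * ((N : ℤ) - 1) + 2 * m := by ring
        rw [e3, zpow_add₀ (by norm_num : (-1 : ℂ) ≠ 0), _root_.zpow_mul (-1 : ℂ) 2 m]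
        norm_num
      rw [e2]
      ring
    have e4 : Complex.exp (N * v) = (-1) ^ (m * (N : ℤ)) *
        Complex.exp (N * ((V / (2 * π) : ℝ) : ℂ)) := by
      have e5 : (-1 : ℂ) ^ (m * (N : ℤ)) = Complex.exp (N * (π * Complex.I * m)) := by
        rw [← Complex.exp_pi_mul_I, ← Complex.exp_int_mul]
        congr 1
        push_cast
        ring
      rw [e5, ← Complex.exp_add]
      congr 1
      rw [hv2]
      ring
    have hs : ((-1 : ℂ) ^ (m * (N : ℤ))) * (-1) ^ (m * (N : ℤ)) = 1 := by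
      rw [← zpow_add₀ (by norm_num : (-1 : ℂ) ≠ 0), ← two_mul, _root_.zpow_mul (-1 : ℂ) 2]
      norm_num
    have e6 : kashaev (2 * t.circles) m t N / (((Real.sqrt N) ^ 3 : ℝ) *
        Complex.exp (N * ((V / (2 * π) : ℝ) : ℂ))) -
        ∑ k ∈ range K, (fun k => (-1 : ℂ) ^ m * y k) k / (N : ℂ) ^ k =
        (-1) ^ m * (kashaev (2 * t.circles) 0 t N / (((Real.sqrt N) ^ 3 : ℝ) *
          Complex.exp (N * v)) - ∑ k ∈ range K, y k / (N : ℂ) ^ k) := by
      rw [e1, e4, mul_sub, Finset.mul_sum]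
      congr 1
      · have e7 : (((Real.sqrt N) ^ 3 : ℝ) : ℂ) * ((-1) ^ (m * (N : ℤ)) *
            Complex.exp (N * ((V / (2 * π) : ℝ) : ℂ))) = (-1) ^ (m * (N : ℤ)) *
            ((((Real.sqrt N) ^ 3 : ℝ) : ℂ) * Complex.exp (N * ((V / (2 * π) : ℝ) : ℂ))) := by
          ring
        rw [e7, div_eq_iff_help hs]
      · refine Finset.sum_congr rfl fun k _ => ?_
        ring
    rw [e6, norm_mul, norm_zpow, norm_neg, norm_one, one_zpow, one_mul]
    exact hN
  have hy' : (fun k => (-1 : ℂ) ^ m * y k) 0 ≠ 0 :=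
    mul_ne_zero (zpow_ne_zero _ (by norm_num)) hy
  obtain ⟨x, hx0, hx⟩ := exy_real hy' hE (by
    filter_upwards [eventually_ge_atTop 2] with N hN
    exact hreal m N hN)
  exact ⟨m, x, hx0, hreal m, hx⟩

/-- everything -/
theorem mainVD (hF : S_FINV) : ∃ K : ℕ, ∀ t : Tree, Fine K t → 2 ≤ hubs t →
    (∀ N : ℕ, ContinuousAt (jones t N) (root N)) ∧
    ∃ V : ℝ, IsGreatest {W : ℝ | ∃ y : AngleTree, y.tree = t ∧ IsAngle y ∧ vol y = W} V ∧
      (∀ e f : ℤ, ∃ (v : ℂ) (y : ℕ → ℂ), 2 * Real.pi * v.re = V ∧ y 0 ≠ 0 ∧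
        EXY (kashaev e f t) v y) ∧
      (∀ s : Tree, t = s.double → ∃ x : ℕ → ℝ, 0 < x 0 ∧
        EXY (kashaev (4 * s.circles) 1 t) ((V / (2 * Real.pi) : ℝ) : ℂ)
          (fun k => (x k : ℂ))) ∧
      (t.weight = 0 → (t.kids.map Tree.mirror).Perm t.kids → ∃ (f : ℤ) (x : ℕ → ℝ), x 0 ≠ 0 ∧
        (∀ N : ℕ, 2 ≤ N → ∃ r : ℝ, kashaev (2 * t.circles) f t N = r) ∧
        EXY (kashaev (2 * t.circles) f t) ((V / (2 * Real.pi) : ℝ) : ℂ)
          (fun k => (x k : ℂ))) := by
  obtain ⟨K, hK⟩ := mainV hF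
  refine ⟨K, fun t ht hs => ?_⟩
  obtain ⟨h1, V, h2, h3⟩ := hK t (children_pos hs) ht
  refine ⟨h1, V, h2, h3, ?_, fun hw hp => perm_part hw hp h3⟩
  rintro s rfl
  exact dbl_part h3

end Pool.Agent.TH563.V.Arb
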