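import Pool.Agent.TH563.Z.KidX

/-!
# Several hubs: definitions and statements

Weighted trees with crossing circles whose vertices are large, encircled, or hubs (weight `0`, no
circle, valence at least `3`), no two hubs being adjacent.  The variable of a small hub of valence
`k` is near `i η`, `η = et k`; the variables of all other vertices are near `0`.  An edge between a
small hub and another vertex has the potential `s'` near `(0, i η)`, all other edges have the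
potential `s` near `(0, 0)`.
-/

set_option autoImplicit false

namespace Pool.Agent.TH563.V

open Finset Filter Topology Metric
open Pool.Agent.W711.HT hiding XX
open Pool.Agent.TH563.UV
open Pool.Agent.TH563.Z
open Pool.Agent.W293.HT (GH)
open Pool.Agent.W719.AX (UX GX)
open scoped Real

/-! ### The functions of the recursion -/

/-- the functions of the recursion near `0`, without reference to the kernel: `X` is a product of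
`t` functions (as `GoodU`) -/
structure GoodV (ρ τ κ c C : ℝ) (t : ℕ) (X : ℕ → ℂ → ℂ) (F : ℂ → ℂ) : Prop where
  an : ∀ N, Differentiable ℂ (X N)
  ev : ∀ N ψ, X N (-ψ) = X N ψ
  pos : 0 ≤ (F 0).re
  gh : GH ρ τ (c * t) (C * t) F
  mw : MW X F (Rc (2 * ρ) (2 * τ))
  gl1 : ∀ᶠ N : ℕ in atTop, ∀ x y : ℝ, ρ ≤ |x| → |x| ≤ π → |y| ≤ 1 / N →
    ‖X N (x + y * Complex.I)‖ ≤ Real.exp (N * ((F 0).re - t * (κ / 2)))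

/-- the data of an edge: `k N ψ p` is about `exp (N σ(ψ, p))` for `ψ` near `0` and `p ∈ U` -/
structure ED (ρ τ κ c C : ℝ) (U : Set ℂ) (k : ℕ → ℂ → ℂ → ℂ) (σ : ℂ → ℂ → ℂ) : Prop where
  hρ : 0 < ρ ∧ ρ ≤ 1 / 4
  hτ : 0 < τ ∧ τ ≤ ρ
  hκ : 0 < κ ∧ κ ≤ bet
  hc : 0 < c
  hC : 0 < C
  hU : IsOpen U
  kan : ∀ N, ∀ p ∈ U, Differentiable ℂ (fun w => k N w p)
  san : DifferentiableOn ℂ (fun x : ℂ × ℂ => σ x.1 x.2) (Rc (3 * ρ) (3 * τ) ×ˢ U)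
  sbd : ∀ ψ ∈ Rc (3 * ρ) (3 * τ), ∀ p ∈ U, ‖σ ψ p‖ ≤ C
  ev : ∀ ψ ∈ Rc (3 * ρ) (3 * τ), ∀ p ∈ U, σ (-ψ) p = σ ψ p
  conc : ∀ ψ ∈ Rc (3 * ρ) (3 * τ), ∀ p ∈ U, (deriv (deriv fun z => σ z p) ψ).re ≤ -c
  slow : ∀ p ∈ U, bet ≤ (σ 0 p).re
  mw : ∀ ε : ℝ, 0 < ε → ∀ᶠ N : ℕ in atTop, ∀ ψ ∈ Rc (3 * ρ) (3 * τ), ∀ p ∈ U,
    k N ψ p ≠ 0 ∧ |Real.log ‖k N ψ p‖ - N * (σ ψ p).re| ≤ ε * N
  far : ∀ᶠ N : ℕ in atTop, ∀ x y : ℝ, ρ ≤ |x| → |x| ≤ π → |y| ≤ 1 / N → ∀ p ∈ U,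
    ‖k N (x + y * Complex.I) p‖ ≤ Real.exp (N * ((σ 0 p).re - κ))

/-- the integral at a vertex -/
noncomputable def stk (a : ℤ) (X : ℕ → ℂ → ℂ) (k : ℕ → ℂ → ℂ → ℂ) (N : ℕ) (p : ℂ) : ℂ :=
  upp (1 / N) fun w => Ea a N w * (X N w * k N w p) * kr N w

/-- job V-F: the step at a large vertex without circle (as `cpz` and `mwF`) -/
def S_VF : Prop := ∀ (ρ τ κ c C : ℝ) (U : Set ℂ) (k : ℕ → ℂ → ℂ → ℂ) (σ : ℂ → ℂ → ℂ),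
  ED ρ τ κ c C U k σ → ∀ κ₁ c₁ C₁ : ℝ, 0 < κ₁ → 0 < c₁ → 0 < C₁ → ∀ r₀ ε₁ : ℝ, 0 < r₀ → 0 < ε₁ →
  ∃ K : ℝ, 0 < K ∧ ∀ (t : ℕ) (X : ℕ → ℂ → ℂ) (F : ℂ → ℂ), GoodV ρ τ κ₁ c₁ C₁ t X F → ∀ a : ℤ,
    K ^ 2 ≤ ((t + 1 : ℕ) : ℝ) ^ 2 + (a : ℝ) ^ 2 →
    ∃ (F' zs : ℂ → ℂ), DifferentiableOn ℂ F' U ∧ DifferentiableOn ℂ zs U ∧
      (∀ p ∈ U, ‖F' p - F 0 - σ 0 p‖ ≤ ε₁) ∧
      (∃ r : ℝ, 0 < r ∧ ∀ p ∈ U, ‖zs p‖ ≤ r ∧ ∀ z : ℂ, ‖z‖ ≤ r →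
        Complex.I * a * z / (2 * π) + Complex.I + deriv F z + deriv (fun w => σ w p) z = 0 →
        z = zs p) ∧
      (∀ p ∈ U, CPu ρ τ r₀ (zs p) ∧ SAD a (fun w => F w + σ w p) ρ (zs p) ∧
        Complex.I * a * zs p / (2 * π) + Complex.I + deriv F (zs p) +
          deriv (fun w => σ w p) (zs p) = 0 ∧
        F' p = qq a F (zs p) + σ (zs p) p ∧ HasDerivAt F' (deriv (fun w => σ (zs p) w) p) p) ∧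
      ∀ V : Set ℂ, IsCompact V → V ⊆ U → MW (stk a X k) F' V

/-- job V-T: the step at a vertex with a circle (as `mwT`) -/
def S_VT : Prop := ∀ (ρ τ κ c C : ℝ) (U : Set ℂ) (k : ℕ → ℂ → ℂ → ℂ) (σ : ℂ → ℂ → ℂ),
  ED ρ τ κ c C U k σ → ∀ κ₁ c₁ C₁ : ℝ, 0 < κ₁ → 0 < c₁ → 0 < C₁ →
  ∀ (t : ℕ) (X : ℕ → ℂ → ℂ) (F : ℂ → ℂ), GoodV ρ τ κ₁ c₁ C₁ t X F → ∀ a : ℤ,
    ∀ V : Set ℂ, IsCompact V → V ⊆ U →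
      MW (stk a (fun N w => UN N w * X N w) k) (fun p => F 0 + π * Complex.I + σ 0 p) V

/-! ### Expansions -/

/-- the expansion of the kernel of an edge (as `KXD`, `KXZ`) -/
structure KXG (ρ₂ τ₂ : ℝ) (V : Set ℂ) (k : ℕ → ℂ → ℂ → ℂ) (σ : ℂ → ℂ → ℂ)
    (A : ℕ → ℂ × ℂ → ℂ) : Prop where
  hρ : 0 < ρ₂
  hτ : 0 < τ₂
  hV : IsOpen V
  ux : UX (fun (N : ℕ) (x : ℂ × ℂ) => ((Real.sqrt N) ^ 3 : ℝ) * Complex.exp (-(N * σ x.1 x.2)) *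
    k N x.1 x.2) A (Rc ρ₂ τ₂ ×ˢ V)
  d1 : ∀ n, ∀ p ∈ V, DifferentiableOn ℂ (fun w => A n (w, p)) (Rc ρ₂ τ₂)
  nz : ∀ x ∈ Rc ρ₂ τ₂ ×ˢ V, A 0 x ≠ 0

/-- expansions on a set (as `GX`, `GXZ`) -/
structure GXG (V : Set ℂ) (m : ℕ) (Y : ℕ → ℂ → ℂ) (F : ℂ → ℂ) (A : ℕ → ℂ → ℂ) : Prop where
  ux : UX (fun N z => (N : ℂ) ^ (2 * m) * (-1) ^ (N * m) * Complex.exp (-(N * F z)) * Y N z) A V
  an : ∀ k, DifferentiableOn ℂ (A k) V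
  nz : ∀ z ∈ V, A 0 z ≠ 0

/-- job V-FX: the step at a large vertex without circle, expansions (as `gxF`) -/
def S_VFX : Prop := ∀ (ρ τ κ c C : ℝ) (U : Set ℂ) (k : ℕ → ℂ → ℂ → ℂ) (σ : ℂ → ℂ → ℂ),
  ED ρ τ κ c C U k σ → ∀ κ₁ c₁ C₁ : ℝ, 0 < κ₁ → 0 < c₁ → 0 < C₁ →
  ∀ (t : ℕ) (X : ℕ → ℂ → ℂ) (F : ℂ → ℂ), GoodV ρ τ κ₁ c₁ C₁ t X F →
  ∀ (ρ₂ τ₂ : ℝ) (V W : Set ℂ) (Ak : ℕ → ℂ × ℂ → ℂ), ρ₂ ≤ ρ → τ₂ ≤ τ → KXG ρ₂ τ₂ V k σ Ak →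
    IsCompact W → V ⊆ W → W ⊆ U →
  ∀ (m : ℕ) (A : ℕ → ℂ → ℂ), GX ρ₂ τ₂ m X F A →
  ∀ (a : ℤ) (r₀ : ℝ) (F' zs : ℂ → ℂ), r₀ < min ρ₂ τ₂ / 4 → DifferentiableOn ℂ F' U →
    DifferentiableOn ℂ zs U → (∀ p ∈ U, ‖F' p - F 0 - σ 0 p‖ ≤ κ / 16) →
    (∀ p ∈ U, CPu ρ τ r₀ (zs p) ∧ SAD a (fun w => F w + σ w p) ρ (zs p) ∧
      F' p = qq a F (zs p) + σ (zs p) p) →
    (∀ N, DifferentiableOn ℂ (stk a X k N) V) →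
    ∃ A' : ℕ → ℂ → ℂ, GXG V (m + 1) (stk a X k) F' A'

/-- job V-TX: the step at a vertex with a circle, expansions (as `gxT`) -/
def S_VTX : Prop := ∀ (ρ τ κ c C : ℝ) (U : Set ℂ) (k : ℕ → ℂ → ℂ → ℂ) (σ : ℂ → ℂ → ℂ),
  ED ρ τ κ c C U k σ → ∀ κ₁ c₁ C₁ : ℝ, 0 < κ₁ → 0 < c₁ → 0 < C₁ →
  ∀ (t : ℕ) (X : ℕ → ℂ → ℂ) (F : ℂ → ℂ), GoodV ρ τ κ₁ c₁ C₁ t X F →
  ∀ (ρ₂ τ₂ : ℝ) (V W : Set ℂ) (Ak : ℕ → ℂ × ℂ → ℂ), ρ₂ ≤ ρ → τ₂ ≤ τ → KXG ρ₂ τ₂ V k σ Ak →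
    IsCompact W → V ⊆ W → W ⊆ U →
  ∀ (m : ℕ) (A : ℕ → ℂ → ℂ), GX ρ₂ τ₂ m X F A → ∀ a : ℤ,
    (∀ N, DifferentiableOn ℂ (stk a (fun N w => UN N w * X N w) k N) V) →
    ∃ A' : ℕ → ℂ → ℂ, GXG V (m + 1) (stk a (fun N w => UN N w * X N w) k)
      (fun p => F 0 + π * Complex.I + σ 0 p) A'

/-! ### The last step -/

/-- job V-L: the last step at a large vertex without circle (as the last part of `S_STEPU`) -/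
def S_VL : Prop := ∀ ρ τ κ c C : ℝ, 0 < ρ → ρ ≤ 1 / 4 → 0 < τ → τ ≤ ρ → 0 < κ → 0 < c → 0 < C →
  ∀ ρ₂ τ₂ : ℝ, 0 < ρ₂ → ρ₂ ≤ ρ → 0 < τ₂ → τ₂ ≤ τ → ∀ r₀ : ℝ, 0 < r₀ → ∃ K : ℝ, 0 < K ∧
  ∀ (t m : ℕ) (X : ℕ → ℂ → ℂ) (F : ℂ → ℂ) (A : ℕ → ℂ → ℂ), 1 ≤ t → GoodV ρ τ κ c C t X F →
    GX ρ₂ τ₂ m X F A → ∀ a : ℤ, K ^ 2 ≤ (t : ℝ) ^ 2 + (a : ℝ) ^ 2 → ∃ (z : ℂ) (y : ℕ → ℂ),
      CPu ρ τ r₀ z ∧ Complex.I * a * z / (2 * π) + Complex.I + deriv F z = 0 ∧ y 0 ≠ 0 ∧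
      UX (fun N (_ : Unit) => (N : ℂ) ^ (2 * m) * (Real.sqrt N : ℂ) * (-1) ^ (N * (m + 1)) *
        Complex.exp (-(N * qq a F z)) * upp (1 / N) fun ψ => Eb false a N ψ * X N ψ * kr N ψ)
        (fun k _ => y k) Set.univ

/-- job V-LT: the last step at a vertex with a circle (as the last part of `S_STEPB`) -/
def S_VLT : Prop := ∀ ρ τ κ c C : ℝ, 0 < ρ → ρ ≤ 1 / 4 → 0 < τ → τ ≤ ρ → 0 < κ → 0 < c → 0 < C →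
  ∀ ρ₂ τ₂ : ℝ, 0 < ρ₂ → ρ₂ ≤ ρ → 0 < τ₂ → τ₂ ≤ τ →
  ∀ (t m : ℕ) (X : ℕ → ℂ → ℂ) (F : ℂ → ℂ) (A : ℕ → ℂ → ℂ), 1 ≤ t → GoodV ρ τ κ c C t X F →
    GX ρ₂ τ₂ m X F A → ∀ a : ℤ, ∃ y : ℕ → ℂ, y 0 ≠ 0 ∧
      UX (fun N (_ : Unit) => (N : ℂ) ^ (2 * m) * (Real.sqrt N : ℂ) * (-1) ^ (N * (m + 1)) *
        Complex.exp (-(N * (F 0 + π * Complex.I))) *
        upp (1 / N) fun ψ => Eb true a N ψ * X N ψ * kr N ψ)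
        (fun k _ => y k) Set.univ

/-! ### The step at a small hub -/

/-- job V-HC: the critical point at a hub with `j` children, as a function of the variable of the
parent -/
def S_HC : Prop := ∀ (η r c' C' : ℝ) (s' dl' : ℂ → ℂ → ℂ), SDZ η r c' C' s' dl' →
  ∀ ρ τ : ℝ, 0 < τ → τ ≤ ρ → 3 * ρ ≤ r → ∀ j : ℕ, 1 ≤ j → Z.gd (η / 2) = π / (j + 1 : ℕ) →
  ∀ r₁ : ℝ, 0 < r₁ → r₁ < τ → ∃ ε₁ r₂ C₁ : ℝ, 0 < ε₁ ∧ 0 < r₂ ∧ r₂ ≤ r ∧ 0 < C₁ ∧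
  ∀ (f : ℂ) (Φ : ℂ → ℂ), DifferentiableOn ℂ Φ (Rz η (3 * ρ) (3 * τ)) →
    (∀ φ ∈ Rz η (3 * ρ) (3 * τ), ‖Φ φ - f - j * s' 0 φ‖ ≤ j * ε₁) →
    ∃ F zs : ℂ → ℂ, DifferentiableOn ℂ F (Rc r₂ r₂) ∧ DifferentiableOn ℂ zs (Rc r₂ r₂) ∧
      (∀ ψ ∈ Rc r₂ r₂, F (-ψ) = F ψ) ∧
      (∀ ψ ∈ Rc r₂ r₂, (deriv (deriv F) ψ).re ≤ -(c' / 2) ∧ ‖deriv (deriv F) ψ‖ ≤ C₁) ∧
      ∀ ψ ∈ Rc r₂ r₂, ‖zs ψ - η * Complex.I‖ ≤ r₁ ∧ zs ψ ∈ Rz η ρ τ ∧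
        deriv (qz fun w => Φ w + s' ψ w) (zs ψ) = 0 ∧
        (deriv (deriv (qz fun w => Φ w + s' ψ w)) (zs ψ)).re < 0 ∧
        (∀ x : ℝ, |x| ≤ ρ → x ≠ (zs ψ).re →
          (qz (fun w => Φ w + s' ψ w) (x + (zs ψ).im * Complex.I)).re <
            (qz (fun w => Φ w + s' ψ w) (zs ψ)).re) ∧
        F ψ = qz (fun w => Φ w + s' ψ w) (zs ψ) ∧
        HasDerivAt F (deriv (fun w => s' w (zs ψ)) ψ) ψ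

/-- job V-HX: asymptotic expansion of the outer integral, uniformly in a parameter (as `loc_z`,
`outer_ux`) -/
def S_HX : Prop := ∀ η ρ τ : ℝ, 0 < ρ → ρ ≤ 1 / 4 → 0 < τ → 3 * τ < η →
  ∀ (K V : Set ℂ), IsCompact K → V ⊆ K →
  ∀ (P PL : ℕ → ℂ → ℂ → ℂ) (Φ : ℂ → ℂ → ℂ) (z : ℂ → ℂ) (n : ℕ → ℂ),
  (∀ N, ∀ p ∈ K, Differentiable ℂ (P N p)) → (∀ N, ∀ p ∈ K, Differentiable ℂ (PL N p)) →
  (∀ N, ∀ p ∈ K, ∀ φ, PL N p (φ + 2 * π) = PL N p φ) →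
  (∀ p ∈ K, DifferentiableOn ℂ (Φ p) (Rz η (3 * ρ) (3 * τ))) →
  ContinuousOn (fun x : ℂ × ℂ => Φ x.1 x.2) (K ×ˢ Rz η (3 * ρ) (3 * τ)) → ContinuousOn z K →
  (∀ ε : ℝ, 0 < ε → ∀ᶠ N : ℕ in atTop, ∀ p ∈ K, ∀ φ ∈ Rz η (2 * ρ) (2 * τ), PL N p φ ≠ 0 ∧
    |Real.log ‖PL N p φ‖ - N * (Φ p φ).re| ≤ ε * N) →
  (∀ p ∈ K, z p ∈ Rz η ρ τ ∧ deriv (qz (Φ p)) (z p) = 0 ∧
    (deriv (deriv (qz (Φ p))) (z p)).re < 0 ∧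
    ∀ x : ℝ, |x| ≤ ρ → x ≠ (z p).re →
      (qz (Φ p) (x + (z p).im * Complex.I)).re < (qz (Φ p) (z p)).re) →
  (∃ κ : ℝ, 0 < κ ∧
    (∀ᶠ N : ℕ in atTop, ∀ p ∈ K, ∀ x : ℝ, ρ ≤ |x| → |x| ≤ π →
      ‖PL N p (x + (z p).im * Complex.I)‖ ≤
        Real.exp (N * ((qz (Φ p) (z p)).re + (z p).im - κ))) ∧
    ∀ᶠ N : ℕ in atTop, ∀ p ∈ K, ‖upp (1 / N) fun φ => (P N p φ - PL N p φ) * kr N φ‖ ≤
      Real.exp (N * ((qz (Φ p) (z p)).re - κ))) →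
  (∀ ε : ℝ, 0 < ε → ∀ᶠ N : ℕ in atTop, ‖n N‖ ≤ Real.exp (ε * N)) →
  ∀ (ρ₃ τ₃ : ℝ) (A : ℕ → ℂ × ℂ → ℂ),
  UX (fun (N : ℕ) (x : ℂ × ℂ) => n N * Complex.exp (-(N * Φ x.1 x.2)) * PL N x.1 x.2) A
    (V ×ˢ Rz η ρ₃ τ₃) →
  (∀ i, ∀ p ∈ V, DifferentiableOn ℂ (fun φ => A i (p, φ)) (Rz η ρ₃ τ₃)) →
  (∀ x ∈ V ×ˢ Rz η ρ₃ τ₃, A 0 x ≠ 0) → (∀ p ∈ K, z p ∈ Rz η ρ₃ τ₃) →
  ∃ B : ℕ → ℂ → ℂ, (∀ p ∈ V, B 0 p ≠ 0) ∧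
    UX (fun (N : ℕ) (p : ℂ) => n N * (Real.sqrt N : ℂ) * (-1) ^ N *
      Complex.exp (-(N * qz (Φ p) (z p))) * upp (1 / N) fun φ => P N p φ * kr N φ) B V

/-! ### Critical configurations -/

/-- the valence of a small hub (weight `0`, no circle, `3 ≤` valence `< D`), `0` for all other
vertices -/
def kz (D : ℕ) (b : Bool) (n : ℕ) (a : ℤ) : ℕ :=
  if b = false ∧ a = 0 ∧ 3 ≤ n ∧ n < D then n else 0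

/-- the potential of an edge; `k`, `z` belong to the parent, `k'`, `z'` to the child -/
noncomputable def pt (S : ℕ → ℂ → ℂ → ℂ) (s : ℂ → ℂ → ℂ) (k k' : ℕ) (z' z : ℂ) : ℂ :=
  if k ≠ 0 then S k z' z else if k' ≠ 0 then S k' z z' else s z' z

/-- the sum of the derivatives, in the variable of the root, of the potentials of the edges at the
root; `k` is the number `kz` of the root -/
noncomputable def gv (D : ℕ) (S : ℕ → ℂ → ℂ → ℂ) (s : ℂ → ℂ → ℂ) (k : ℕ) : PB → ℂ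
  | .vx _ _ _ => 0
  | .br t c => gv D S s k t +
      deriv (fun w => pt S s k (kz D c.bl (c.nc + 1) c.wt) c.rz w) t.rz

/-- the value without the term of the root -/
noncomputable def vv (D : ℕ) (S : ℕ → ℂ → ℂ → ℂ) (s : ℂ → ℂ → ℂ) (k : ℕ) : PB → ℂ
  | .vx _ _ _ => 0
  | .br t c => vv D S s k t + (vt c.bl c.wt c.rz + vv D S s (kz D c.bl (c.nc + 1) c.wt) c +
      pt S s k (kz D c.bl (c.nc + 1) c.wt) c.rz t.rz)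

/-- the condition at a vertex; `G` is the derivative of the sum of the potentials of the edges -/
def VCV (ρ τ g : ℝ) (k : ℕ) (b : Bool) (a : ℤ) (z G : ℂ) : Prop :=
  (k = 0 → VC ρ τ b a z G) ∧ (k ≠ 0 → ‖z - et k * Complex.I‖ ≤ g ∧ Complex.I + G = 0)

/-- the conditions at the edges and at the vertices other than the root -/
def CV (D : ℕ) (S : ℕ → ℂ → ℂ → ℂ) (s : ℂ → ℂ → ℂ) (ρ τ g : ℝ) (k : ℕ) : PB → Prop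
  | .vx _ _ _ => True
  | .br t c => CV D S s ρ τ g k t ∧ CV D S s ρ τ g (kz D c.bl (c.nc + 1) c.wt) c ∧
      VCV ρ τ g (kz D c.bl (c.nc + 1) c.wt) c.bl c.wt c.rz
        (gv D S s (kz D c.bl (c.nc + 1) c.wt) c +
          deriv (fun w => pt S s k (kz D c.bl (c.nc + 1) c.wt) w t.rz) c.rz) ∧
      (k ≠ 0 → kz D c.bl (c.nc + 1) c.wt = 0 ∧ ‖c.rz‖ ≤ g) ∧
      (kz D c.bl (c.nc + 1) c.wt ≠ 0 → k = 0 ∧ ‖t.rz‖ ≤ g)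

/-- job V-GEO: the value at a critical configuration is the maximal volume of the angle
structures -/
def S_GEOV : Prop := ∀ (ρ τ κ c : ℝ) (s dl : ℂ → ℂ → ℂ), KD ρ τ κ c s dl →
  ∀ (D : ℕ) (S : ℕ → ℂ → ℂ → ℂ),
  (∀ k, 3 ≤ k → k < D → Adm (et k) ∧ ∃ (r c' C : ℝ) (dl' : ℂ → ℂ → ℂ),
    SDZ (et k) r c' C (S k) dl') →
  ∃ g : ℝ, 0 < g ∧ ∀ p : PB, CV D S s ρ τ g (kz D p.bl p.nc p.wt) p →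
    VCV ρ τ g (kz D p.bl p.nc p.wt) p.bl p.wt p.rz (gv D S s (kz D p.bl p.nc p.wt) p) →
    1 ≤ p.nc →
    IsGreatest {W : ℝ | ∃ y : AB, y.shape = p.shape ∧ y.IsAng ∧ y.vol = W}
      (2 * π * (vt p.bl p.wt p.rz + vv D S s (kz D p.bl p.nc p.wt) p).re)

end Pool.Agent.TH563.V
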