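import Pool.Agent.TH563.V.MainW
import Pool.Agent.TH563.Z.FinX

/-!
# Several hubs: the expansion of the invariants
-/

set_option autoImplicit false

namespace Pool.Agent.TH563.V

open Finset Filter Topology Metric
open Pool.Agent.W711.HT hiding XX
open Pool.Agent.TH563.UV
open Pool.Agent.TH563.Z hiding gd
open Pool.Agent.W719.AX (UX EXY cv)
open scoped Real

/-- the expansion of the invariants; the growth rate is the maximal volume -/
def S_FINV : Prop := ∃ K : ℝ, 0 < K ∧ ∀ t : Tb, OkT K t → 1 ≤ t.nc →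
  ∃ (V : ℝ) (v : ℂ) (y : ℕ → ℂ),
    IsGreatest {W : ℝ | ∃ y : AB, y.shape = t ∧ y.IsAng ∧ y.vol = W} V ∧
    2 * π * v.re = V ∧ y 0 ≠ 0 ∧ EXY (fun N : ℕ => jt t N (vN N)) v y

theorem finv (hM : S_MAINV) (hG : S_GEOV) : S_FINV := by
  obtain ⟨ρ, τ, κ, c, s, dl, hKD, D, S, hS, hM⟩ := hM
  obtain ⟨g, hg, hG⟩ := hG ρ τ κ c s dl hKD D S hS
  obtain ⟨K, hK, hM⟩ := hM g hg
  refine ⟨K, hK, fun t ht hn => ?_⟩
  obtain ⟨p, y', hp1, hp2, hp3, hy', hux⟩ := hM t ht hn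
  have hpn : 1 ≤ p.nc := by rw [← shape_nc p, hp1]; exact hn
  have h1 := hG p hp2 hp3 hpn
  rw [hp1] at h1
  obtain ⟨y, hy, h2⟩ := exy_of_ux t hy' hux
  refine ⟨_, _, y, h1, ?_, hy, h2⟩
  rw [re_shift]

end Pool.Agent.TH563.V
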