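import Pool.Agent.TH761.J1737

/-!
# Several hubs: the step at a vertex with a circle
-/

set_option autoImplicit false
set_option maxHeartbeats 1000000

namespace Pool.Agent.TH563.V

open Finset Filter Topology Metric
open Pool.Agent.W711.HT hiding XX
open Pool.Agent.TH563.UV
open Pool.Agent.TH563.Z
open Pool.Agent.W85.HT hiding Rc_mono
open Pool.Agent.W293.HT
open Pool.Agent.TH929.J29 (nat_exp_ev UN_bd UN_diff locb lapB even_deriv_zero deriv2_le)
open Pool.Agent.TH761.J1737 (s_diffV mw_seqV mw_prodV)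
open scoped Real

section

variable {ρ τ κ c C : ℝ} {U : Set ℂ} {k : ℕ → ℂ → ℂ → ℂ} {σ : ℂ → ℂ → ℂ}

/-- far from `0` -/
lemma far_prodV (hE : ED ρ τ κ c C U k σ) {κ₁ c₁ C₁ : ℝ} (hκ₁ : 0 < κ₁) {t : ℕ}
    {X : ℕ → ℂ → ℂ} {F : ℂ → ℂ} (hX : GoodV ρ τ κ₁ c₁ C₁ t X F) :
    ∀ᶠ N : ℕ in atTop, ∀ p ∈ U, ∀ x y : ℝ, ρ ≤ |x| → |x| ≤ π → |y| ≤ 1 / N →
      ‖X N (x + y * Complex.I) * k N (x + y * Complex.I) p‖ ≤
        Real.exp (N * ((F 0).re + (σ 0 p).re - κ)) := by
  filter_upwards [hX.gl1, hE.far] with N h1 h1' p hp x y hx1 hx2 hy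
  have q1 := h1 x y hx1 hx2 hy
  have q2 := h1' x y hx1 hx2 hy p hp
  rw [norm_mul]
  refine (mul_le_mul q1 q2 (norm_nonneg _) (Real.exp_pos _).le).trans ?_
  rw [← Real.exp_add, ← mul_add]
  apply Real.exp_le_exp.2
  apply mul_le_mul_of_nonneg_left _ (Nat.cast_nonneg N)
  have k5 : 0 ≤ (t : ℝ) * (κ₁ / 2) := by positivity
  linarith

/-- bounds of the second derivative of the sum -/
lemma ghv (hE : ED ρ τ κ c C U k σ) {κ₁ c₁ C₁ : ℝ} (hc₁ : 0 < c₁) (hC₁ : 0 < C₁) {t : ℕ}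
    {X : ℕ → ℂ → ℂ} {F : ℂ → ℂ} (hX : GoodV ρ τ κ₁ c₁ C₁ t X F) :
    ∃ L : ℝ, 0 ≤ L ∧ ∀ p ∈ U, GH ρ τ c L (fun w => F w + σ w p) := by
  have hρ0 := hE.hρ.1
  have hτ0 := hE.hτ.1
  have hτρ := hE.hτ.2
  have hC := hE.hC
  have hUc := isOpen_Rc (3 * ρ) (3 * τ)
  have hsub23 : Rc (2 * ρ) (2 * τ) ⊆ Rc (3 * ρ) (3 * τ) := Rc_mono (by linarith) (by linarith)
  have ht0 : (0 : ℝ) ≤ t := Nat.cast_nonneg t
  refine ⟨C₁ * t + 8 * C / τ ^ 2, by positivity, ?_⟩
  intro p hp
  have hsd := s_diffV hE.san hp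
  refine ⟨hX.gh.an.add hsd, ?_, ?_, ?_⟩
  · intro w hw
    show F (-w) + σ (-w) p = F w + σ w p
    rw [hX.gh.ev w hw, hE.ev w hw p hp]
  · intro w hw
    rw [dd_add hUc hX.gh.an hsd (hsub23 hw), Complex.add_re]
    have e1 := hX.gh.d2 w hw
    have e2 := hE.conc w (hsub23 hw) p hp
    have e3 : 0 ≤ c₁ * t := by positivity
    linarith
  · intro w hw
    rw [dd_add hUc hX.gh.an hsd (hsub23 hw)]
    refine (norm_add_le _ _).trans ?_
    have e1 := hX.gh.d2b w hw
    have e2 := cauchy2 (g := fun w => σ w p) hτ0 hτρ hsd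
      (fun z hz => hE.sbd z hz p hp) hw
    linarith

/-- asymptotics at a vertex with a circle -/
theorem vt_mw : S_VT := by
  intro ρ τ κ c C U k σ hE κ₁ c₁ C₁ hκ₁ hc₁ hC₁ t X F hX a V hV hVU
  have hρ0 := hE.hρ.1
  have hρ1 := hE.hρ.2
  have hτ0 := hE.hτ.1
  have hτρ := hE.hτ.2
  have hκ := hE.hκ.1
  have hκ1 := hE.hκ.2
  have hc := hE.hc
  have hπ := Real.pi_gt_three
  have hUc := isOpen_Rc (3 * ρ) (3 * τ)
  have h0c : (0 : ℂ) ∈ Rc (3 * ρ) (3 * τ) := zero_mem_Rc (by linarith) (by linarith)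
  have hcc : Kc (2 * ρ) (2 * τ) ⊆ Rc (3 * ρ) (3 * τ) := by
    intro w hw
    rw [Kc_mem] at hw
    exact ⟨by linarith [hw.1], by linarith [hw.2]⟩
  have hre : ∀ φ : ℂ, (F 0 + π * Complex.I + σ 0 φ).re = (F 0 + σ 0 φ).re := by
    intro φ
    rw [Complex.add_re, Complex.add_re, Complex.add_re]
    simp
  have hscont : ContinuousOn (fun p : ℂ × ℂ => σ p.1 p.2)
      (Kc (2 * ρ) (2 * τ) ×ˢ V) :=
    hE.san.continuousOn.mono (Set.prod_mono hcc hVU)
  have m0 : (0 : ℂ) ∈ Kc (2 * ρ) (2 * τ) := by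
    rw [Kc_mem, Complex.zero_re, Complex.zero_im, abs_zero]
    constructor <;> linarith
  obtain ⟨L, hL, hgh⟩ := ghv hE hc₁ hC₁ hX
  obtain ⟨κ₂, hκ₂, hloc⟩ := locb upb (a := a) (K := V)
    (Y := fun N w p => X N w * k N w p) (G := fun w p => F w + σ w p)
    (c₀ := c / 2) (L := L) (τ₁ := τ) hρ0 (by linarith) hτ0 hτ0
    (fun N p hp => (hX.an N).mul (hE.kan N p (hVU hp)))
    (fun ε hε => by
      filter_upwards [mw_prodV hE hX ε hε] with N h w hw p hp
      exact h w hw p (hVU hp)) (by positivity) hL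
    (fun p hp x hx => real_axis (hgh p (hVU hp)) hτ0 hρ0 x hx)
    (fun p hp x y hx hy hy' => gh_up (hgh p (hVU hp)) hρ0 hτ0 hL hx hy hy')
    ⟨κ, by positivity, by
      filter_upwards [far_prodV hE hκ₁ hX] with N h1 p hp x y hx1 hx2 hy
      rw [Complex.add_re]
      exact h1 p (hVU hp) x y hx1 hx2 hy⟩
  refine mw_seqV hV hκ ?_ ?_ ?_
  · have h1 : ContinuousOn (fun p : ℂ => σ 0 p) V := by
      have h2 : ContinuousOn (fun p : ℂ => ((0 : ℂ), p)) V :=
        (continuous_const.prodMk continuous_id).continuousOn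
      exact hscont.comp h2 fun p hp => ⟨m0, hp⟩
    exact continuousOn_const.add h1
  · intro φ hφ
    rw [hre, Complex.add_re]
    have h2 := hE.slow φ (hVU hφ)
    have h3 := hX.pos
    linarith
  · intro p p₀ hp0 hp hlim
    rw [hre]
    have hun : ∀ e : ℝ, 0 < e → ∀ᶠ N : ℕ in atTop, ∀ w ∈ Kc (2 * ρ) (2 * τ),
        |(σ w (p N)).re - (σ w p₀).re| ≤ e := by
      intro e he
      filter_upwards [unif2 (Kc_compact _ _) hV hscont hp hp0 hlim he] with
        N h1 w hw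
      have k1 := (Complex.abs_re_le_norm _).trans (h1 w hw).le
      rwa [Complex.sub_re] at k1
    have hG := hgh p₀ (hVU hp0)
    have hG0 : deriv (fun w => F w + σ w p₀) 0 = 0 := hG.d0 hρ0 hτ0
    have hG2 := hG.d2 0 (zero_mem_Rc (by linarith) (by linarith))
    have hM := lapB Pool.Agent.W588.HT.lapc Pool.Agent.W930.HTLog.main
      (Y := fun N w => X N w * k N w (p N))
      (G := fun w => F w + σ w p₀) (a := a) hρ0 hτ0
      (Eventually.of_forall fun N =>
        ((hX.an N).mul (hE.kan N (p N) (hVU (hp N)))).differentiableOn)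
      (hG.an.mono (Rc_mono (by linarith) (by linarith)))
      (by
        intro e he
        filter_upwards [mw_prodV hE hX (e / 2) (by positivity),
          hun (e / 2) (by positivity)] with N h1 h2 w hw
        obtain ⟨k1, k2⟩ := h1 w hw (p N) (hVU (hp N))
        refine ⟨k1, ?_⟩
        have k3 := h2 w (by rw [Kc_mem]; exact ⟨hw.1.le, hw.2.le⟩)
        have hN0 : (0 : ℝ) ≤ N := Nat.cast_nonneg N
        have k4 : |N * ((σ w (p N)).re - (σ w p₀).re)| ≤ N * (e / 2) := by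
          rw [abs_mul, abs_of_nonneg hN0]
          exact mul_le_mul_of_nonneg_left k3 hN0
        rw [Complex.add_re] at k2 ⊢
        rw [abs_le] at k2 k4 ⊢
        constructor
        · linarith [k2.1, k4.1]
        · linarith [k2.2, k4.2])
      hG0 (by linarith)
      (by
        intro x hx hx0
        have h1 := real_axis hG hτ0 hρ0 x hx
        have h2 : 0 < c / 2 * x ^ 2 := by positivity
        linarith)
    refine log_lim (M := fun N : ℕ => (-Complex.I) * ∫ x in (-ρ)..ρ, Ea a N x *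
      (X N x * k N x (p N))) (T := fun N : ℕ => stk a (fun N ψ => UN N ψ * X N ψ) k N (p N))
      (κ := κ₂ / 2) (C := 1) (by positivity) zero_le_one ?_ ?_
    · intro e he
      filter_upwards [hM e he] with N h1
      rw [norm_mul, norm_neg, Complex.norm_I, one_mul]
      exact h1
    · filter_upwards [hloc, hun (κ₂ / 2) (by positivity)] with N h1 h2
      have k1 := h1 (p N) (hp N)
      have k2 := h2 0 m0
      have e1 : stk a (fun N ψ => UN N ψ * X N ψ) k N (p N) =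
          upp (1 / N) fun w => Ea a N w * (UN N w * (X N w * k N w (p N))) * kr N w := by
        unfold stk
        congr 1
        funext w
        ring
      rw [e1, one_mul]
      refine k1.trans (Real.exp_le_exp.2 (mul_le_mul_of_nonneg_left ?_ (Nat.cast_nonneg N)))
      rw [Complex.add_re, Complex.add_re]
      linarith [(abs_le.1 k2).2]

end

end Pool.Agent.TH563.V
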