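import Pool.Agent.TH563.V.ArbV
import Pool.Agent.TH563.V.StepT
import Pool.Agent.TH563.Z.FinalX
import Pool.Agent.TH761.J1737
import Pool.Agent.TH921.J1739
import Pool.Agent.TH416.J1740
import Pool.Agent.TH126.J1741
import Pool.Agent.TH886.J1742
import Pool.Agent.TH554.J1743
import Pool.Agent.TH790.J1744
import Pool.Agent.TH858.J1745

/-!
# Several hubs: all parts together
-/

set_option autoImplicit false

namespace Pool.Agent.TH563.V

open Pool.Agent.TH563.Z (mwkz f_kxcz)

theorem f_kerv : S_KERV :=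
  kerv (mwkz Pool.Agent.TH28.ZI.intz Pool.Agent.TH822.J362.rrdz) Pool.Agent.TH511.J361.bndz

theorem f_finv : S_FINV :=
  finv (mainv Pool.Agent.TH761.J1737.vf vt_mw Pool.Agent.TH921.J1739.vfx
    Pool.Agent.TH416.J1740.vtx vl_last Pool.Agent.TH886.vlt_last
    Pool.Agent.TH554.J1743.hc Pool.Agent.TH790.J1744.hx Pool.Agent.TH822.J362.sdz f_kerv f_kxcz
    Pool.Agent.TH653.J366.rem Pool.Agent.TH653.J366.half Pool.Agent.TH596.J367.ineq)
    Pool.Agent.TH858.J1745.geov

end Pool.Agent.TH563.V
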