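import Pool.Agent.TH563.V.KerV

/-!
# Several hubs: remainders at a small hub
-/

set_option autoImplicit false
set_option maxHeartbeats 1000000

namespace Pool.Agent.TH563.V

open Finset Filter Topology Metric
open Pool.Agent.W711.HT hiding XX
open Pool.Agent.TH563.UV
open Pool.Agent.TH563.Z hiding gd
open Pool.Agent.W85.HT hiding Rc_mono Rp_diff
open Pool.Agent.W293.HT
open Pool.Agent.W346.HT (IntP IntP_kr upp_const_mul)
open Pool.Agent.W398.HT (Rp_diff Rp_even)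
open Pool.Agent.TH929.J29 (nat_exp_ev)
open scoped Real

/-- the bounds of `R_d` -/
def BND (ρs : ℝ) : Prop := ∀ ε : ℝ, 0 < ε → ∃ τ : ℝ, 0 < τ ∧ ∀ᶠ N : ℕ in atTop, ∀ d < N,
  ∀ x y : ℝ, |x| ≤ π → |y| ≤ τ → ‖Rp N d (x + y * Complex.I)‖ ≤
    Sd N d ^ 2 * Real.exp (N * (bet - c1 * min |x| ρs ^ 2 + ε))

/-- bound of the lower part of the kernel, first variable near the real axis -/
lemma kerL_cx {ρs : ℝ} (hB : BND ρs) {ε e : ℝ} (hε : ε < 1 / 4) (he : 0 < e) :
    ∃ τe : ℝ, 0 < τe ∧ ∀ᶠ N : ℕ in atTop, ∀ x y x' y' : ℝ, |x| ≤ π → |y| ≤ τe → |x'| ≤ π →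
      |y'| ≤ τe → ‖kerL ε N (x + y * Complex.I) (x' + y' * Complex.I)‖ ≤
        Real.exp (N * (2 * bet - c1 * min |x'| ρs ^ 2 + e)) := by
  obtain ⟨τ, hτ, h⟩ := hB (e / 4) (by positivity)
  refine ⟨τ, hτ, ?_⟩
  filter_upwards [h, nat_exp_ev (show 0 < e / 2 by positivity) 1 0,
    eventually_gt_atTop 0] with N h1 h3 h4 x y x' y' hx hy hx' hy'
  have hN : (0 : ℝ) < N := by exact_mod_cast h4
  have hc1 : 0 < c1 := by unfold c1; positivity
  have hterm : ∀ d < N, ‖Rp N d (x + y * Complex.I) * Rp N d (x' + y' * Complex.I) /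
      (Sd N d : ℂ) ^ 4‖ ≤ Real.exp (N * (2 * bet - c1 * min |x'| ρs ^ 2 + e / 2)) := by
    intro d hd
    have hS := Pool.Agent.W469.HT.Mwk.Sd_pos hd
    have k1 := h1 d hd x y hx hy
    have k2 := h1 d hd x' y' hx' hy'
    rw [norm_div, norm_mul, norm_pow, Complex.norm_real, Real.norm_eq_abs, abs_of_pos hS,
      div_le_iff₀ (by positivity)]
    refine (mul_le_mul k1 k2 (norm_nonneg _) (by positivity)).trans ?_
    have e1 : Sd N d ^ 2 * Real.exp (N * (bet - c1 * min |x| ρs ^ 2 + e / 4)) *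
        (Sd N d ^ 2 * Real.exp (N * (bet - c1 * min |x'| ρs ^ 2 + e / 4))) =
        Real.exp (N * (bet - c1 * min |x| ρs ^ 2 + e / 4) +
          N * (bet - c1 * min |x'| ρs ^ 2 + e / 4)) * Sd N d ^ 4 := by
      rw [Real.exp_add]
      ring
    rw [e1]
    apply mul_le_mul_of_nonneg_right _ (by positivity)
    apply Real.exp_le_exp.2
    have : 0 ≤ N * (c1 * min |x| ρs ^ 2) := by positivity
    linarith
  unfold kerL
  refine (norm_sum_le _ _).trans ?_
  refine (Finset.sum_le_sum (fun d hd => hterm d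
    ((Finset.mem_range.1 hd).trans_le (cut_le hε N)))).trans ?_
  rw [Finset.sum_const, Finset.card_range, nsmul_eq_mul]
  have k3 : (cut ε N : ℝ) ≤ N := by exact_mod_cast cut_le hε N
  have k4 : (cut ε N : ℝ) ≤ Real.exp (e / 2 * N) := by linarith
  refine (mul_le_mul_of_nonneg_right k4 (Real.exp_pos _).le).trans ?_
  rw [← Real.exp_add]
  apply Real.exp_le_exp.2
  linarith

lemma ker_split {ε : ℝ} (hε : ε < 1 / 4) (N : ℕ) (p φ : ℂ) :
    Pool.Agent.W711.HT.ker N φ p = kerL ε N p φ +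
      ∑ d ∈ Ico (cut ε N) N, Rp N d p / (Sd N d : ℂ) ^ 4 * Rp N d φ := by
  unfold Pool.Agent.W711.HT.ker kerL
  rw [Finset.range_eq_Ico, Finset.range_eq_Ico,
    ← Finset.sum_Ico_consecutive _ (Nat.zero_le _) (cut_le hε N)]
  congr 1
  · exact Finset.sum_congr rfl fun d _ => by ring
  · exact Finset.sum_congr rfl fun d _ => by ring

lemma kerL_diff2 (ε : ℝ) (N : ℕ) (p : ℂ) : Differentiable ℂ fun φ => kerL ε N p φ := by
  unfold kerL
  apply Differentiable.fun_sum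
  intro d _
  exact ((Rp_diff N d).const_mul _).div_const _

lemma kerL_even2 (ε : ℝ) (N : ℕ) (p φ : ℂ) : kerL ε N p (-φ) = kerL ε N p φ := by
  unfold kerL
  refine Finset.sum_congr rfl fun d _ => ?_
  rw [Rp_even]

lemma kerL_per2 (ε : ℝ) (N : ℕ) (p φ : ℂ) : kerL ε N p (φ + 2 * π) = kerL ε N p φ := by
  unfold kerL
  refine Finset.sum_congr rfl fun d _ => ?_
  rw [Rp_per]

/-- the remainder at a hub -/
theorem hub_rem (hR : S_REM) (hH : S_HALF) {ρs : ℝ} (hρs : 0 < ρs) (hB : BND ρs)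
    {η ε ρ' τ' κ x₀ δ ε₁ : ℝ} (hε : 0 < ε ∧ ε < 1 / 4) (hx₀ : 0 < x₀) (hx : x₀ < 2 * π * ε)
    (hδ : δ < c1 * min x₀ ρs ^ 2) {s' : ℂ → ℂ → ℂ} {e : ℝ} (he : 0 < e) :
    ∃ τe : ℝ, 0 < τe ∧ ∀ (j : ℕ) (P PL : ℕ → ℂ → ℂ) (f : ℂ) (Φ : ℂ → ℂ),
      HubZ η ε ρ' τ' κ x₀ δ ε₁ s' j P PL f Φ → ∀ᶠ N : ℕ in atTop, ∀ p : ℂ, |p.re| ≤ π →
        |p.im| ≤ τe →
        ‖upp (1 / N) fun φ => (P N φ * Pool.Agent.W711.HT.ker N φ p - PL N φ * kerL ε N p φ) *
          kr N φ‖ ≤ Real.exp (N * (f.re + j * (2 * bet - δ) + e)) := by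
  obtain ⟨τ1, hτ1, h1⟩ := kerL_cx (ε := ε) (e := e / 8) hB hε.2 (by positivity)
  obtain ⟨τ2, hτ2, h2⟩ := hH (e / 8) (by positivity)
  refine ⟨min τ1 τ2, lt_min hτ1 hτ2, ?_⟩
  intro j P PL f Φ H
  have hc1 : 0 < c1 := by unfold c1; positivity
  filter_upwards [h1, h2, H.rem (e / 8) (by positivity), H.out,
    hR ε (e / 8) x₀ hε.1 (by linarith [hε.2]) (by positivity) hx₀ hx, inv_ev hτ1,
    nat_exp_ev (show 0 < e / 8 by positivity) 1 1, eventually_gt_atTop 0] with N k1 k2 r1 o1 r2 i1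
    n1 hN p hp1 hp2
  have hN' : (0 : ℝ) < N := by exact_mod_cast hN
  have hp2a : |p.im| ≤ τ1 := hp2.trans (min_le_left _ _)
  have hp2b : |p.im| ≤ τ2 := hp2.trans (min_le_right _ _)
  have hpe : (p.re : ℂ) + p.im * Complex.I = p := Complex.re_add_im p
  obtain ⟨G, hG⟩ : ∃ G : ℝ, G = f.re + j * (2 * bet - δ) := ⟨_, rfl⟩
  rw [← hG]
  -- decomposition
  have e1 : (upp (1 / N) fun φ => (P N φ * Pool.Agent.W711.HT.ker N φ p -
      PL N φ * kerL ε N p φ) * kr N φ) =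
      (upp (1 / N) fun φ => (P N φ - PL N φ) * kerL ε N p φ * kr N φ) +
        ∑ d ∈ Ico (cut ε N) N, Rp N d p / (Sd N d : ℂ) ^ 4 *
          upp (1 / N) fun φ => P N φ * Rp N d φ * kr N φ := by
    have q1 : ∀ d, IntP (1 / N) (fun φ => Rp N d p / (Sd N d : ℂ) ^ 4 *
        (P N φ * Rp N d φ * kr N φ)) := fun d =>
      (IntP_kr (g := fun φ => P N φ * Rp N d φ) hN ((H.an N).mul
        (Rp_diff N d)).continuous).const_mul _
    have q2 := Pool.Agent.W346.HT.upp_sum (Ico (cut ε N) N) (1 / (N : ℝ)) (fun d φ =>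
      Rp N d p / (Sd N d : ℂ) ^ 4 * (P N φ * Rp N d φ * kr N φ)) (fun d _ => q1 d)
    have q3 : ∀ d, upp (1 / N) (fun φ => Rp N d p / (Sd N d : ℂ) ^ 4 *
        (P N φ * Rp N d φ * kr N φ)) = Rp N d p / (Sd N d : ℂ) ^ 4 *
          upp (1 / N) fun φ => P N φ * Rp N d φ * kr N φ := fun d =>
      upp_const_mul _ _ _
    simp only [q3] at q2
    rw [← q2]
    have q4 : IntP (1 / N) (fun φ => ∑ d ∈ Ico (cut ε N) N, Rp N d p / (Sd N d : ℂ) ^ 4 *
        (P N φ * Rp N d φ * kr N φ)) := by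
      have : (fun φ => ∑ d ∈ Ico (cut ε N) N, Rp N d p / (Sd N d : ℂ) ^ 4 *
        (P N φ * Rp N d φ * kr N φ)) = fun φ =>
          (∑ d ∈ Ico (cut ε N) N, Rp N d p / (Sd N d : ℂ) ^ 4 * (P N φ * Rp N d φ)) *
            kr N φ := by
        funext φ
        rw [Finset.sum_mul]
        refine Finset.sum_congr rfl fun d _ => ?_
        ring
      rw [this]
      refine IntP_kr (g := fun φ => ∑ d ∈ Ico (cut ε N) N, Rp N d p / (Sd N d : ℂ) ^ 4 *
        (P N φ * Rp N d φ)) hN ?_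
      refine continuous_finsetSum _ fun d _ => ?_
      exact continuous_const.mul ((H.an N).mul (Rp_diff N d)).continuous
    have q5 : IntP (1 / N) (fun φ => (P N φ - PL N φ) * kerL ε N p φ * kr N φ) :=
      IntP_kr (g := fun φ => (P N φ - PL N φ) * kerL ε N p φ) hN
        (((H.an N).sub (H.anL N)).mul (kerL_diff2 ε N p)).continuous
    rw [← upp_add q5 q4]
    congr 1
    funext φ
    have q6 : ∑ d ∈ Ico (cut ε N) N, Rp N d p / (Sd N d : ℂ) ^ 4 *
        (P N φ * Rp N d φ * kr N φ) = (P N φ * kr N φ) *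
          ∑ d ∈ Ico (cut ε N) N, Rp N d p / (Sd N d : ℂ) ^ 4 * Rp N d φ := by
      rw [Finset.mul_sum]
      refine Finset.sum_congr rfl fun d _ => ?_
      ring
    rw [q6, ker_split hε.2 N p φ]
    ring
  rw [e1]
  -- the first part
  have b1 : ‖upp (1 / N) fun φ => (P N φ - PL N φ) * kerL ε N p φ * kr N φ‖ ≤
      Real.exp (N * (G + 3 / 4 * e)) := by
    have q1 := r1 (fun φ => kerL ε N p φ) (Real.exp (N * (2 * bet - δ + e / 8)))
      (kerL_diff2 ε N p) (fun z => kerL_even2 ε N p z) (fun z => kerL_per2 ε N p z)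
      (Real.exp_pos _).le (by
        intro x y hx1 hx2 hy1 hy2
        have q2 := k1 p.re p.im x y hp1 hp2a hx2 (by rw [abs_of_nonneg hy1]; exact hy2.trans i1.le)
        rw [hpe] at q2
        refine q2.trans (Real.exp_le_exp.2 ?_)
        apply mul_le_mul_of_nonneg_left _ hN'.le
        have h5 : min x₀ ρs ≤ min |x| ρs := min_le_min_right _ hx1
        have h6 : 0 ≤ min x₀ ρs := (lt_min hx₀ hρs).le
        have h7 : min x₀ ρs ^ 2 ≤ min |x| ρs ^ 2 := pow_le_pow_left₀ h6 h5 2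
        have := mul_le_mul_of_nonneg_left h7 hc1.le
        linarith)
    refine q1.trans ?_
    rw [← Real.exp_add]
    apply Real.exp_le_exp.2
    rw [hG, ← mul_add]
    apply mul_le_mul_of_nonneg_left _ hN'.le
    linarith
  -- the second part
  have b2 : ‖∑ d ∈ Ico (cut ε N) N, Rp N d p / (Sd N d : ℂ) ^ 4 *
      upp (1 / N) fun φ => P N φ * Rp N d φ * kr N φ‖ ≤
      Real.exp (N * (G + 3 / 4 * e)) := by
    have q1 : ∀ d ∈ Ico (cut ε N) N, ‖Rp N d p / (Sd N d : ℂ) ^ 4 *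
        upp (1 / N) fun φ => P N φ * Rp N d φ * kr N φ‖ ≤
        Real.exp (N * (G + e / 4)) := by
      intro d hd
      obtain ⟨hd1, hd2⟩ := Finset.mem_Ico.1 hd
      have hS := Pool.Agent.W469.HT.Mwk.Sd_pos hd2
      have hd3 : (N : ℝ) / 2 ≤ d := by
        have z1 := cut_lb N d hd1
        have z2 : 0 ≤ ε * (N : ℝ) := mul_nonneg hε.1.le hN'.le
        linarith
      have q2 := k2 d hd3 hd2 p.re p.im hp1 hp2b
      rw [hpe] at q2
      have q3 := r2 d hd1 hd2 (P N) (Real.exp (N * (f.re + j * (2 * bet - δ)))) (H.an N)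
        (H.ev N) (H.per N) (by
          intro x y hx1 hx2 hy1 hy2
          exact (o1 x y hx1 hx2 (by rw [abs_of_nonneg hy1]; exact hy2)).1)
      rw [norm_mul, norm_div, norm_pow, Complex.norm_real, Real.norm_eq_abs, abs_of_pos hS]
      have q4 : ‖Rp N d p‖ / Sd N d ^ 4 ≤ Sd N d ^ 2 * Real.exp (e / 8 * N) / Sd N d ^ 4 :=
        div_le_div_of_nonneg_right q2 (by positivity)
      refine (mul_le_mul q4 q3 (norm_nonneg _) (by positivity)).trans ?_
      apply le_of_eq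
      have q5 : Real.exp (N * (G + e / 4)) = Real.exp (e / 8 * N) *
          (Real.exp (N * (f.re + j * (2 * bet - δ))) * Real.exp (e / 8 * N)) := by
        rw [← Real.exp_add, ← Real.exp_add, hG]
        congr 1
        ring
      rw [q5]
      field_simp
    refine (norm_sum_le _ _).trans ((Finset.sum_le_sum q1).trans ?_)
    rw [Finset.sum_const, Nat.card_Ico, nsmul_eq_mul]
    have q2 : ((N - cut ε N : ℕ) : ℝ) ≤ N := by exact_mod_cast Nat.sub_le _ _
    have q3 : ((N - cut ε N : ℕ) : ℝ) ≤ Real.exp (e / 8 * N) := by linarith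
    refine (mul_le_mul_of_nonneg_right q3 (Real.exp_pos _).le).trans ?_
    rw [← Real.exp_add]
    apply Real.exp_le_exp.2
    have q4 : 0 < e * N := by positivity
    linarith
  refine (norm_add_le _ _).trans ((add_le_add b1 b2).trans ?_)
  have q1 : Real.exp (N * (G + e)) = Real.exp (e / 4 * N) *
      Real.exp (N * (G + 3 / 4 * e)) := by
    rw [← Real.exp_add]
    congr 1
    ring
  rw [q1]
  have q2 : (2 : ℝ) ≤ Real.exp (e / 4 * N) := by
    have z1 : (1 : ℝ) ≤ N := by exact_mod_cast hN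
    have z2 : Real.exp (e / 8 * N) ≤ Real.exp (e / 4 * N) := by
      apply Real.exp_le_exp.2
      have : 0 < e * N := by positivity
      linarith
    linarith
  have q3 : 0 ≤ Real.exp (N * (G + 3 / 4 * e)) := (Real.exp_pos _).le
  nlinarith

end Pool.Agent.TH563.V
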