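import Pool.Agent.TH563.V.Ind

/-!
# Several hubs: the constants of a small hub
-/

set_option autoImplicit false
set_option maxHeartbeats 1000000

namespace Pool.Agent.TH563.V

open Finset Filter Topology Metric
open Pool.Agent.W711.HT hiding XX
open Pool.Agent.TH563.UV
open Pool.Agent.TH563.Z hiding gd
open Pool.Agent.W85.HT hiding Rc_mono Rp_diff
open Pool.Agent.W293.HT
open Pool.Agent.W719.AX (UX GX KXD cv)
open scoped Real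

/-- the constants of a small hub -/
structure HP where
  (ε ρ' τ' κ x₀ δ ε₁ ρ₃ τ₃ : ℝ)

/-- products at a small hub -/
def HubQ (k : ℕ) (h : HP) (Sk : ℂ → ℂ → ℂ) (j : ℕ) (P PL : ℕ → ℂ → ℂ) (f : ℂ) (Φ : ℂ → ℂ) :
    Prop := HubZ (et k) h.ε h.ρ' h.τ' h.κ h.x₀ h.δ h.ε₁ Sk j P PL f Φ

/-- the step at a small hub -/
def HStep (k : ℕ) (h : HP) (Sk : ℂ → ℂ → ℂ) (g a₀ b₀ κ₁ c₁ C₁ ρ₂ τ₂ : ℝ) : Prop :=
  ∀ (P PL : ℕ → ℂ → ℂ) (f : ℂ) (Φ : ℂ → ℂ) (m' : ℕ) (A : ℕ → ℂ → ℂ),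
    HubQ k h Sk (k - 1) P PL f Φ → 0 ≤ f.re → GXZ (et k) h.ρ₃ h.τ₃ m' PL Φ A →
    ∃ (F zs : ℂ → ℂ) (A' : ℕ → ℂ → ℂ), GoodV a₀ b₀ κ₁ c₁ C₁ 1 (stp 0 P) F ∧
      GX ρ₂ τ₂ (m' + 1) (stp 0 P) F A' ∧
      ∀ ψ ∈ Rc (3 * a₀) (3 * b₀), ‖zs ψ - et k * Complex.I‖ ≤ g ∧
        zs ψ ∈ Rz (et k) (3 * h.ρ') (3 * h.τ') ∧
        deriv (qz fun w => Φ w + Sk ψ w) (zs ψ) = 0 ∧
        F ψ = qz (fun w => Φ w + Sk ψ w) (zs ψ) ∧
        HasDerivAt F (deriv (fun w => Sk w (zs ψ)) ψ) ψ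

/-- the last step at a small hub -/
def HRoot (k : ℕ) (h : HP) (Sk : ℂ → ℂ → ℂ) (g : ℝ) : Prop :=
  ∀ (P PL : ℕ → ℂ → ℂ) (f : ℂ) (Φ : ℂ → ℂ) (m' : ℕ) (A : ℕ → ℂ → ℂ),
    HubQ k h Sk k P PL f Φ → GXZ (et k) h.ρ₃ h.τ₃ m' PL Φ A →
    ∃ (z : ℂ) (y : ℕ → ℂ), ‖z - et k * Complex.I‖ ≤ g ∧ z ∈ Rz (et k) (3 * h.ρ') (3 * h.τ') ∧
      deriv (qz Φ) z = 0 ∧ y 0 ≠ 0 ∧ UX (fun N (_ : Unit) => (N : ℂ) ^ (2 * m') *
        (Real.sqrt N : ℂ) * (-1) ^ (N * (m' + 1)) * Complex.exp (-(N * qz Φ z)) *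
        upp (1 / N) fun φ => P N φ * kr N φ) (fun k _ => y k) Set.univ

/-- all that is needed about a small hub -/
structure HPk (k : ℕ) (h : HP) (Sk dlk : ℂ → ℂ → ℂ) (g ρs ρ τ c' ρb τb : ℝ)
    (Az : ℕ → ℂ × ℂ → ℂ) : Prop where
  kdz : KDZ (et k) h.ε ρ τ h.ρ' h.τ' h.κ c' Sk dlk
  kxz : KXZ (et k) h.ε ρb τb h.ρ₃ h.τ₃ Sk Az
  h3 : h.ρ₃ ≤ h.ρ'
  h4 : h.τ₃ ≤ h.τ'
  x₀ : 0 < h.x₀
  x₀' : h.x₀ < 2 * π * h.ε
  δ : h.δ < c1 * min h.x₀ ρs ^ 2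
  ε₁ : 0 < h.ε₁
  step : ∃ aM cM CM : ℝ, 0 < aM ∧ 0 < cM ∧ 0 < CM ∧ ∀ a₀ b₀ : ℝ, 0 < a₀ → a₀ ≤ aM →
    0 < b₀ → b₀ ≤ aM → b₀ ≤ a₀ → ∃ κM : ℝ, 0 < κM ∧ ∀ κ₁ c₁ C₁ ρ₂ τ₂ : ℝ, κ₁ ≤ κM → c₁ ≤ cM →
    CM ≤ C₁ → ρ₂ ≤ a₀ → τ₂ ≤ b₀ → HStep k h Sk g a₀ b₀ κ₁ c₁ C₁ ρ₂ τ₂
  root : HRoot k h Sk g

theorem hub_pkg (hHC : S_HC) (hHX : S_HX) (hR : S_REM) (hH : S_HALF) {ρs : ℝ} (hρs : 0 < ρs)
    (hbnd : BND ρs) {k : ℕ} (hk : 3 ≤ k) (hgd : Z.gd (et k / 2) = π / k)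
    (hineq : (k - 1 : ℝ) * (2 * bet) ≤ k * AA (et k) - et k) {ε ρ τ ρ' τ' κ c' : ℝ}
    {Sk dlk : ℂ → ℂ → ℂ} (hZ : KDZ (et k) ε ρ τ ρ' τ' κ c' Sk dlk) (hFG : FG2 (et k) ε ρ' τ' κ)
    {ρb τb ρ₃ τ₃ : ℝ} {Az : ℕ → ℂ × ℂ → ℂ} (hAz : KXZ (et k) ε ρb τb ρ₃ τ₃ Sk Az)
    (h3 : ρ₃ ≤ ρ') (h4 : τ₃ ≤ τ') {g : ℝ} (hg : 0 < g) :
    ∃ h : HP, HPk k h Sk dlk g ρs ρ τ c' ρb τb Az := by
  have hπ := Real.pi_pos
  have hbet := Pool.Agent.TH563.Z.J365.bet_pos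
  obtain ⟨r, C', hS, hr1, hr2⟩ := hZ.sdz
  have hκ := hZ.hκ.1
  have hc' := hZ.hc
  have hC' := hS.hC
  have hε := hZ.hε
  have hρ := hZ.hρ.1
  have hρ1 := hZ.hρ.2
  have hτ := hZ.hτ.1
  have hτρ := hZ.hτ.2
  have hρ' := hZ.hρ'.1
  have hρ'1 := hZ.hρ'.2
  have hρ30 := hAz.hρ'
  have hτ30 := hAz.hτ'
  have hρb0 := hAz.hρ
  have hτb0 := hAz.hτ
  obtain ⟨hτ', hτρ', hτη⟩ := hZ.hτ'
  obtain ⟨j, hj⟩ : ∃ j : ℕ, k = j + 1 := ⟨k - 1, by omega⟩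
  have hj1 : 1 ≤ j := by omega
  have hj2 : 2 ≤ j := by omega
  have hkj : (k : ℝ) = (j : ℝ) + 1 := by rw [hj]; push_cast; ring
  have hk3 : (3 : ℝ) ≤ k := by exact_mod_cast hk
  have hk0 : (0 : ℝ) < k := by linarith
  have hj0 : (0 : ℝ) ≤ j := Nat.cast_nonneg j
  have hineq' : (j : ℝ) * (2 * bet) ≤ (j + 1) * AA (et k) - et k := by
    rw [hkj] at hineq
    have e1 : (j : ℝ) + 1 - 1 = j := by ring
    rwa [e1] at hineq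
  -- the sizes
  obtain ⟨x₀, hx₀⟩ : ∃ x₀ : ℝ, x₀ = π * ε := ⟨_, rfl⟩
  have hx₀0 : 0 < x₀ := by rw [hx₀]; exact mul_pos hπ hε.1
  have hx₀1 : x₀ < 2 * π * ε := by
    rw [hx₀]
    have := mul_pos hπ hε.1
    linarith
  have hc1 : 0 < c1 := by unfold c1; positivity
  obtain ⟨δ, hδ⟩ : ∃ δ : ℝ, δ = c1 * min x₀ ρs ^ 2 / 2 := ⟨_, rfl⟩
  have hm0 : 0 < c1 * min x₀ ρs ^ 2 := by
    have := lt_min hx₀0 hρs
    positivity
  have hδ0 : 0 < δ := by rw [hδ]; linarith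
  have hδ1 : δ < c1 * min x₀ ρs ^ 2 := by rw [hδ]; linarith
  obtain ⟨m, hm⟩ : ∃ m : ℝ, m = min (δ / 4) (min (κ / 8) (bet / 4)) := ⟨_, rfl⟩
  have hm0 : 0 < m := by
    rw [hm]; exact lt_min (by positivity) (lt_min (by positivity) (by positivity))
  have hm1 : m ≤ δ / 4 := by rw [hm]; exact min_le_left _ _
  have hm2 : m ≤ κ / 8 := by rw [hm]; exact (min_le_right _ _).trans (min_le_left _ _)
  have hm3 : m ≤ bet / 4 := by rw [hm]; exact (min_le_right _ _).trans (min_le_right _ _)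
  obtain ⟨r₁, hr₁0, hr₁a, hr₁b, hr₁d, hr₁e, hr₁f⟩ : ∃ r₁ : ℝ, 0 < r₁ ∧ r₁ < τ' ∧ r₁ ≤ g ∧
      r₁ < ρ₃ ∧ r₁ < τ₃ ∧ r₁ ≤ m / (k * C' + 1) := by
    refine ⟨min (τ' / 2) (min g (min (ρ₃ / 2) (min (τ₃ / 2) (m / (k * C' + 1))))), ?_, ?_, ?_, ?_,
      ?_, ?_⟩
    · exact lt_min (by positivity) (lt_min hg (lt_min (by positivity) (lt_min (by positivity)
        (by positivity))))
    · exact (min_le_left _ _).trans_lt (by linarith)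
    · exact (min_le_right _ _).trans (min_le_left _ _)
    · exact ((min_le_right _ _).trans ((min_le_right _ _).trans (min_le_left _ _))).trans_lt
        (by linarith)
    · exact ((min_le_right _ _).trans ((min_le_right _ _).trans ((min_le_right _ _).trans
        (min_le_left _ _)))).trans_lt (by linarith)
    · exact (min_le_right _ _).trans ((min_le_right _ _).trans ((min_le_right _ _).trans
        (min_le_right _ _)))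
  have hr₁c : k * C' * r₁ + r₁ ≤ m := by
    rw [le_div_iff₀ (by positivity)] at hr₁f
    linarith
  have hr₁c' : ((j : ℝ) + 1) * C' * r₁ + r₁ ≤ m := by rw [← hkj]; exact hr₁c
  have hr₁m : r₁ ≤ m := by
    have e3 : 0 ≤ k * C' * r₁ := by positivity
    linarith only [e3, hr₁c]
  obtain ⟨ε₂, r₂, C₁, hε₂, hr₂0, hr₂, hC₁, hcrit⟩ := hHC (et k) r c' C' Sk dlk hS ρ' τ' hτ' hτρ' hr2
    j hj1 (by rw [hgd, hj]) r₁ hr₁0 hr₁a
  obtain ⟨ε₁, hε₁0, hε₁z, hε₁b, hε₁c, hε₁d⟩ : ∃ ε₁ : ℝ, 0 < ε₁ ∧ ε₁ ≤ ε₂ ∧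
      ε₁ ≤ c' * τ' ^ 2 / 16 ∧ ε₁ ≤ c' * r₁ * τ' / 16 ∧ ε₁ ≤ m / k := by
    refine ⟨min ε₂ (min (c' * τ' ^ 2 / 16) (min (c' * r₁ * τ' / 16) (m / k))), ?_, ?_, ?_, ?_, ?_⟩
    · exact lt_min hε₂ (lt_min (by positivity) (lt_min (by positivity) (by positivity)))
    · exact min_le_left _ _
    · exact (min_le_right _ _).trans (min_le_left _ _)
    · exact (min_le_right _ _).trans ((min_le_right _ _).trans (min_le_left _ _))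
    · exact (min_le_right _ _).trans ((min_le_right _ _).trans (min_le_right _ _))
  have hε₁e : k * ε₁ ≤ m := by
    rw [le_div_iff₀ hk0] at hε₁d
    linarith
  have hε₁j : j * ε₁ ≤ m := by
    have : (j : ℝ) * ε₁ ≤ k * ε₁ := mul_le_mul_of_nonneg_right (by linarith) hε₁0.le
    linarith
  refine ⟨⟨ε, ρ', τ', κ, x₀, δ, ε₁, ρ₃, τ₃⟩, hZ, hAz, h3, h4, hx₀0, hx₀1, hδ1, hε₁0, ?_, ?_⟩
  · -- the step
    obtain ⟨τ1, hτ1, hrem⟩ := hub_rem (η := et k) (ρ' := ρ') (τ' := τ') (κ := κ) (ε₁ := ε₁) hR hH hρs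
      hbnd hε hx₀0 hx₀1 hδ1 (s' := Sk) (e := δ / 4) (by positivity)
    obtain ⟨τ2, hτ2, hfar⟩ := hub_far (x₀ := x₀) (δ := δ) (ε₁ := ε₁) (s' := Sk) hFG
    obtain ⟨Ce, hE⟩ := ed_z hZ
    obtain ⟨aM, haM0, haM1, haM2, haM3, haM4, haM5, haM6, haM7, haM8⟩ : ∃ aM : ℝ, 0 < aM ∧
        aM ≤ r₂ / 4 ∧ aM ≤ ρ ∧ aM ≤ τ ∧ aM ≤ τ1 / 3 ∧ aM ≤ τ2 / 3 ∧ aM ≤ m / (6 * C') ∧ aM ≤ ρb ∧
        aM ≤ τb := by
      refine ⟨min (min (min (r₂ / 4) ρ) (min τ (τ1 / 3))) (min (min (τ2 / 3) (m / (6 * C')))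
        (min ρb τb)), ?_, ?_, ?_, ?_, ?_, ?_, ?_, ?_, ?_⟩
      · exact lt_min (lt_min (lt_min (by positivity) hρ) (lt_min hτ (by positivity)))
          (lt_min (lt_min (by positivity) (by positivity)) (lt_min hρb0 hτb0))
      · exact (min_le_left _ _).trans ((min_le_left _ _).trans (min_le_left _ _))
      · exact (min_le_left _ _).trans ((min_le_left _ _).trans (min_le_right _ _))
      · exact (min_le_left _ _).trans ((min_le_right _ _).trans (min_le_left _ _))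
      · exact (min_le_left _ _).trans ((min_le_right _ _).trans (min_le_right _ _))
      · exact (min_le_right _ _).trans ((min_le_left _ _).trans (min_le_left _ _))
      · exact (min_le_right _ _).trans ((min_le_left _ _).trans (min_le_right _ _))
      · exact (min_le_right _ _).trans ((min_le_right _ _).trans (min_le_left _ _))
      · exact (min_le_right _ _).trans ((min_le_right _ _).trans (min_le_right _ _))
    refine ⟨aM, c' / 2, C₁, haM0, by positivity, hC₁, ?_⟩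
    intro a₀ b₀ ha0 haM hb0 hbM hba
    obtain ⟨κe, hκe0, hκe1, hκe2, hκe3⟩ : ∃ κe : ℝ, 0 < κe ∧ κe ≤ κ ∧ κe < c' / 2 * a₀ ^ 2 ∧
        κe ≤ δ := by
      refine ⟨min κ (min (c' / 4 * a₀ ^ 2) δ), lt_min hκ (lt_min (by positivity) hδ0),
        min_le_left _ _, ?_, (min_le_right _ _).trans (min_le_right _ _)⟩
      refine ((min_le_right _ _).trans (min_le_left _ _)).trans_lt ?_
      have : 0 < c' * a₀ ^ 2 := by positivity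
      linarith
    have hE2 := ed_restrict hE ha0 (haM.trans haM2) hb0 (hbM.trans haM3) hba hκe0 hκe1 hκe2
    refine ⟨κe, hκe0, ?_⟩
    intro κ₁ c₁ C₁' ρ₂ τ₂ g1 g2 g3 g4 g5 P PL f Φ m' A hH1 hf hA
    have hkj' : k - 1 = j := by omega
    rw [hkj'] at hH1
    have hH1' : HubZ (et k) ε ρ' τ' κ x₀ δ ε₁ Sk j P PL f Φ := hH1
    obtain ⟨F, zs, q1, q2, q3, q4, q5⟩ := hcrit f Φ hH1'.Fan (fun φ hφ => (hH1'.Fcl φ hφ).trans
      (mul_le_mul_of_nonneg_left hε₁z hj0))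
    have hHC : HCR (et k) ρ' τ' r₁ r₂ c' C₁ Sk Φ F zs :=
      ⟨q1, q2, q3, q4, fun ψ hψ => ⟨(q5 ψ hψ).1, (q5 ψ hψ).2.1⟩, fun ψ hψ => (q5 ψ hψ).2.2.1,
        fun ψ hψ => (q5 ψ hψ).2.2.2.1, fun ψ hψ => (q5 ψ hψ).2.2.2.2.1,
        fun ψ hψ => (q5 ψ hψ).2.2.2.2.2.1, fun ψ hψ => (q5 ψ hψ).2.2.2.2.2.2⟩
    have hfar' : ∀ᶠ N : ℕ in atTop, ∀ p : ℂ, |p.re| ≤ π → |p.im| ≤ min τ1 τ2 → ∀ x y : ℝ,
        ρ' ≤ |x| → |x| ≤ π → |y - et k| ≤ 3 * τ' →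
        ‖PL N (x + y * Complex.I) * kerL ε N p (x + y * Complex.I)‖ ≤
          Real.exp (N * (f.re + (j + 1) * AA (et k) - j * (κ / 2) - κ)) := by
      filter_upwards [hfar j P PL f Φ hH1'] with N h1 p hp1 hp2
      exact h1 p hp1 (hp2.trans (min_le_right _ _))
    have hrem' : ∀ᶠ N : ℕ in atTop, ∀ p : ℂ, |p.re| ≤ π → |p.im| ≤ min τ1 τ2 →
        ‖upp (1 / N) fun φ => (P N φ * Pool.Agent.W711.HT.ker N φ p - PL N φ * kerL ε N p φ) *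
          kr N φ‖ ≤ Real.exp (N * (f.re + j * (2 * bet - δ) + δ / 4)) := by
      filter_upwards [hrem j P PL f Φ hH1'] with N h1 p hp1 hp2
      exact h1 p hp1 (hp2.trans (min_le_left _ _))
    have ha14 : a₀ ≤ 1 / 4 := (haM.trans haM2).trans hρ1
    have hmab : C' * (3 * (a₀ + b₀)) ≤ m := by
      have e1 : a₀ ≤ m / (6 * C') := haM.trans haM6
      have e2 : b₀ ≤ m / (6 * C') := hbM.trans haM6
      rw [le_div_iff₀ (by positivity)] at e1 e2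
      linarith
    have hbe : 3 * b₀ ≤ min τ1 τ2 := by
      refine le_min ?_ ?_
      · have := hbM.trans haM4
        linarith
      · have := hbM.trans haM5
        linarith
    have hgv := hub_gv hZ hS hr2 hj2 hH1' hHC hr₂ hineq' hε₁j hr₁c' hm1 hm2 hm3 hf hδ0 ha0 hb0 hba
      (by have := haM.trans haM1; linarith) (haM.trans haM2) (hbM.trans haM3) hbe ha14 hmab
      (lt_min hτ1 hτ2) hE2.far hfar' hrem' (κ₂ := κe) (by linarith) (by linarith) (by linarith)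
    have hKm : ∀ p ∈ Kc (2 * a₀) (2 * b₀), |p.re| ≤ π ∧ |p.im| ≤ min τ1 τ2 := by
      intro p hp
      have hπ3 := Real.pi_gt_three
      rw [Kc_mem] at hp
      exact ⟨by linarith [hp.1], by linarith [hp.2]⟩
    have haM1' := haM.trans haM1
    have hbM1' := hbM.trans haM1
    have haM2' := haM.trans haM2
    have hbM3' := hbM.trans haM3
    obtain ⟨A', hA'⟩ := hub_gx hHX hZ hS hr2 hj2 hH1' hHC hr₂ hineq' hε₁j hr₁c' hm1 hm2 hδ0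
      (a := 2 * a₀) (b := 2 * b₀) (by positivity) (by positivity) (by linarith) (by linarith)
      (by linarith) (by linarith) (by
        refine le_trans ?_ hmab
        apply mul_le_mul_of_nonneg_left _ hC'.le
        linarith) (by
        filter_upwards [hfar'] with N h1 p hp
        exact h1 p (hKm p hp).1 (hKm p hp).2) (by
        filter_upwards [hrem'] with N h1 p hp
        exact h1 p (hKm p hp).1 (hKm p hp).2) hAz hA (ρ₂ := ρ₂) (τ₂ := τ₂) (by linarith)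
      (by linarith) (g4.trans (haM.trans haM7)) (g5.trans (hbM.trans haM8)) hr₁d hr₁e
    refine ⟨F, zs, A', gv_mono hgv g1 g2 g3, hA', ?_⟩
    intro ψ hψ
    have hψ2 : ψ ∈ Rc r₂ r₂ := Rc_mono (by linarith) (by linarith) hψ
    obtain ⟨n1, n2⟩ := hHC.near ψ hψ2
    exact ⟨n1.trans hr₁b, Rz_mono (by linarith) (by linarith) n2, hHC.crit ψ hψ2, hHC.val ψ hψ2,
      hHC.der ψ hψ2⟩
  · -- the last step
    intro P PL f Φ m' A hH1 hA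
    have hH1' : HubZ (et k) ε ρ' τ' κ x₀ δ ε₁ Sk k P PL f Φ := hH1
    obtain ⟨z, hz1, hz2, hz3, hz4, hz5⟩ := crit_z hS hτ' hτρ' hr2 (by omega : 1 ≤ k) hgd hr₁0
      hr₁a hε₁b hε₁c hH1'.Fan hH1'.Fcl
    have hρ3 : ρ' ≤ 3 * ρ' := by linarith only [hρ']
    have hτ3 : τ' ≤ 3 * τ' := by linarith only [hτ']
    have hτρ3 : 3 * τ' ≤ 3 * ρ' := by linarith only [hτρ']
    have hzm : z ∈ Rz (et k) (3 * ρ') (3 * τ') := Rz_mono hρ3 hτ3 hz2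
    have hzr : z ∈ Rz (et k) r r := Rz_mono hr2 (hτρ3.trans hr2) hzm
    obtain ⟨hlow, hVlow⟩ := hub_low hS hineq hz1 hzr (hH1'.Fcl z hzm) hε₁e hr₁0 hr₁c
    have hz3' : z ∈ Rz (et k) ρ₃ τ₃ := by
      have h1 := (Complex.abs_re_le_norm _).trans hz1
      have h2 := (Complex.abs_im_le_norm _).trans hz1
      have a1 : (z - et k * Complex.I).re = z.re := by simp
      have a2 : (z - et k * Complex.I).im = z.im - et k := by simp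
      rw [a1] at h1
      rw [a2] at h2
      exact ⟨h1.trans_lt hr₁d, h2.trans_lt hr₁e⟩
    obtain ⟨y, hy0, hux⟩ := hub_ux hH1' hk3 hA hρ' hρ'1 hτ' hτη hκ hδ0 hz2 hz3 hz4 hz5 hz3' hm1
      hm2 hr₁m hlow hVlow
    exact ⟨z, y, hz1.trans hr₁b, hzm, hz3, hy0, hux⟩

end Pool.Agent.TH563.V
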