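import Pool.Agent.TH563.V.HubA
import Pool.Agent.TH563.Z.MainX

/-!
# Several hubs: the step at a small hub, growth rate
-/

set_option autoImplicit false
set_option maxHeartbeats 1000000

namespace Pool.Agent.TH563.V

open Finset Filter Topology Metric
open Pool.Agent.W711.HT hiding XX
open Pool.Agent.TH563.UV
open Pool.Agent.TH563.Z hiding gd
open Pool.Agent.W85.HT hiding Rc_mono Rp_diff
open Pool.Agent.W293.HT
open Pool.Agent.W346.HT (IntP IntP_kr upp_const_mul)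
open Pool.Agent.TH929.J29 (nat_exp_ev)
open scoped Real

/-- the conclusion of `S_HC` -/
structure HCR (η ρ τ r₁ r₂ c' C₁ : ℝ) (s' : ℂ → ℂ → ℂ) (Φ F zs : ℂ → ℂ) : Prop where
  Fd : DifferentiableOn ℂ F (Rc r₂ r₂)
  zd : DifferentiableOn ℂ zs (Rc r₂ r₂)
  ev : ∀ ψ ∈ Rc r₂ r₂, F (-ψ) = F ψ
  dd : ∀ ψ ∈ Rc r₂ r₂, (deriv (deriv F) ψ).re ≤ -(c' / 2) ∧ ‖deriv (deriv F) ψ‖ ≤ C₁
  near : ∀ ψ ∈ Rc r₂ r₂, ‖zs ψ - η * Complex.I‖ ≤ r₁ ∧ zs ψ ∈ Rz η ρ τ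
  crit : ∀ ψ ∈ Rc r₂ r₂, deriv (qz fun w => Φ w + s' ψ w) (zs ψ) = 0
  neg : ∀ ψ ∈ Rc r₂ r₂, (deriv (deriv (qz fun w => Φ w + s' ψ w)) (zs ψ)).re < 0
  line : ∀ ψ ∈ Rc r₂ r₂, ∀ x : ℝ, |x| ≤ ρ → x ≠ (zs ψ).re →
    (qz (fun w => Φ w + s' ψ w) (x + (zs ψ).im * Complex.I)).re <
      (qz (fun w => Φ w + s' ψ w) (zs ψ)).re
  val : ∀ ψ ∈ Rc r₂ r₂, F ψ = qz (fun w => Φ w + s' ψ w) (zs ψ)
  der : ∀ ψ ∈ Rc r₂ r₂, HasDerivAt F (deriv (fun w => s' w (zs ψ)) ψ) ψ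

lemma qz_re (Φ : ℂ → ℂ) (z : ℂ) : (qz Φ z).re + z.im = (Φ z).re := by
  unfold qz
  rw [Complex.add_re]
  simp

section

variable {η ε ρ τ ρ' τ' κ c' C' r x₀ δ ε₁ m r₁ r₂ C₁ : ℝ} {s' dl' : ℂ → ℂ → ℂ} {j : ℕ}
  {P PL : ℕ → ℂ → ℂ} {f : ℂ} {Φ F zs : ℂ → ℂ}

/-- lower bounds of the values at the critical points -/
lemma hub_val (hS : SDZ η r c' C' s' dl') (H : HCR η ρ' τ' r₁ r₂ c' C₁ s' Φ F zs)
    (hρ' : 0 < ρ') (hτ' : 0 < τ') (hτρ : τ' ≤ ρ') (h3 : 3 * ρ' ≤ r) (hr₂ : r₂ ≤ r)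
    (hcl : ∀ φ ∈ Rz η (3 * ρ') (3 * τ'), ‖Φ φ - f - j * s' 0 φ‖ ≤ j * ε₁)
    (hineq : (j : ℝ) * (2 * bet) ≤ (j + 1) * AA η - η) (hε₁ : j * ε₁ ≤ m)
    (hr₁ : (j + 1) * C' * r₁ + r₁ ≤ m) {p : ℂ} (hp : p ∈ Rc r₂ r₂) (hpm : C' * ‖p‖ ≤ m) :
    f.re + (j + 1) * AA η - 3 * m ≤ (F p).re + (zs p).im ∧
      f.re + j * (2 * bet) - 3 * m ≤ (F p).re := by
  have hC' := hS.hC
  have hj : (0 : ℝ) ≤ j := Nat.cast_nonneg j
  have h00 : (0 : ℂ) ∈ Rc r r := zero_mem_Rc hS.hr.1 hS.hr.1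
  obtain ⟨hz1, hz2⟩ := H.near p hp
  have hz3 : zs p ∈ Rz η (3 * ρ') (3 * τ') := Rz_mono (by linarith) (by linarith) hz2
  have hzr : zs p ∈ Rz η r r := Rz_mono h3 (by linarith) hz3
  have hpr : p ∈ Rc r r := Rc_mono hr₂ hr₂ hp
  have e0 := qz_re (fun w => Φ w + s' p w) (zs p)
  rw [← H.val p hp] at e0
  simp only [Complex.add_re] at e0
  have e1 := (Complex.abs_re_le_norm _).trans (hcl _ hz3)
  have e2 := (Complex.abs_re_le_norm _).trans (hS.lip 0 h00 _ hzr)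
  have e2' := (Complex.abs_re_le_norm _).trans (hS.lip p hpr _ hzr)
  rw [norm_zero, zero_add, Complex.sub_re, Complex.ofReal_re] at e2
  rw [Complex.sub_re, Complex.ofReal_re] at e2'
  have e3 : (Φ (zs p) - f - j * s' 0 (zs p)).re =
      (Φ (zs p)).re - f.re - j * (s' 0 (zs p)).re := by
    rw [Complex.sub_re, Complex.sub_re, ← Complex.ofReal_natCast, Complex.re_ofReal_mul]
  rw [e3] at e1
  have e4 : C' * ‖zs p - η * Complex.I‖ ≤ C' * r₁ := mul_le_mul_of_nonneg_left hz1 hC'.le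
  have e5 := (abs_le.1 e1).1
  have e6 := (abs_le.1 e2).1
  have e6' := (abs_le.1 e2').1
  have e7 : j * (AA η - C' * r₁) ≤ j * (s' 0 (zs p)).re :=
    mul_le_mul_of_nonneg_left (by linarith) hj
  have hzim : (zs p).im ≤ η + r₁ := by
    have h1 := (Complex.abs_im_le_norm _).trans hz1
    have h2 : (zs p - η * Complex.I).im = (zs p).im - η := by simp
    rw [h2] at h1
    linarith [(abs_le.1 h1).2]
  have e8 : (F p).re + (zs p).im ≥ f.re + (j + 1) * AA η - ((j + 1) * C' * r₁) - j * ε₁ -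
      C' * ‖p‖ := by
    have e9 : C' * (‖p‖ + ‖zs p - η * Complex.I‖) ≤ C' * ‖p‖ + C' * r₁ := by linarith
    linarith
  have hr₁0 : 0 ≤ r₁ := (norm_nonneg _).trans hz1
  exact ⟨by linarith, by linarith⟩

/-- far from the hub -/
lemma hub_far (hFG : FG2 η ε ρ' τ' κ) : ∃ τs : ℝ, 0 < τs ∧ ∀ (j : ℕ) (P PL : ℕ → ℂ → ℂ) (f : ℂ)
    (Φ : ℂ → ℂ), HubZ η ε ρ' τ' κ x₀ δ ε₁ s' j P PL f Φ → ∀ᶠ N : ℕ in atTop, ∀ p : ℂ,
      |p.re| ≤ π → |p.im| ≤ τs → ∀ x y : ℝ, ρ' ≤ |x| → |x| ≤ π → |y - η| ≤ 3 * τ' →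
      ‖PL N (x + y * Complex.I) * kerL ε N p (x + y * Complex.I)‖ ≤
        Real.exp (N * (f.re + (j + 1) * AA η - j * (κ / 2) - κ)) := by
  obtain ⟨τs, hτs, h⟩ := hFG
  refine ⟨τs, hτs, fun j P PL f Φ H => ?_⟩
  filter_upwards [h, H.far] with N h1 h2 p hp1 hp2 x y hx hx' hy
  have hpe : (p.re : ℂ) + p.im * Complex.I = p := Complex.re_add_im p
  have k1 := h1 p.re p.im x y hp1 hp2 hx hx' hy
  rw [hpe] at k1
  rw [norm_mul]
  refine (mul_le_mul (h2 x y hx hx' hy) k1 (norm_nonneg _) (Real.exp_pos _).le).trans ?_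
  rw [← Real.exp_add]
  apply Real.exp_le_exp.2
  apply le_of_eq
  ring

/-- near the hub -/
lemma hub_near (hZ : KDZ η ε ρ τ ρ' τ' κ c' s' dl')
    (H : HubZ η ε ρ' τ' κ x₀ δ ε₁ s' j P PL f Φ) :
    ∀ e : ℝ, 0 < e → ∀ᶠ N : ℕ in atTop, ∀ p ∈ Rc (3 * ρ) (3 * τ), ∀ φ ∈ Rz η (2 * ρ') (2 * τ'),
      PL N φ * kerL ε N p φ ≠ 0 ∧
        |Real.log ‖PL N φ * kerL ε N p φ‖ - N * (Φ φ + s' p φ).re| ≤ e * N := by
  intro e he
  have hρ' := hZ.hρ'.1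
  have hτ' := hZ.hτ'.1
  filter_upwards [H.mw (e / 2) (by positivity), hZ.mw (e / 2) (by positivity)] with
    N h1 h2 p hp φ hφ
  obtain ⟨k1, k2⟩ := h1 φ hφ
  obtain ⟨k3, k4⟩ := h2 p hp φ (Rz_mono (by linarith) (by linarith) hφ)
  refine ⟨mul_ne_zero k1 k3, ?_⟩
  rw [norm_mul, Real.log_mul (norm_ne_zero_iff.2 k1) (norm_ne_zero_iff.2 k3), Complex.add_re]
  rw [abs_le] at k2 k4 ⊢
  constructor
  · linarith [k2.1, k4.1]
  · linarith [k2.2, k4.2]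

lemma stp0 (P : ℕ → ℂ → ℂ) (N : ℕ) (p : ℂ) :
    stp 0 P N p = upp (1 / N) fun φ => (P N φ * Pool.Agent.W711.HT.ker N φ p) * kr N φ := by
  rw [Pool.Agent.W85.HT.stp_eq]
  congr 1
  funext φ
  have e1 : Ea 0 N φ = 1 := by
    unfold Ea
    simp
  rw [e1, one_mul]

/-- asymptotics at a small hub -/
theorem hub_mw (hZ : KDZ η ε ρ τ ρ' τ' κ c' s' dl') (hS : SDZ η r c' C' s' dl')
    (h3 : 3 * ρ' ≤ r) (hj : 2 ≤ j) (H : HubZ η ε ρ' τ' κ x₀ δ ε₁ s' j P PL f Φ)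
    (Hc : HCR η ρ' τ' r₁ r₂ c' C₁ s' Φ F zs) (hr₂ : r₂ ≤ r)
    (hineq : (j : ℝ) * (2 * bet) ≤ (j + 1) * AA η - η) (hε₁ : j * ε₁ ≤ m)
    (hr₁ : (j + 1) * C' * r₁ + r₁ ≤ m) (hm1 : m ≤ δ / 4) (hm2 : m ≤ κ / 8) (hm3 : m ≤ bet / 4)
    (hf : 0 ≤ f.re)
    (hδ : 0 < δ) {a b : ℝ} (ha : 0 < a) (hb : 0 < b) (ha1 : a < r₂) (hb1 : b < r₂)
    (ha2 : a < 3 * ρ) (hb2 : b < 3 * τ) (hm : C' * (a + b) ≤ m)
    (hfar : ∀ᶠ N : ℕ in atTop, ∀ p ∈ Kc a b, ∀ x y : ℝ, ρ' ≤ |x| → |x| ≤ π → |y - η| ≤ 3 * τ' →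
      ‖PL N (x + y * Complex.I) * kerL ε N p (x + y * Complex.I)‖ ≤
        Real.exp (N * (f.re + (j + 1) * AA η - j * (κ / 2) - κ)))
    (hrem : ∀ᶠ N : ℕ in atTop, ∀ p ∈ Kc a b,
      ‖upp (1 / N) fun φ => (P N φ * Pool.Agent.W711.HT.ker N φ p - PL N φ * kerL ε N p φ) *
        kr N φ‖ ≤ Real.exp (N * (f.re + j * (2 * bet - δ) + δ / 4))) :
    MW (stp 0 P) F (Rc a b) := by
  have hρ' := hZ.hρ'.1
  have hρ'1 := hZ.hρ'.2
  obtain ⟨hτ', hτρ', hτη⟩ := hZ.hτ'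
  have hκ := hZ.hκ.1
  have hC' := hS.hC
  have hbet := Pool.Agent.TH563.Z.J365.bet_pos
  have hj2 : (2 : ℝ) ≤ j := by exact_mod_cast hj
  have hK2 : Kc a b ⊆ Rc r₂ r₂ := by
    intro w hw
    rw [Kc_mem] at hw
    exact ⟨by linarith [hw.1], by linarith [hw.2]⟩
  have hK3 : Kc a b ⊆ Rc (3 * ρ) (3 * τ) := by
    intro w hw
    rw [Kc_mem] at hw
    exact ⟨by linarith [hw.1], by linarith [hw.2]⟩
  have hKm : ∀ p ∈ Kc a b, C' * ‖p‖ ≤ m := by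
    intro p hp
    rw [Kc_mem] at hp
    have : ‖p‖ ≤ a + b := (Complex.norm_le_abs_re_add_abs_im p).trans (add_le_add hp.1 hp.2)
    exact (mul_le_mul_of_nonneg_left this hC'.le).trans hm
  have hval := fun p (hp : p ∈ Kc a b) => hub_val hS Hc hρ' hτ' hτρ' h3 hr₂ H.Fcl hineq hε₁ hr₁
    (hK2 hp) (hKm p hp)
  have hlow : ∀ p ∈ Kc a b, bet ≤ (F p).re := by
    intro p hp
    have := (hval p hp).2
    nlinarith
  have hs : ContinuousOn (fun q : ℂ × ℂ => s' q.2 q.1)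
      (Kz η (2 * ρ') (2 * τ') ×ˢ Kc a b) := by
    have h1 : ContinuousOn (fun q : ℂ × ℂ => s' q.1 q.2) (Rc r r ×ˢ Rz η r r) :=
      hS.san.continuousOn
    refine h1.comp (f := fun q : ℂ × ℂ => (q.2, q.1)) (by fun_prop) ?_
    rintro ⟨q1, q2⟩ ⟨h1, h2⟩
    rw [Kz_mem] at h1
    exact ⟨Rc_mono hr₂ hr₂ (hK2 h2), ⟨by linarith [h1.1], by linarith [h1.2]⟩⟩
  -- limits along sequences
  have hseq : ∀ (p : ℕ → ℂ) (p₀ : ℂ), p₀ ∈ Kc a b → (∀ N, p N ∈ Kc a b) →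
      Tendsto p atTop (𝓝 p₀) →
      Tendsto (fun N => Real.log ‖stp 0 P N (p N)‖ / N) atTop (𝓝 (F p₀).re) := by
    intro p p₀ hp0 hp hlim
    obtain ⟨q1, q2⟩ := Hc.near p₀ (hK2 hp0)
    rw [Hc.val p₀ (hK2 hp0)]
    have hlim2 := outer_lim (P := fun N φ => P N φ * Pool.Agent.W711.HT.ker N φ (p N))
      (PL := fun N φ => PL N φ * kerL ε N (p N) φ) (Φ := fun φ => Φ φ + s' p₀ φ)
      (κ := min κ δ) hρ' hρ'1 hτ' hτη
      (fun N => (H.an N).mul (ker_diff N (p N))) (fun N => (H.anL N).mul (kerL_diff2 ε N (p N)))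
      (fun N φ => by rw [H.perL, kerL_per2]) (by
        refine H.Fan.add ?_
        have h1 : DifferentiableOn ℂ (fun w : ℂ => (p₀, w)) (Rz η (3 * ρ') (3 * τ')) :=
          ((differentiable_const p₀).prodMk differentiable_id).differentiableOn
        refine hS.san.comp h1 ?_
        intro w hw
        exact ⟨Rc_mono hr₂ hr₂ (hK2 hp0), Rz_mono h3 (by linarith) hw⟩)
      (by
        intro e he
        filter_upwards [hub_near hZ H (e / 2) (by positivity),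
          unif2 (s := fun φ q => s' q φ) (Kz_compact _ _ _) (Kc_compact _ _) hs hp hp0 hlim
            (show 0 < e / 2 by positivity)] with N h1 h2 φ hφ
        obtain ⟨k1, k2⟩ := h1 (p N) (hK3 (hp N)) φ hφ
        refine ⟨k1, ?_⟩
        have k3 := (Complex.abs_re_le_norm _).trans
          (h2 φ (by rw [Kz_mem]; exact ⟨hφ.1.le, hφ.2.le⟩)).le
        rw [Complex.sub_re] at k3
        have hN0 : (0 : ℝ) ≤ N := Nat.cast_nonneg N
        have k4 : |N * ((s' (p N) φ).re - (s' p₀ φ).re)| ≤ N * (e / 2) := by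
          rw [abs_mul, abs_of_nonneg hN0]
          exact mul_le_mul_of_nonneg_left k3 hN0
        rw [Complex.add_re] at k2 ⊢
        rw [abs_le] at k2 k4 ⊢
        constructor
        · linarith [k2.1, k4.1]
        · linarith [k2.2, k4.2])
      q2 (Hc.crit p₀ (hK2 hp0)) (Hc.neg p₀ (hK2 hp0)) (Hc.line p₀ (hK2 hp0))
      (lt_min hκ hδ) (by
        filter_upwards [hfar] with N h1 x hx hx'
        refine (h1 (p N) (hp N) x (zs p₀).im hx hx' ?_).trans (Real.exp_le_exp.2 ?_)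
        · have := q2.2
          linarith
        · apply mul_le_mul_of_nonneg_left _ (Nat.cast_nonneg N)
          have h4 := (hval p₀ hp0).1
          rw [Hc.val p₀ (hK2 hp0)] at h4
          have h5 := min_le_left κ δ
          nlinarith) (by
        filter_upwards [hrem] with N h1
        refine (h1 (p N) (hp N)).trans (Real.exp_le_exp.2 ?_)
        apply mul_le_mul_of_nonneg_left _ (Nat.cast_nonneg N)
        have h4 := (hval p₀ hp0).2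
        rw [Hc.val p₀ (hK2 hp0)] at h4
        have h5 := min_le_right κ δ
        nlinarith)
    refine hlim2.congr fun N => ?_
    rw [stp0]
  have hunif := Pool.Agent.W583.HT.seq ℂ (Kc a b) (Kc_compact _ _)
    (fun N ψ' => Real.log ‖stp 0 P N ψ'‖ / N) (fun ψ' => (F ψ').re)
    (Complex.continuous_re.comp_continuousOn (Hc.Fd.continuousOn.mono hK2)) hseq
  intro e he
  filter_upwards [hunif (min e (bet / 2)) (lt_min he (by positivity)), eventually_gt_atTop 0] with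
    N h1 h2 ψ hψ
  have hN' : (0 : ℝ) < N := by exact_mod_cast h2
  have hψ' : ψ ∈ Kc a b := by
    rw [Kc_mem]
    exact ⟨hψ.1.le, hψ.2.le⟩
  have k1 := h1 ψ hψ'
  refine ⟨?_, ?_⟩
  · intro h0
    rw [h0, norm_zero, Real.log_zero, zero_div, zero_sub, abs_neg] at k1
    have k2 := hlow ψ hψ'
    have k3 := (le_abs_self _).trans k1
    have k4 := min_le_right e (bet / 2)
    linarith
  · have k2 : |Real.log ‖stp 0 P N ψ‖ / N - (F ψ).re| ≤ e := k1.trans (min_le_left _ _)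
    have k3 : Real.log ‖stp 0 P N ψ‖ - N * (F ψ).re =
        N * (Real.log ‖stp 0 P N ψ‖ / N - (F ψ).re) := by
      field_simp
    rw [k3, abs_mul, abs_of_pos hN', mul_comm e]
    exact mul_le_mul_of_nonneg_left k2 hN'.le

end

end Pool.Agent.TH563.V
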