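import Pool.Agent.TH563.V.HubS

/-!
# Several hubs: the step at a small hub, bounds away from `0`
-/

set_option autoImplicit false
set_option maxHeartbeats 1000000

namespace Pool.Agent.TH563.V

open Finset Filter Topology Metric
open Pool.Agent.W711.HT hiding XX
open Pool.Agent.TH563.UV
open Pool.Agent.TH563.Z hiding gd
open Pool.Agent.W85.HT hiding Rc_mono Rp_diff
open Pool.Agent.W293.HT
open Pool.Agent.W346.HT (IntP IntP_kr upp_const_mul)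
open Pool.Agent.TH929.J29 (nat_exp_ev)
open scoped Real

section

variable {η ε ρ τ ρ' τ' κ c' C' r x₀ δ ε₁ m r₁ r₂ C₁ : ℝ} {s' dl' : ℂ → ℂ → ℂ} {j : ℕ}
  {P PL : ℕ → ℂ → ℂ} {f : ℂ} {Φ F zs : ℂ → ℂ}

/-- bound away from `0` at a small hub -/
theorem hub_gl (hZ : KDZ η ε ρ τ ρ' τ' κ c' s' dl') (hS : SDZ η r c' C' s' dl')
    (h3 : 3 * ρ' ≤ r) (hj : 2 ≤ j) (H : HubZ η ε ρ' τ' κ x₀ δ ε₁ s' j P PL f Φ)
    (Hc : HCR η ρ' τ' r₁ r₂ c' C₁ s' Φ F zs) (hr₂0 : 0 < r₂) (hr₂ : r₂ ≤ r)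
    (hineq : (j : ℝ) * (2 * bet) ≤ (j + 1) * AA η - η) (hε₁ : j * ε₁ ≤ m)
    (hr₁ : (j + 1) * C' * r₁ + r₁ ≤ m) (hm0 : 0 ≤ m) (hm1 : m ≤ δ / 4) (hm2 : m ≤ κ / 8)
    (hδ : 0 < δ) {a κ₁ κ₂ τe : ℝ} (hτe : 0 < τe)
    (hnf : ∀ᶠ N : ℕ in atTop, ∀ x y : ℝ, a ≤ |x| → |x| ≤ π → |y| ≤ 1 / N →
      ∀ φ ∈ Rz η (3 * ρ') (3 * τ'), ‖kerL ε N (x + y * Complex.I) φ‖ ≤
        Real.exp (N * ((s' 0 φ).re - κ₁)))
    (hfar : ∀ᶠ N : ℕ in atTop, ∀ p : ℂ, |p.re| ≤ π → |p.im| ≤ τe → ∀ x y : ℝ, ρ' ≤ |x| →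
      |x| ≤ π → |y - η| ≤ 3 * τ' →
      ‖PL N (x + y * Complex.I) * kerL ε N p (x + y * Complex.I)‖ ≤
        Real.exp (N * (f.re + (j + 1) * AA η - j * (κ / 2) - κ)))
    (hrem : ∀ᶠ N : ℕ in atTop, ∀ p : ℂ, |p.re| ≤ π → |p.im| ≤ τe →
      ‖upp (1 / N) fun φ => (P N φ * Pool.Agent.W711.HT.ker N φ p - PL N φ * kerL ε N p φ) *
        kr N φ‖ ≤ Real.exp (N * (f.re + j * (2 * bet - δ) + δ / 4)))
    (hκ₁ : κ₂ < κ₁) (hκ₂ : κ₂ < κ) (hκ₃ : κ₂ < δ) :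
    ∀ᶠ N : ℕ in atTop, ∀ x y : ℝ, a ≤ |x| → |x| ≤ π → |y| ≤ 1 / N →
      ‖stp 0 P N (x + y * Complex.I)‖ ≤ Real.exp (N * ((F 0).re - κ₂)) := by
  have hπ := Real.pi_gt_three
  have hρ' := hZ.hρ'.1
  have hρ'1 := hZ.hρ'.2
  obtain ⟨hτ', hτρ', hτη⟩ := hZ.hτ'
  have hκ := hZ.hκ.1
  have hj2 : (2 : ℝ) ≤ j := by exact_mod_cast hj
  have h0 : (0 : ℂ) ∈ Rc r₂ r₂ := zero_mem_Rc hr₂0 hr₂0
  obtain ⟨v1, v2⟩ := hub_val hS Hc hρ' hτ' hτρ' h3 hr₂ H.Fcl hineq hε₁ hr₁ h0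
    (by rw [norm_zero, mul_zero]; exact hm0)
  obtain ⟨z, hz⟩ : ∃ z : ℂ, z = zs 0 := ⟨_, rfl⟩
  rw [← hz] at v1
  obtain ⟨z1, z2⟩ := Hc.near 0 h0
  rw [← hz] at z1 z2
  have hz0 : 0 < z.im := by
    have := (abs_lt.1 z2.2).1
    linarith
  obtain ⟨V, hV⟩ : ∃ V : ℝ, V = (F 0).re := ⟨_, rfl⟩
  rw [← hV] at v1 v2 ⊢
  have hVq : V = (qz (fun w => Φ w + s' 0 w) z).re := by rw [hV, Hc.val 0 h0, hz]
  have hline : ∀ x : ℝ, |x| ≤ ρ' → (Φ (x + z.im * Complex.I)).re +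
      (s' 0 (x + z.im * Complex.I)).re - z.im ≤ V := by
    intro x hx
    have q1 : (qz (fun w => Φ w + s' 0 w) (x + z.im * Complex.I)).re ≤ V := by
      rcases eq_or_ne x z.re with h | h
      · rw [h, Complex.re_add_im, hVq]
      · rw [hVq]
        have := Hc.line 0 h0 x hx (by rw [← hz]; exact h)
        rw [← hz] at this
        exact this.le
    have q2 := qz_re (fun w => Φ w + s' 0 w) (x + z.im * Complex.I)
    rw [xy_im'] at q2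
    have q3 : ((fun w => Φ w + s' 0 w) (x + z.im * Complex.I)).re =
      (Φ (x + z.im * Complex.I)).re + (s' 0 (x + z.im * Complex.I)).re := Complex.add_re _ _
    rw [q3] at q2
    linarith
  obtain ⟨g, hg⟩ : ∃ g : ℝ, g = min (κ₁ - κ₂) (min (κ - κ₂) (δ - κ₂)) := ⟨_, rfl⟩
  have hg0 : 0 < g := by
    rw [hg]
    exact lt_min (by linarith) (lt_min (by linarith) (by linarith))
  have hg1 : g ≤ κ₁ - κ₂ := by rw [hg]; exact min_le_left _ _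
  have hg2 : g ≤ κ - κ₂ := by rw [hg]; exact (min_le_right _ _).trans (min_le_left _ _)
  have hg3 : g ≤ δ - κ₂ := by rw [hg]; exact (min_le_right _ _).trans (min_le_right _ _)
  filter_upwards [hnf, hfar, hrem, H.mw (g / 4) (by positivity), inv_ev hτe, inv_ev hz0,
    ev_mul (2 * π * (8 * Real.exp z.im) + 1) (V := V - κ₂) (A := V - κ₂ - g / 2) (κ := g / 2)
      (by positivity) le_rfl, eventually_gt_atTop 0] with N k1 k2 k3 k4 k5 k6 k7 hN x y hx hx' hy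
  have hN' : (0 : ℝ) < N := by exact_mod_cast hN
  obtain ⟨p, hp⟩ : ∃ p : ℂ, p = (x : ℂ) + y * Complex.I := ⟨_, rfl⟩
  have hp1 : |p.re| ≤ π := by rw [hp, xy_re']; exact hx'
  have hp2 : |p.im| ≤ τe := by rw [hp, xy_im']; exact hy.trans k5.le
  have hk1 := k1 x y hx hx' hy
  rw [← hp] at hk1 ⊢
  -- splitting
  have e1 : stp 0 P N p = (upp (1 / N) fun φ => (P N φ * Pool.Agent.W711.HT.ker N φ p -
      PL N φ * kerL ε N p φ) * kr N φ) + upp (1 / N) fun φ => (PL N φ * kerL ε N p φ) * kr N φ := by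
    have q0 := upp_add (h := 1 / N) (f := fun φ => (P N φ * Pool.Agent.W711.HT.ker N φ p -
      PL N φ * kerL ε N p φ) * kr N φ)
      (g := fun φ => (PL N φ * kerL ε N p φ) * kr N φ)
      (IntP_kr (g := fun φ => P N φ * Pool.Agent.W711.HT.ker N φ p - PL N φ * kerL ε N p φ) hN
        (((H.an N).mul (ker_diff N p)).sub ((H.anL N).mul (kerL_diff2 ε N p))).continuous)
      (IntP_kr (g := fun φ => PL N φ * kerL ε N p φ) hN
        ((H.anL N).mul (kerL_diff2 ε N p)).continuous)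
    rw [stp0, ← q0]
    congr 1
    funext φ
    ring
  rw [e1]
  have b1 := k3 p hp1 hp2
  have b1' : ‖upp (1 / N) fun φ => (P N φ * Pool.Agent.W711.HT.ker N φ p -
      PL N φ * kerL ε N p φ) * kr N φ‖ ≤ Real.exp (N * (V - κ₂ - g / 2)) := by
    refine b1.trans (Real.exp_le_exp.2 ?_)
    apply mul_le_mul_of_nonneg_left _ hN'.le
    nlinarith
  have hbd : ∀ x' : ℝ, |x'| ≤ π → ‖(PL N (x' + z.im * Complex.I) *
      kerL ε N p (x' + z.im * Complex.I)) * kr N (x' + z.im * Complex.I)‖ ≤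
      8 * Real.exp z.im * Real.exp (N * (V - κ₂ - g / 2)) := by
    intro x' hx1
    have q1 := kr_bd hN (H := z.im) (w := (x' : ℂ) + z.im * Complex.I)
      (by rw [xy_im']; exact k6.le) (by rw [xy_im'])
    rw [xy_im'] at q1
    have q2 : ‖PL N (x' + z.im * Complex.I) * kerL ε N p (x' + z.im * Complex.I)‖ ≤
        Real.exp (N * (V - κ₂ - g / 2 + z.im)) := by
      rcases le_total ρ' |x'| with h | h
      · refine (k2 p hp1 hp2 x' z.im h hx1 (by linarith [z2.2])).trans (Real.exp_le_exp.2 ?_)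
        apply mul_le_mul_of_nonneg_left _ hN'.le
        nlinarith
      · have m1 : (x' : ℂ) + z.im * Complex.I ∈ Rz η (2 * ρ') (2 * τ') := by
          refine ⟨?_, ?_⟩
          · rw [xy_re']; linarith
          · rw [xy_im']; linarith [z2.2]
        obtain ⟨a1, a2⟩ := k4 _ m1
        have a3 := hk1 _ (Rz_mono (by linarith) (by linarith) m1)
        have a4 : ‖PL N (x' + z.im * Complex.I)‖ ≤
            Real.exp (N * (Φ (x' + z.im * Complex.I)).re + g / 4 * N) := by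
          rw [← Real.log_le_iff_le_exp (norm_pos_iff.2 a1)]
          linarith [(abs_le.1 a2).2]
        rw [norm_mul]
        refine (mul_le_mul a4 a3 (norm_nonneg _) (Real.exp_pos _).le).trans ?_
        rw [← Real.exp_add]
        apply Real.exp_le_exp.2
        have a5 := hline x' h
        have a6 : (Φ (x' + z.im * Complex.I)).re + g / 4 + ((s' 0 (x' + z.im * Complex.I)).re - κ₁) ≤
            V - κ₂ - g / 2 + z.im := by linarith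
        have a7 := mul_le_mul_of_nonneg_left a6 hN'.le
        linarith
    rw [norm_mul]
    refine (mul_le_mul q2 q1 (norm_nonneg _) (Real.exp_pos _).le).trans ?_
    apply le_of_eq
    have q3 : Real.exp (N * (V - κ₂ - g / 2)) = Real.exp (N * (V - κ₂ - g / 2 + z.im)) *
        Real.exp (-(N * z.im)) := by
      rw [← Real.exp_add]
      congr 1
      ring
    rw [q3]
    ring
  have b2 : ‖upp (1 / N) fun φ => (PL N φ * kerL ε N p φ) * kr N φ‖ ≤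
      2 * π * (8 * Real.exp z.im) * Real.exp (N * (V - κ₂ - g / 2)) := by
    rw [shift hN (g := fun φ => PL N φ * kerL ε N p φ) ((H.anL N).mul (kerL_diff2 ε N p))
      (fun w => by rw [H.perL, kerL_per2]) k6.le]
    refine (intervalIntegral.norm_integral_le_of_norm_le_const (C := 8 * Real.exp z.im *
      Real.exp (N * (V - κ₂ - g / 2))) (by
      intro x' hx1
      rw [Set.uIoc_of_le (by linarith)] at hx1
      exact hbd x' (abs_le.2 ⟨hx1.1.le, hx1.2⟩))).trans ?_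
    apply le_of_eq
    rw [sub_neg_eq_add, abs_of_pos (by positivity)]
    ring
  refine (norm_add_le _ _).trans ((add_le_add b1' b2).trans ?_)
  refine le_trans (le_of_eq ?_) k7
  ring

/-- the function of a small hub -/
theorem hub_gv (hZ : KDZ η ε ρ τ ρ' τ' κ c' s' dl') (hS : SDZ η r c' C' s' dl')
    (h3 : 3 * ρ' ≤ r) (hj : 2 ≤ j) (H : HubZ η ε ρ' τ' κ x₀ δ ε₁ s' j P PL f Φ)
    (Hc : HCR η ρ' τ' r₁ r₂ c' C₁ s' Φ F zs) (hr₂ : r₂ ≤ r)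
    (hineq : (j : ℝ) * (2 * bet) ≤ (j + 1) * AA η - η) (hε₁ : j * ε₁ ≤ m)
    (hr₁ : (j + 1) * C' * r₁ + r₁ ≤ m) (hm1 : m ≤ δ / 4) (hm2 : m ≤ κ / 8) (hm3 : m ≤ bet / 4)
    (hf : 0 ≤ f.re) (hδ : 0 < δ) {a b κ₁ κ₂ τe : ℝ} (ha : 0 < a) (hb : 0 < b) (hba : b ≤ a)
    (ha1 : 3 * a < r₂) (ha2 : a ≤ ρ) (hb2 : b ≤ τ) (hbe : 3 * b ≤ τe) (ha14 : a ≤ 1 / 4)
    (hm : C' * (3 * (a + b)) ≤ m) (hτe : 0 < τe)
    (hnf : ∀ᶠ N : ℕ in atTop, ∀ x y : ℝ, a ≤ |x| → |x| ≤ π → |y| ≤ 1 / N →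
      ∀ φ ∈ Rz η (3 * ρ') (3 * τ'), ‖kerL ε N (x + y * Complex.I) φ‖ ≤
        Real.exp (N * ((s' 0 φ).re - κ₁)))
    (hfar : ∀ᶠ N : ℕ in atTop, ∀ p : ℂ, |p.re| ≤ π → |p.im| ≤ τe → ∀ x y : ℝ, ρ' ≤ |x| →
      |x| ≤ π → |y - η| ≤ 3 * τ' →
      ‖PL N (x + y * Complex.I) * kerL ε N p (x + y * Complex.I)‖ ≤
        Real.exp (N * (f.re + (j + 1) * AA η - j * (κ / 2) - κ)))
    (hrem : ∀ᶠ N : ℕ in atTop, ∀ p : ℂ, |p.re| ≤ π → |p.im| ≤ τe →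
      ‖upp (1 / N) fun φ => (P N φ * Pool.Agent.W711.HT.ker N φ p - PL N φ * kerL ε N p φ) *
        kr N φ‖ ≤ Real.exp (N * (f.re + j * (2 * bet - δ) + δ / 4)))
    (hκ₁ : κ₂ / 2 < κ₁) (hκ₂ : κ₂ / 2 < κ) (hκ₃ : κ₂ / 2 < δ) :
    GoodV a b κ₂ (c' / 2) C₁ 1 (stp 0 P) F := by
  have hπ := Real.pi_gt_three
  have hρ' := hZ.hρ'.1
  obtain ⟨hτ', hτρ', hτη⟩ := hZ.hτ'
  have hκ := hZ.hκ.1
  have hC' := hS.hC
  have hbet := Pool.Agent.TH563.Z.J365.bet_pos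
  have hm0 : 0 ≤ m := (by positivity : 0 ≤ C' * (3 * (a + b))).trans hm
  have hr₂0 : 0 < r₂ := by linarith
  have hρ := hZ.hρ.1
  have hτ := hZ.hτ.1
  have h0 : (0 : ℂ) ∈ Rc r₂ r₂ := zero_mem_Rc hr₂0 hr₂0
  have hj2 : (2 : ℝ) ≤ j := by exact_mod_cast hj
  obtain ⟨v1, v2⟩ := hub_val hS Hc hρ' hτ' hτρ' h3 hr₂ H.Fcl hineq hε₁ hr₁ h0
    (by rw [norm_zero, mul_zero]; exact hm0)
  obtain ⟨st1, st2⟩ := Pool.Agent.W398.HT.t_STPE 0 P H.an
  have hsub : Rc (3 * a) (3 * b) ⊆ Rc r₂ r₂ := Rc_mono ha1.le (by linarith)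
  have hsub2 : Rc (2 * a) (2 * b) ⊆ Rc r₂ r₂ := Rc_mono (by linarith) (by linarith)
  have hKm : ∀ p ∈ Kc (2 * a) (2 * b), |p.re| ≤ π ∧ |p.im| ≤ τe := by
    intro p hp
    rw [Kc_mem] at hp
    exact ⟨by linarith [hp.1], by linarith [hp.2]⟩
  refine ⟨st1, st2, by nlinarith, ⟨Hc.Fd.mono hsub, fun w hw => Hc.ev w (hsub hw),
    fun w hw => ?_, fun w hw => ?_⟩, ?_, ?_⟩
  · have := (Hc.dd w (hsub2 hw)).1
    push_cast
    linarith
  · have := (Hc.dd w (hsub2 hw)).2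
    push_cast
    linarith
  · refine hub_mw hZ hS h3 hj H Hc hr₂ hineq hε₁ hr₁ hm1 hm2 hm3 hf hδ (by positivity)
      (by positivity) (by linarith) (by linarith) (by linarith) (by linarith) ?_ ?_ ?_
    · refine le_trans ?_ hm
      apply mul_le_mul_of_nonneg_left _ hC'.le
      linarith
    · filter_upwards [hfar] with N h1 p hp
      exact h1 p (hKm p hp).1 (hKm p hp).2
    · filter_upwards [hrem] with N h1 p hp
      exact h1 p (hKm p hp).1 (hKm p hp).2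
  · have h := hub_gl hZ hS h3 hj H Hc hr₂0 hr₂ hineq hε₁ hr₁ hm0 hm1 hm2 hδ hτe hnf hfar hrem
      hκ₁ hκ₂ hκ₃
    filter_upwards [h] with N h1 x y hx hx' hy
    rw [Nat.cast_one, one_mul]
    exact h1 x y hx hx' hy

end

end Pool.Agent.TH563.V
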