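import Pool.Agent.TH563.V.HubT

/-!
# Several hubs: the step at a small hub, expansions
-/

set_option autoImplicit false
set_option maxHeartbeats 1000000

namespace Pool.Agent.TH563.V

open Finset Filter Topology Metric
open Pool.Agent.W711.HT hiding XX
open Pool.Agent.TH563.UV
open Pool.Agent.TH563.Z hiding gd
open Pool.Agent.W85.HT hiding Rc_mono Rp_diff
open Pool.Agent.W293.HT
open Pool.Agent.W719.AX (UX GX KXD cv)
open scoped Real

lemma ux_comap {E E' : Type} {Y : ℕ → E → ℂ} {A : ℕ → E → ℂ} {S : Set E} (h : UX Y A S)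
    (g : E' → E) {T : Set E'} (hg : ∀ x ∈ T, g x ∈ S) :
    UX (fun N x => Y N (g x)) (fun k x => A k (g x)) T := by
  intro K
  obtain ⟨C, hC⟩ := h K
  refine ⟨C, ?_⟩
  filter_upwards [hC] with N hN x hx
  exact hN (g x) (hg x hx)

lemma pow_le_exp_ev (k : ℕ) {e : ℝ} (he : 0 < e) : ∀ᶠ N : ℕ in atTop,
    (N : ℝ) ^ k ≤ Real.exp (e * N) := by
  have h1 : (fun x : ℝ => x ^ k) =o[atTop] fun x => Real.exp (e * x) :=
    isLittleO_pow_exp_pos_mul_atTop k he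
  have h2 := (h1.bound one_pos)
  have h3 := tendsto_natCast_atTop_atTop (R := ℝ)
  filter_upwards [h3.eventually h2] with N hN
  rw [one_mul, Real.norm_eq_abs, Real.norm_eq_abs, abs_of_nonneg (by positivity),
    abs_of_pos (Real.exp_pos _)] at hN
  exact hN

/-- the normalisation -/
noncomputable def nn (m : ℕ) (N : ℕ) : ℂ := (N : ℂ) ^ (2 * m) * (-1) ^ (N * m) *
  ((Real.sqrt N) ^ 3 : ℝ)

lemma nn_bd (m : ℕ) {e : ℝ} (he : 0 < e) : ∀ᶠ N : ℕ in atTop, ‖nn m N‖ ≤ Real.exp (e * N) := by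
  filter_upwards [pow_le_exp_ev (2 * m + 3) he, eventually_gt_atTop 0] with N h1 h2
  have hN : (0 : ℝ) < N := by exact_mod_cast h2
  have hN1 : (1 : ℝ) ≤ N := by exact_mod_cast h2
  refine le_trans ?_ h1
  unfold nn
  rw [norm_mul, norm_mul, norm_pow, norm_pow, norm_neg, norm_one, one_pow, mul_one,
    Complex.norm_natCast, Complex.norm_real, Real.norm_eq_abs, abs_of_nonneg (by positivity),
    pow_add]
  apply mul_le_mul_of_nonneg_left _ (by positivity)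
  apply pow_le_pow_left₀ (Real.sqrt_nonneg _)
  rw [Real.sqrt_le_left hN.le]
  nlinarith

section

variable {η ε ρ τ ρ' τ' κ c' C' r x₀ δ ε₁ m r₁ r₂ C₁ : ℝ} {s' dl' : ℂ → ℂ → ℂ} {j : ℕ}
  {P PL : ℕ → ℂ → ℂ} {f : ℂ} {Φ F zs : ℂ → ℂ}

/-- expansions at a small hub -/
theorem hub_gx (hHX : S_HX) (hZ : KDZ η ε ρ τ ρ' τ' κ c' s' dl') (hS : SDZ η r c' C' s' dl')
    (h3 : 3 * ρ' ≤ r) (hj : 2 ≤ j) (H : HubZ η ε ρ' τ' κ x₀ δ ε₁ s' j P PL f Φ)
    (Hc : HCR η ρ' τ' r₁ r₂ c' C₁ s' Φ F zs) (hr₂ : r₂ ≤ r)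
    (hineq : (j : ℝ) * (2 * bet) ≤ (j + 1) * AA η - η) (hε₁ : j * ε₁ ≤ m)
    (hr₁ : (j + 1) * C' * r₁ + r₁ ≤ m) (hm1 : m ≤ δ / 4) (hm2 : m ≤ κ / 8)
    (hδ : 0 < δ) {a b : ℝ} (ha : 0 < a) (hb : 0 < b) (ha1 : a < r₂) (hb1 : b < r₂)
    (ha2 : a < 3 * ρ) (hb2 : b < 3 * τ) (hm : C' * (a + b) ≤ m)
    (hfar : ∀ᶠ N : ℕ in atTop, ∀ p ∈ Kc a b, ∀ x y : ℝ, ρ' ≤ |x| → |x| ≤ π → |y - η| ≤ 3 * τ' →
      ‖PL N (x + y * Complex.I) * kerL ε N p (x + y * Complex.I)‖ ≤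
        Real.exp (N * (f.re + (j + 1) * AA η - j * (κ / 2) - κ)))
    (hrem : ∀ᶠ N : ℕ in atTop, ∀ p ∈ Kc a b,
      ‖upp (1 / N) fun φ => (P N φ * Pool.Agent.W711.HT.ker N φ p - PL N φ * kerL ε N p φ) *
        kr N φ‖ ≤ Real.exp (N * (f.re + j * (2 * bet - δ) + δ / 4)))
    {ρ₂ τ₂ ρb τb ρ₃ τ₃ : ℝ} {Az : ℕ → ℂ × ℂ → ℂ} (hAz : KXZ η ε ρb τb ρ₃ τ₃ s' Az) {m' : ℕ}
    {A : ℕ → ℂ → ℂ} (hA : GXZ η ρ₃ τ₃ m' PL Φ A) (hρ₂ : ρ₂ ≤ a) (hτ₂ : τ₂ ≤ b) (hρb : ρ₂ ≤ ρb)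
    (hτb : τ₂ ≤ τb) (hr₁3 : r₁ < ρ₃) (hr₁4 : r₁ < τ₃) :
    ∃ A' : ℕ → ℂ → ℂ, GX ρ₂ τ₂ (m' + 1) (stp 0 P) F A' := by
  have hρ' := hZ.hρ'.1
  have hρ'1 := hZ.hρ'.2
  obtain ⟨hτ', hτρ', hτη⟩ := hZ.hτ'
  have hκ := hZ.hκ.1
  have hC' := hS.hC
  have hj2 : (2 : ℝ) ≤ j := by exact_mod_cast hj
  have hK2 : Kc a b ⊆ Rc r₂ r₂ := by
    intro w hw
    rw [Kc_mem] at hw
    exact ⟨by linarith [hw.1], by linarith [hw.2]⟩
  have hK3 : Kc a b ⊆ Rc (3 * ρ) (3 * τ) := by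
    intro w hw
    rw [Kc_mem] at hw
    exact ⟨by linarith [hw.1], by linarith [hw.2]⟩
  have hVK : Rc ρ₂ τ₂ ⊆ Kc a b := by
    intro w hw
    rw [Kc_mem]
    exact ⟨by linarith [hw.1], by linarith [hw.2]⟩
  have hVb : Rc ρ₂ τ₂ ⊆ Rc ρb τb := Rc_mono hρb hτb
  have hKm : ∀ p ∈ Kc a b, C' * ‖p‖ ≤ m := by
    intro p hp
    rw [Kc_mem] at hp
    have : ‖p‖ ≤ a + b := (Complex.norm_le_abs_re_add_abs_im p).trans (add_le_add hp.1 hp.2)
    exact (mul_le_mul_of_nonneg_left this hC'.le).trans hm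
  have hval := fun p (hp : p ∈ Kc a b) => hub_val hS Hc hρ' hτ' hτρ' h3 hr₂ H.Fcl hineq hε₁ hr₁
    (hK2 hp) (hKm p hp)
  have hsan : DifferentiableOn ℂ (fun q : ℂ × ℂ => s' q.1 q.2)
      (Kc a b ×ˢ Rz η (3 * ρ') (3 * τ')) := hS.san.mono
    (Set.prod_mono (hK2.trans (Rc_mono hr₂ hr₂)) (Rz_mono h3 (by linarith)))
  have hz3 : ∀ p ∈ Kc a b, zs p ∈ Rz η ρ₃ τ₃ := by
    intro p hp
    have hz1 := (Hc.near p (hK2 hp)).1
    have h1 := (Complex.abs_re_le_norm _).trans hz1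
    have h2 := (Complex.abs_im_le_norm _).trans hz1
    have a1 : (zs p - η * Complex.I).re = (zs p).re := by simp
    have a2 : (zs p - η * Complex.I).im = (zs p).im - η := by simp
    rw [a1] at h1
    rw [a2] at h2
    exact ⟨h1.trans_lt hr₁3, h2.trans_lt hr₁4⟩
  have hmul : UX (fun (N : ℕ) (x : ℂ × ℂ) => nn m' N * Complex.exp (-(N * (Φ x.2 + s' x.1 x.2))) *
      (PL N x.2 * kerL ε N x.1 x.2)) (cv (fun k x => A k x.2) Az) (Rc ρ₂ τ₂ ×ˢ Rz η ρ₃ τ₃) := by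
    have h1 := ux_comap hA.ux (fun x : ℂ × ℂ => x.2) (T := Rc ρ₂ τ₂ ×ˢ Rz η ρ₃ τ₃)
      (fun x hx => hx.2)
    have h2 : UX (kxz ε s') Az (Rc ρ₂ τ₂ ×ˢ Rz η ρ₃ τ₃) :=
      ux_mono hAz.ux (Set.prod_mono hVb subset_rfl)
    have h4 := Pool.Agent.W303.AX.uxmul _ _ _ _ _ _ h1 h2
    have e : (fun (N : ℕ) (x : ℂ × ℂ) => nn m' N *
        Complex.exp (-(N * (Φ x.2 + s' x.1 x.2))) * (PL N x.2 * kerL ε N x.1 x.2)) =
        fun (N : ℕ) (x : ℂ × ℂ) => ((N : ℂ) ^ (2 * m') * (-1) ^ (N * m') *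
          Complex.exp (-(N * Φ x.2)) * PL N x.2) * kxz ε s' N x := by
      funext N x
      unfold nn kxz
      have e1 : Complex.exp (-(N * (Φ x.2 + s' x.1 x.2))) =
          Complex.exp (-(N * Φ x.2)) * Complex.exp (-(N * s' x.1 x.2)) := by
        rw [← Complex.exp_add]
        congr 1
        ring
      rw [e1]
      ring
    rw [e]
    exact h4
  obtain ⟨B, hB0, hB⟩ := hHX η ρ' τ' hρ' hρ'1 hτ' hτη (Kc a b) (Rc ρ₂ τ₂) (Kc_compact a b) hVK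
    (fun N p φ => P N φ * Pool.Agent.W711.HT.ker N φ p) (fun N p φ => PL N φ * kerL ε N p φ)
    (fun p φ => Φ φ + s' p φ) zs (nn m')
    (fun N p _ => (H.an N).mul (ker_diff N p)) (fun N p _ => (H.anL N).mul (kerL_diff2 ε N p))
    (fun N p _ φ => by rw [H.perL, kerL_per2])
    (fun p hp => by
      refine H.Fan.add ?_
      have h1 : DifferentiableOn ℂ (fun w : ℂ => (p, w)) (Rz η (3 * ρ') (3 * τ')) :=
        ((differentiable_const p).prodMk differentiable_id).differentiableOn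
      exact hsan.comp h1 (fun w hw => ⟨hp, hw⟩))
    ((H.Fan.continuousOn.comp continuousOn_snd (fun x hx => hx.2)).add hsan.continuousOn)
    (Hc.zd.continuousOn.mono hK2)
    (by
      intro e he
      filter_upwards [hub_near hZ H e he] with N h1 p hp φ hφ
      exact h1 p (hK3 hp) φ hφ)
    (fun p hp => ⟨(Hc.near p (hK2 hp)).2, Hc.crit p (hK2 hp), Hc.neg p (hK2 hp),
      Hc.line p (hK2 hp)⟩)
    ⟨min κ δ, lt_min hκ hδ, by
      filter_upwards [hfar] with N h1 p hp x hx hx'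
      refine (h1 p hp x (zs p).im hx hx' ?_).trans (Real.exp_le_exp.2 ?_)
      · have := (Hc.near p (hK2 hp)).2.2
        linarith
      · apply mul_le_mul_of_nonneg_left _ (Nat.cast_nonneg N)
        have h4 := (hval p hp).1
        rw [Hc.val p (hK2 hp)] at h4
        have h5 := min_le_left κ δ
        nlinarith, by
      filter_upwards [hrem] with N h1 p hp
      have h6 := h1 p hp
      have e1 : (fun φ => (P N φ * Pool.Agent.W711.HT.ker N φ p - PL N φ * kerL ε N p φ) *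
        kr N φ) = fun φ => (P N φ * Pool.Agent.W711.HT.ker N φ p - PL N φ * kerL ε N p φ) *
        kr N φ := rfl
      refine h6.trans (Real.exp_le_exp.2 ?_)
      apply mul_le_mul_of_nonneg_left _ (Nat.cast_nonneg N)
      have h4 := (hval p hp).2
      rw [Hc.val p (hK2 hp)] at h4
      have h5 := min_le_right κ δ
      nlinarith⟩
    (fun e he => nn_bd m' he) ρ₃ τ₃ _ hmul
    (by
      intro i p hp
      unfold cv
      refine DifferentiableOn.fun_sum fun l _ => ?_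
      exact (hA.an l).mul (hAz.d2 _ p (hVb hp)))
    (by
      rintro ⟨p, φ⟩ ⟨hp, hφ⟩
      have e : cv (fun k (x : ℂ × ℂ) => A k x.2) Az 0 (p, φ) = A 0 φ * Az 0 (p, φ) := by
        simp [cv]
      rw [e]
      exact mul_ne_zero (hA.nz φ hφ) (hAz.nz (p, φ) ⟨hVb hp, hφ⟩))
    hz3
  have hVo : IsOpen (Rc ρ₂ τ₂) := isOpen_Rc _ _
  have hFd : DifferentiableOn ℂ F (Rc ρ₂ τ₂) := Hc.Fd.mono (hVK.trans hK2)
  obtain ⟨st1, st2⟩ := Pool.Agent.W398.HT.t_STPE 0 P H.an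
  have hux : UX (fun N z => (N : ℂ) ^ (2 * (m' + 1)) * (-1) ^ (N * (m' + 1)) *
      Complex.exp (-(N * F z)) * stp 0 P N z) B (Rc ρ₂ τ₂) := by
    intro K
    obtain ⟨C, hC⟩ := hB K
    refine ⟨C, ?_⟩
    filter_upwards [hC] with N hN p hp
    have h1 := hN p hp
    have hsq : ((Real.sqrt N : ℝ) : ℂ) ^ 2 = N := by
      rw [← Complex.ofReal_pow, Real.sq_sqrt (Nat.cast_nonneg N)]
      simp
    have e1 : nn m' N * (Real.sqrt N : ℂ) * (-1) ^ N * Complex.exp (-(N * qz (fun φ => Φ φ +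
        s' p φ) (zs p))) * (upp (1 / N) fun φ => P N φ * Pool.Agent.W711.HT.ker N φ p * kr N φ) =
        (N : ℂ) ^ (2 * (m' + 1)) * (-1) ^ (N * (m' + 1)) * Complex.exp (-(N * F p)) *
          stp 0 P N p := by
      rw [stp0, ← Hc.val p (hK2 (hVK hp))]
      unfold nn
      have e2 : (N : ℂ) ^ (2 * (m' + 1)) = (N : ℂ) ^ (2 * m') * ((Real.sqrt N : ℝ) : ℂ) ^ 4 := by
        have : ((Real.sqrt N : ℝ) : ℂ) ^ 4 = (N : ℂ) ^ 2 := by
          rw [show 4 = 2 * 2 by norm_num, pow_mul, hsq]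
        rw [this]
        ring
      have e3 : (-1 : ℂ) ^ (N * (m' + 1)) = (-1) ^ (N * m') * (-1) ^ N := by
        rw [← pow_add]
        congr 1
      rw [e2, e3]
      push_cast
      ring
    rw [← e1]
    exact h1
  refine ⟨B, hux, ?_, hB0⟩
  refine Pool.Agent.W303.AX.uxan _ _ _ hVo ?_ hux
  refine Eventually.of_forall fun N => ?_
  refine ((DifferentiableOn.cexp ?_).const_mul _).mul (st1 N).differentiableOn
  exact (hFd.const_mul _).neg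

end

end Pool.Agent.TH563.V
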