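import Pool.Agent.TH563.V.KidA
import Pool.Agent.TH563.Z.FinZ

/-!
# Several hubs: the induction over the tree
-/

set_option autoImplicit false
set_option maxHeartbeats 1000000

namespace Pool.Agent.TH563.V

open Finset Filter Topology Metric
open Pool.Agent.W711.HT hiding XX
open Pool.Agent.TH563.UV
open Pool.Agent.TH563.Z hiding gd
open Pool.Agent.W719.AX (UX GX KXD cv)
open scoped Real

/-! ### Trees -/

/-- a vertex of weight `0` without circle, valence at least `3` -/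
def IsHub (b : Bool) (n : ℕ) (a : ℤ) : Prop := b = false ∧ a = 0 ∧ 3 ≤ n

/-- the vertices other than the root are big or hubs; every edge has a big end.  `g` says that the
root is used as a big vertex -/
def Ok (K : ℝ) : Bool → Tb → Prop
  | _, .vx _ _ => True
  | g, .br t c => Ok K g t ∧ ((Tb.BigV K c.bl (c.nc + 1) c.wt ∧ Ok K true c) ∨
      (g = true ∧ IsHub c.bl (c.nc + 1) c.wt ∧ Ok K false c))

/-- all vertices are big or hubs; every edge has a big end -/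
def OkT (K : ℝ) (t : Tb) : Prop :=
  (Tb.BigV K t.bl t.nc t.wt ∧ Ok K true t) ∨ (IsHub t.bl t.nc t.wt ∧ Ok K false t)

lemma bigV_mono {K K' : ℝ} (h0 : 0 ≤ K) (h : K ≤ K') {b : Bool} {n : ℕ} {a : ℤ}
    (hb : Tb.BigV K' b n a) : Tb.BigV K b n a := fun hf =>
  (pow_le_pow_left₀ h0 h 2).trans (hb hf)

lemma ok_mono {K K' : ℝ} (h0 : 0 ≤ K) (h : K ≤ K') (g : Bool) (t : Tb) :
    Ok K' g t → Ok K g t := by
  induction t generalizing g with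
  | vx b a => intro _; trivial
  | br t c iht ihc =>
    rintro ⟨h1, h2⟩
    refine ⟨iht g h1, ?_⟩
    rcases h2 with ⟨h3, h4⟩ | ⟨h3, h4, h5⟩
    · exact Or.inl ⟨bigV_mono h0 h h3, ihc true h4⟩
    · exact Or.inr ⟨h3, h4, ihc false h5⟩

lemma okT_mono {K K' : ℝ} (h0 : 0 ≤ K) (h : K ≤ K') {t : Tb} (ht : OkT K' t) : OkT K t := by
  rcases ht with ⟨h3, h4⟩ | ⟨h3, h4⟩
  · exact Or.inl ⟨bigV_mono h0 h h3, ok_mono h0 h true t h4⟩
  · exact Or.inr ⟨h3, ok_mono h0 h false t h4⟩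

lemma kz_big {D : ℕ} {K : ℝ} (h : (D : ℝ) ≤ K) {b : Bool} {n : ℕ} {a : ℤ}
    (hb : Tb.BigV K b n a) : kz D b n a = 0 := by
  unfold kz
  rw [if_neg]
  rintro ⟨h1, h2, h3, h4⟩
  have h5 := hb h1
  rw [h2] at h5
  have h6 : (n : ℝ) < D := by exact_mod_cast h4
  have h7 : (0 : ℝ) ≤ n := Nat.cast_nonneg n
  have h8 : (D : ℝ) ^ 2 ≤ (n : ℝ) ^ 2 := by
    have : (D : ℝ) ^ 2 ≤ K ^ 2 := pow_le_pow_left₀ (Nat.cast_nonneg D) h 2
    simpa using this.trans h5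
  nlinarith

lemma kz_small {D : ℕ} {b : Bool} {n : ℕ} {a : ℤ} (h : IsHub b n a) (hn : n < D) :
    kz D b n a = n := by
  unfold kz
  rw [if_pos ⟨h.1, h.2.1, h.2.2, hn⟩]

lemma kz_large {D : ℕ} {b : Bool} {n : ℕ} {a : ℤ} (hn : D ≤ n) : kz D b n a = 0 := by
  unfold kz
  rw [if_neg]
  rintro ⟨_, _, _, h4⟩
  omega

/-! ### Configurations -/

section

variable (D : ℕ) (S : ℕ → ℂ → ℂ → ℂ) (s : ℂ → ℂ → ℂ) (ρ₀ τ₀ g : ℝ)

/-- `kz` of the root of a subtree -/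
noncomputable def kq (q : PB) : ℕ := kz D q.bl (q.nc + 1) q.wt

/-- the conditions at a child `q`; `k`, `ψ` belong to the parent -/
def CC (k : ℕ) (q : PB) (ψ : ℂ) : Prop :=
  CV D S s ρ₀ τ₀ g (kq D q) q ∧
    VCV ρ₀ τ₀ g (kq D q) q.bl q.wt q.rz
      (gv D S s (kq D q) q + deriv (fun w => pt S s k (kq D q) w ψ) q.rz) ∧
    (k ≠ 0 → kq D q = 0 ∧ ‖q.rz‖ ≤ g) ∧ (kq D q ≠ 0 → k = 0 ∧ ‖ψ‖ ≤ g)

/-- the value of a child -/
noncomputable def cval (k : ℕ) (q : PB) (ψ : ℂ) : ℂ :=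
  vt q.bl q.wt q.rz + vv D S s (kq D q) q + pt S s k (kq D q) q.rz ψ

/-- configurations of a product -/
def CfP (k : ℕ) (t : Tb) (F : ℂ → ℂ) (ψ : ℂ) : Prop :=
  ∃ p : PB, p.shape = t ∧ p.rz = ψ ∧ CV D S s ρ₀ τ₀ g k p ∧ F ψ = vv D S s k p ∧
    HasDerivAt F (gv D S s k p) ψ

/-- configurations of a child -/
def CfC (k : ℕ) (c : Tb) (F' : ℂ → ℂ) (ψ : ℂ) : Prop :=
  ∃ q : PB, q.shape = c ∧ CC D S s ρ₀ τ₀ g k q ψ ∧ F' ψ = cval D S s k q ψ ∧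
    HasDerivAt F' (deriv (fun w => pt S s k (kq D q) q.rz w) ψ) ψ

variable {D S s ρ₀ τ₀ g}

lemma cfp_zero (k : ℕ) (b : Bool) (a : ℤ) (ψ : ℂ) :
    CfP D S s ρ₀ τ₀ g k (.vx b a) (fun _ => 0) ψ :=
  ⟨.vx b a ψ, rfl, rfl, trivial, rfl, by simpa [gv] using hasDerivAt_const ψ (0 : ℂ)⟩

lemma cfp_succ {k : ℕ} {t c : Tb} {F F' : ℂ → ℂ} {ψ : ℂ} (h1 : CfP D S s ρ₀ τ₀ g k t F ψ)
    (h2 : CfC D S s ρ₀ τ₀ g k c F' ψ) :
    CfP D S s ρ₀ τ₀ g k (.br t c) (fun ψ => F ψ + F' ψ) ψ := by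
  obtain ⟨p, p1, p2, p3, p4, p5⟩ := h1
  obtain ⟨q, q1, ⟨q2, q3, q4, q5⟩, q6, q7⟩ := h2
  refine ⟨.br p q, by simp [PB.shape, p1, q1], p2, ⟨p3, q2, ?_, ?_, ?_⟩, ?_, ?_⟩
  · rw [p2]
    exact q3
  · exact q4
  · rw [p2]
    exact q5
  · show F ψ + F' ψ = vv D S s k p + (vt q.bl q.wt q.rz + vv D S s (kq D q) q +
      pt S s k (kq D q) q.rz p.rz)
    rw [p2, p4, q6]
    rfl
  · show HasDerivAt (fun ψ => F ψ + F' ψ) (gv D S s k p +
      deriv (fun w => pt S s k (kq D q) q.rz w) p.rz) ψ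
    rw [p2]
    exact p5.add q7

lemma kq_of {q : PB} {c : Tb} (h : q.shape = c) : kq D q = kz D c.bl (c.nc + 1) c.wt := by
  unfold kq
  rw [← h, shape_nc, pb_wt, pb_bl]

/-- child: a vertex near `0`; the parent is near `0` -/
lemma cfc_00 {c : Tb} (hk : kz D c.bl (c.nc + 1) c.wt = 0) {F F' : ℂ → ℂ} {ψ z : ℂ}
    (h : CfP D S s ρ₀ τ₀ g 0 c F z)
    (h1 : c.bl = true → z = 0)
    (h2 : c.bl = false → CPu ρ₀ τ₀ (1 / 10) z ∧ Complex.I * c.wt * z / (2 * π) + Complex.I +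
      deriv F z + deriv (fun w => s w ψ) z = 0)
    (h3 : F' ψ = vt c.bl c.wt z + F z + s z ψ)
    (h4 : HasDerivAt F' (deriv (fun w => s z w) ψ) ψ) : CfC D S s ρ₀ τ₀ g 0 c F' ψ := by
  obtain ⟨q, q1, q2, q3, q4, q5⟩ := h
  have e1 : kq D q = 0 := by rw [kq_of q1, hk]
  have ew : q.wt = c.wt := by rw [← pb_wt q, q1]
  have eb : q.bl = c.bl := by rw [← pb_bl q, q1]
  refine ⟨q, q1, ⟨?_, ⟨fun _ => ⟨?_, ?_⟩, ?_⟩, ?_, ?_⟩, ?_, ?_⟩
  · rw [e1]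
    exact q3
  · intro hb
    rw [q2]
    exact h1 (eb ▸ hb)
  · intro hb
    obtain ⟨a1, a2⟩ := h2 (eb ▸ hb)
    rw [q2]
    refine ⟨a1, ?_⟩
    rw [e1, ew, ← q5.deriv]
    have e2 : (fun w => pt S s 0 0 w ψ) = fun w => s w ψ := by
      funext w
      simp [pt]
    rw [e2, ← add_assoc]
    exact a2
  · intro h
    exact absurd e1 h
  · intro h
    exact absurd rfl h
  · intro h
    exact absurd e1 h
  · unfold cval
    rw [e1, q2, ew, eb, ← q4, h3]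
    simp [pt]
  · rw [e1, q2]
    have e2 : (fun w => pt S s 0 0 z w) = fun w => s z w := by
      funext w
      simp [pt]
    rw [e2]
    exact h4

/-- child: a vertex near `0`; the parent is a small hub -/
lemma cfc_k0 {k : ℕ} (hk0 : k ≠ 0) {c : Tb} (hk : kz D c.bl (c.nc + 1) c.wt = 0) {F F' : ℂ → ℂ}
    {ψ z : ℂ} (h : CfP D S s ρ₀ τ₀ g 0 c F z) (hz : ‖z‖ ≤ g)
    (h1 : c.bl = true → z = 0)
    (h2 : c.bl = false → CPu ρ₀ τ₀ (1 / 10) z ∧ Complex.I * c.wt * z / (2 * π) + Complex.I +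
      deriv F z + deriv (fun w => S k w ψ) z = 0)
    (h3 : F' ψ = vt c.bl c.wt z + F z + S k z ψ)
    (h4 : HasDerivAt F' (deriv (fun w => S k z w) ψ) ψ) : CfC D S s ρ₀ τ₀ g k c F' ψ := by
  obtain ⟨q, q1, q2, q3, q4, q5⟩ := h
  have e1 : kq D q = 0 := by rw [kq_of q1, hk]
  have ew : q.wt = c.wt := by rw [← pb_wt q, q1]
  have eb : q.bl = c.bl := by rw [← pb_bl q, q1]
  refine ⟨q, q1, ⟨?_, ⟨fun _ => ⟨?_, ?_⟩, ?_⟩, ?_, ?_⟩, ?_, ?_⟩
  · rw [e1]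
    exact q3
  · intro hb
    rw [q2]
    exact h1 (eb ▸ hb)
  · intro hb
    obtain ⟨a1, a2⟩ := h2 (eb ▸ hb)
    rw [q2]
    refine ⟨a1, ?_⟩
    rw [e1, ew, ← q5.deriv]
    have e2 : (fun w => pt S s k 0 w ψ) = fun w => S k w ψ := by
      funext w
      simp [pt, hk0]
    rw [e2, ← add_assoc]
    exact a2
  · intro h
    exact absurd e1 h
  · intro _
    exact ⟨e1, by rw [q2]; exact hz⟩
  · intro h
    exact absurd e1 h
  · unfold cval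
    rw [e1, q2, ew, eb, ← q4, h3]
    simp [pt, hk0]
  · rw [e1, q2]
    have e2 : (fun w => pt S s k 0 z w) = fun w => S k z w := by
      funext w
      simp [pt, hk0]
    rw [e2]
    exact h4

/-- child: a small hub; the parent is near `0` -/
lemma cfc_0k {k : ℕ} (hk0 : k ≠ 0) {c : Tb} (hk : kz D c.bl (c.nc + 1) c.wt = k)
    (hb : c.bl = false) (hw : c.wt = 0) {Φ F' : ℂ → ℂ}
    {ψ z : ℂ} (h : CfP D S s ρ₀ τ₀ g k c Φ z) (hψ : ‖ψ‖ ≤ g)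
    (hz : ‖z - et k * Complex.I‖ ≤ g)
    (h2 : Complex.I + (deriv Φ z + deriv (fun w => S k ψ w) z) = 0)
    (h3 : F' ψ = Complex.I * z + (Φ z + S k ψ z))
    (h4 : HasDerivAt F' (deriv (fun w => S k w z) ψ) ψ) : CfC D S s ρ₀ τ₀ g 0 c F' ψ := by
  obtain ⟨q, q1, q2, q3, q4, q5⟩ := h
  have e1 : kq D q = k := by rw [kq_of q1, hk]
  have ew : q.wt = 0 := by rw [← pb_wt q, q1, hw]
  have eb : q.bl = false := by rw [← pb_bl q, q1, hb]
  refine ⟨q, q1, ⟨?_, ⟨?_, fun _ => ⟨?_, ?_⟩⟩, ?_, ?_⟩, ?_, ?_⟩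
  · rw [e1]
    exact q3
  · intro h
    exact absurd h (by rw [e1]; exact hk0)
  · rw [e1, q2]
    exact hz
  · rw [e1, q2, ← q5.deriv]
    have e2 : (fun w => pt S s 0 k w ψ) = fun w => S k ψ w := by
      funext w
      simp [pt, hk0]
    rw [e2]
    exact h2
  · intro h
    exact absurd rfl h
  · intro _
    exact ⟨rfl, hψ⟩
  · unfold cval
    rw [e1, q2, ew, eb, ← q4, h3]
    simp [pt, hk0, vt]
    ring
  · rw [e1, q2]
    have e2 : (fun w => pt S s 0 k z w) = fun w => S k w z := by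
      funext w
      simp [pt, hk0]
    rw [e2]
    exact h4

end

end Pool.Agent.TH563.V
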