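import Pool.Agent.TH563.V.HubP

/-!
# Several hubs: the induction over the tree, second part
-/

set_option autoImplicit false
set_option maxHeartbeats 1000000

namespace Pool.Agent.TH563.V

open Finset Filter Topology Metric
open Pool.Agent.W711.HT hiding XX
open Pool.Agent.TH563.UV
open Pool.Agent.TH563.Z hiding gd
open Pool.Agent.W293.HT
open Pool.Agent.W719.AX (UX GX KXD cv)
open scoped Real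

/-- the constants of the two scales -/
structure CP where
  (ρ₀ τ₀ κ₀ ε₀ ρa τa a₀ b₀ κ₁ c₁ C₁ ρ₂ τ₂ g r₀ : ℝ)

section

variable (D : ℕ) (S : ℕ → ℂ → ℂ → ℂ) (s : ℂ → ℂ → ℂ) (q : CP) (h : ℕ → HP)

/-- product over the children of a root near `0`, small scale -/
def PV (t : Tb) : Prop := ∃ (F : ℂ → ℂ) (A : ℕ → ℂ → ℂ),
  GoodV q.a₀ q.b₀ q.κ₁ q.c₁ q.C₁ t.nc (XX t) F ∧ GX q.ρ₂ q.τ₂ t.ne (XX t) F A ∧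
  ∀ ψ ∈ Rc (3 * q.a₀) (3 * q.b₀), CfP D S s q.ρ₀ q.τ₀ q.g 0 t F ψ

/-- product over the children of a root near `0`, large scale -/
def PU (t : Tb) : Prop := ∃ (F : ℂ → ℂ) (A : ℕ → ℂ → ℂ),
  GoodU q.ρ₀ q.τ₀ q.κ₀ q.ε₀ s t.nc (XX t) F ∧ GX q.ρa q.τa t.ne (XX t) F A ∧
  ∀ ψ ∈ Rc (3 * q.ρ₀) (3 * q.τ₀), CfP D S s q.ρ₀ q.τ₀ q.g 0 t F ψ

/-- product over the children of a small hub -/
def PZ (k : ℕ) (t : Tb) : Prop := ∃ (PL : ℕ → ℂ → ℂ) (f : ℂ) (Φ : ℂ → ℂ) (A : ℕ → ℂ → ℂ),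
  0 ≤ f.re ∧ HubQ k (h k) (S k) t.nc (XX t) PL f Φ ∧
  GXZ (et k) (h k).ρ₃ (h k).τ₃ t.ne PL Φ A ∧
  ∀ φ ∈ Rz (et k) (3 * (h k).ρ') (3 * (h k).τ'), CfP D S s q.ρ₀ q.τ₀ q.g k t Φ φ

/-- child of a root near `0`, small scale -/
def ChV (c : Tb) : Prop := ∃ (F' : ℂ → ℂ) (A' : ℕ → ℂ → ℂ),
  GoodV q.a₀ q.b₀ q.κ₁ q.c₁ q.C₁ 1 (stpb c.bl c.wt (XX c)) F' ∧
  GX q.ρ₂ q.τ₂ (c.ne + 1) (stpb c.bl c.wt (XX c)) F' A' ∧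
  ∀ ψ ∈ Rc (3 * q.a₀) (3 * q.b₀), CfC D S s q.ρ₀ q.τ₀ q.g 0 c F' ψ

/-- child of a root near `0`, large scale -/
def ChU (c : Tb) : Prop := ∃ (F' : ℂ → ℂ) (A' : ℕ → ℂ → ℂ),
  GoodU q.ρ₀ q.τ₀ q.κ₀ q.ε₀ s 1 (stpb c.bl c.wt (XX c)) F' ∧
  GX q.ρa q.τa (c.ne + 1) (stpb c.bl c.wt (XX c)) F' A' ∧
  ∀ ψ ∈ Rc (3 * q.ρ₀) (3 * q.τ₀), CfC D S s q.ρ₀ q.τ₀ q.g 0 c F' ψ

/-- child of a small hub -/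
def ChK (k : ℕ) (c : Tb) : Prop := ∃ (YL : ℕ → ℂ → ℂ) (f₀ : ℂ) (F' : ℂ → ℂ) (A' : ℕ → ℂ → ℂ),
  0 ≤ f₀.re ∧ ChZ (et k) (h k).ε (h k).ρ' (h k).τ' (h k).κ (h k).x₀ (h k).δ (h k).ε₁ (S k)
    (stpb c.bl c.wt (XX c)) YL f₀ F' ∧
  GXZ (et k) (h k).ρ₃ (h k).τ₃ (c.ne + 1) YL F' A' ∧
  ∀ φ ∈ Rz (et k) (3 * (h k).ρ') (3 * (h k).τ'), CfC D S s q.ρ₀ q.τ₀ q.g k c F' φ

variable {D S s q h}

lemma ne_br (t c : Tb) : (Tb.br t c).ne = t.ne + (c.ne + 1) := by simp only [Tb.ne]; ring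

lemma pv_zero (ha : 0 < q.a₀) (hb : 0 < q.b₀)
    (h0x : ∃ A : ℕ → ℂ → ℂ, GX q.ρ₂ q.τ₂ 0 (fun _ _ => 1) (fun _ => 0) A) (b : Bool) (a : ℤ) :
    PV D S s q (.vx b a) := by
  obtain ⟨A, hA⟩ := h0x
  exact ⟨fun _ => 0, A, gv_one ha hb, hA, fun ψ _ => cfp_zero 0 b a ψ⟩

lemma pv_succ (ha : 0 < q.a₀) (hb : 0 < q.b₀)
    (hpx : ∀ (m m' : ℕ) (X Y : ℕ → ℂ → ℂ) (F G : ℂ → ℂ) (A B : ℕ → ℂ → ℂ),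
      GX q.ρ₂ q.τ₂ m X F A → GX q.ρ₂ q.τ₂ m' Y G B →
      ∃ C : ℕ → ℂ → ℂ, GX q.ρ₂ q.τ₂ (m + m') (fun N ψ => X N ψ * Y N ψ) (fun ψ => F ψ + G ψ) C)
    {t c : Tb} (h1 : PV D S s q t) (h2 : ChV D S s q c) : PV D S s q (.br t c) := by
  obtain ⟨F, A, a1, a2, a3⟩ := h1
  obtain ⟨F', A', b1, b2, b3⟩ := h2
  obtain ⟨A'', hA''⟩ := hpx _ _ _ _ _ _ _ _ a2 b2
  refine ⟨fun ψ => F ψ + F' ψ, A'', gv_mul ha hb a1 b1, ?_, fun ψ hψ => cfp_succ (a3 ψ hψ) (b3 ψ hψ)⟩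
  rw [ne_br]
  exact hA''

lemma pu_zero (h0 : GoodU q.ρ₀ q.τ₀ q.κ₀ q.ε₀ s 0 (fun _ _ => 1) (fun _ => 0))
    (h0x : ∃ A : ℕ → ℂ → ℂ, GX q.ρa q.τa 0 (fun _ _ => 1) (fun _ => 0) A) (b : Bool) (a : ℤ) :
    PU D S s q (.vx b a) := by
  obtain ⟨A, hA⟩ := h0x
  exact ⟨fun _ => 0, A, h0, hA, fun ψ _ => cfp_zero 0 b a ψ⟩

lemma pu_succ (hp : ∀ (t : ℕ) (X Y : ℕ → ℂ → ℂ) (F G : ℂ → ℂ),
      GoodU q.ρ₀ q.τ₀ q.κ₀ q.ε₀ s t X F → GoodU q.ρ₀ q.τ₀ q.κ₀ q.ε₀ s 1 Y G →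
      GoodU q.ρ₀ q.τ₀ q.κ₀ q.ε₀ s (t + 1) (fun N ψ => X N ψ * Y N ψ) (fun ψ => F ψ + G ψ))
    (hpx : ∀ (m m' : ℕ) (X Y : ℕ → ℂ → ℂ) (F G : ℂ → ℂ) (A B : ℕ → ℂ → ℂ),
      GX q.ρa q.τa m X F A → GX q.ρa q.τa m' Y G B →
      ∃ C : ℕ → ℂ → ℂ, GX q.ρa q.τa (m + m') (fun N ψ => X N ψ * Y N ψ) (fun ψ => F ψ + G ψ) C)
    {t c : Tb} (h1 : PU D S s q t) (h2 : ChU D S s q c) : PU D S s q (.br t c) := by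
  obtain ⟨F, A, a1, a2, a3⟩ := h1
  obtain ⟨F', A', b1, b2, b3⟩ := h2
  obtain ⟨A'', hA''⟩ := hpx _ _ _ _ _ _ _ _ a2 b2
  refine ⟨fun ψ => F ψ + F' ψ, A'', hp _ _ _ _ _ a1 b1, ?_,
    fun ψ hψ => cfp_succ (a3 ψ hψ) (b3 ψ hψ)⟩
  rw [ne_br]
  exact hA''

lemma pz_zero (k : ℕ) (b : Bool) (a : ℤ) : PZ D S s q h k (.vx b a) := by
  obtain ⟨A, hA⟩ := gxz_one (et k) (h k).ρ₃ (h k).τ₃
  exact ⟨fun _ _ => 1, 0, fun _ => 0, A, le_rfl, hub_zero _ _ _ _ _ _ _ _ _, hA,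
    fun φ _ => cfp_zero k b a φ⟩

lemma pz_succ (hR : S_REM) {k : ℕ} (hε : 0 < (h k).ε ∧ (h k).ε < 1 / 4) (hx₀ : 0 < (h k).x₀)
    (hx : (h k).x₀ < 2 * π * (h k).ε) {t c : Tb} (h1 : PZ D S s q h k t)
    (h2 : ChK D S s q h k c) : PZ D S s q h k (.br t c) := by
  obtain ⟨PL, f, Φ, A, a0, a1, a2, a3⟩ := h1
  obtain ⟨YL, f₀, F', A', b0, b1, b2, b3⟩ := h2
  obtain ⟨A'', hA''⟩ := gxz_mul a2 b2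
  refine ⟨_, f + f₀, fun φ => Φ φ + F' φ, A'', ?_, hub_succ hR hε hx₀ hx a1 b1, ?_,
    fun ψ hψ => cfp_succ (a3 ψ hψ) (b3 ψ hψ)⟩
  · rw [Complex.add_re]
    exact add_nonneg a0 b0
  · rw [ne_br]
    exact hA''

/-- from the large to the small scale -/
lemma chv_of_chu {c₀ C₀ : ℝ} {dl : ℂ → ℂ → ℂ} (hK : KD q.ρ₀ q.τ₀ q.κ₀ c₀ s dl)
    (hε₁ : q.ε₀ ≤ 1) (hε₂ : q.ε₀ ≤ c₀ * q.τ₀ ^ 2 / 16)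
    (hC₀ : ∀ ψ ∈ Rc (3 * q.ρ₀) (3 * q.τ₀), ∀ ψ' ∈ Rc (3 * q.ρ₀) (3 * q.τ₀), ‖s ψ ψ'‖ ≤ C₀)
    (ha : 0 < q.a₀) (hb : 0 < q.b₀) (ha₁ : q.a₀ ≤ q.ρ₀) (hb₁ : q.b₀ ≤ q.τ₀)
    (hκ : q.κ₁ ≤ q.κ₀) (hκ' : q.κ₁ / 2 < c₀ / 2 / 2 * q.a₀ ^ 2) (hc : q.c₁ ≤ c₀ / 2)
    (hC : 8 * (1 + 3 * C₀) / q.τ₀ ^ 2 ≤ q.C₁) (hρ : q.ρ₂ ≤ q.ρa) (hτ : q.τ₂ ≤ q.τa) {c : Tb}
    (h1 : ChU D S s q c) : ChV D S s q c := by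
  obtain ⟨F', A', b1, b2, b3⟩ := h1
  have hρ0 := hK.hρ.1
  have hτ0 := hK.hτ.1
  have hc0 := hK.hc
  have h00 : (0 : ℂ) ∈ Rc (3 * q.ρ₀) (3 * q.τ₀) := by
    refine ⟨?_, ?_⟩
    · rw [Complex.zero_re, abs_zero]; linarith
    · rw [Complex.zero_im, abs_zero]; linarith
  have hC00 : 0 ≤ C₀ := (norm_nonneg _).trans (hC₀ 0 h00 0 h00)
  have e1 := gv_of_gu hK hε₁ hε₂ hC₀ b1
  have e2 := gv_restrict hρ0 hτ0 (by positivity) (by positivity) e1 ha ha₁ hb hb₁ hκ hκ'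
  refine ⟨F', A', gv_mono e2 le_rfl hc hC, gx_mono b2 hρ hτ, ?_⟩
  intro ψ hψ
  exact b3 ψ (Rc_mono (by linarith) (by linarith) hψ)

/-- a big child of a root near `0` -/
lemma chu_big {K : ℝ} (hD : (D : ℝ) ≤ K) (ha : 0 < q.a₀) (hb : 0 < q.b₀) (ha₁ : q.a₀ ≤ q.ρ₀)
    (hb₁ : q.b₀ ≤ q.τ₀) (hr₀ : q.r₀ ≤ 1 / 10)
    (hkid : ∀ (t m : ℕ) (X : ℕ → ℂ → ℂ) (F : ℂ → ℂ) (A : ℕ → ℂ → ℂ),
      GoodV q.a₀ q.b₀ q.κ₁ q.c₁ q.C₁ t X F → GX q.ρ₂ q.τ₂ m X F A →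
      ∀ (b : Bool) (a : ℤ), (b = false → K ^ 2 ≤ ((t + 1 : ℕ) : ℝ) ^ 2 + (a : ℝ) ^ 2) →
      ∃ (F' zs : ℂ → ℂ) (A' : ℕ → ℂ → ℂ),
        GoodU q.ρ₀ q.τ₀ q.κ₀ q.ε₀ s 1 (stpb b a X) F' ∧ GX q.ρa q.τa (m + 1) (stpb b a X) F' A' ∧
        ∀ ψ ∈ Rc (3 * q.ρ₀) (3 * q.τ₀), zs ψ ∈ Rc (3 * q.a₀) (3 * q.b₀) ∧ ‖zs ψ‖ ≤ q.r₀ ∧
          (b = true → zs ψ = 0) ∧
          (b = false → CPu q.a₀ q.b₀ q.r₀ (zs ψ) ∧ Complex.I * a * zs ψ / (2 * π) + Complex.I +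
            deriv F (zs ψ) + deriv (fun w => s w ψ) (zs ψ) = 0) ∧
          F' ψ = vt b a (zs ψ) + F (zs ψ) + s (zs ψ) ψ ∧
          HasDerivAt F' (deriv (fun w => s (zs ψ) w) ψ) ψ)
    {c : Tb} (hbig : Tb.BigV K c.bl (c.nc + 1) c.wt) (h1 : PV D S s q c) : ChU D S s q c := by
  obtain ⟨F, A, a1, a2, a3⟩ := h1
  obtain ⟨F', zs, A', b1, b2, b3⟩ := hkid c.nc c.ne (XX c) F A a1 a2 c.bl c.wt hbig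
  refine ⟨F', A', b1, b2, ?_⟩
  intro ψ hψ
  obtain ⟨z1, z2, z3, z4, z5, z6⟩ := b3 ψ hψ
  refine cfc_00 (kz_big hD hbig) (a3 _ z1) z3 (fun hb' => ?_) z5 z6
  obtain ⟨y1, y2⟩ := z4 hb'
  exact ⟨⟨Rc_mono ha₁ hb₁ y1.mem, y1.im, y1.sm.trans hr₀⟩, y2⟩

/-- a large hub as child -/
lemma chu_hub {K : ℝ} (hρ : 0 < q.ρ₀) (hτ : 0 < q.τ₀)
    (h1 : ∀ (t m : ℕ) (X : ℕ → ℂ → ℂ) (F : ℂ → ℂ) (A : ℕ → ℂ → ℂ),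
      GoodU q.ρ₀ q.τ₀ q.κ₀ q.ε₀ s t X F → GX q.ρa q.τa m X F A →
      ∀ a : ℤ, K ^ 2 ≤ ((t + 1 : ℕ) : ℝ) ^ 2 + (a : ℝ) ^ 2 →
        ∃ (F' : ℂ → ℂ) (zs : ℂ → ℂ) (A' : ℕ → ℂ → ℂ),
        GoodU q.ρ₀ q.τ₀ q.κ₀ q.ε₀ s 1 (stpb false a X) F' ∧
        GX q.ρa q.τa (m + 1) (stpb false a X) F' A' ∧
        ∀ ψ' ∈ Rc (3 * q.ρ₀) (3 * q.τ₀), CPu q.ρ₀ q.τ₀ (1 / 10) (zs ψ') ∧
          Complex.I * a * zs ψ' / (2 * π) + Complex.I + deriv F (zs ψ') +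
            deriv (fun w => s w ψ') (zs ψ') = 0 ∧
          F' ψ' = qq a F (zs ψ') + s (zs ψ') ψ' ∧
          HasDerivAt F' (deriv (fun w => s (zs ψ') w) ψ') ψ')
    (hK : 0 ≤ K) (hKD : K ≤ D) {c : Tb} (hh : IsHub c.bl (c.nc + 1) c.wt)
    (hn : D ≤ c.nc + 1) (h2 : PU D S s q c) : ChU D S s q c := by
  obtain ⟨F, A, a1, a2, a3⟩ := h2
  have hbig : K ^ 2 ≤ ((c.nc + 1 : ℕ) : ℝ) ^ 2 + (c.wt : ℝ) ^ 2 := by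
    have e1 : K ≤ ((c.nc + 1 : ℕ) : ℝ) := hKD.trans (by exact_mod_cast hn)
    have e2 : K ^ 2 ≤ ((c.nc + 1 : ℕ) : ℝ) ^ 2 := pow_le_pow_left₀ hK e1 2
    have e3 : (0 : ℝ) ≤ (c.wt : ℝ) ^ 2 := by positivity
    linarith
  obtain ⟨F', zs, A', b1, b2, b3⟩ := h1 c.nc c.ne (XX c) F A a1 a2 c.wt hbig
  refine ⟨F', A', by rw [hh.1]; exact b1, by rw [hh.1]; exact b2, ?_⟩
  intro ψ hψ
  obtain ⟨z1, z2, z3, z4⟩ := b3 ψ hψ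
  refine cfc_00 (kz_large hn) (a3 _ (Rc_subU hρ hτ z1.mem))
    (fun hb' => ?_) (fun _ => ⟨z1, z2⟩) ?_ z4
  · rw [hh.1] at hb'
    exact absurd hb' (by simp)
  · rw [z3, hh.1]
    simp [vt, qq]

/-- a big child of a small hub -/
lemma chk_big {K : ℝ} {k : ℕ} (hk : k ≠ 0) (hD : (D : ℝ) ≤ K) (ha : 0 < q.a₀) (hb : 0 < q.b₀)
    (ha₁ : q.a₀ ≤ q.ρ₀) (hb₁ : q.b₀ ≤ q.τ₀) (hr₀ : q.r₀ ≤ 1 / 10) (hr₁ : q.r₀ ≤ q.g)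
    (hkid : ∀ (t m : ℕ) (X : ℕ → ℂ → ℂ) (F : ℂ → ℂ) (A : ℕ → ℂ → ℂ),
      GoodV q.a₀ q.b₀ q.κ₁ q.c₁ q.C₁ t X F → GX q.ρ₂ q.τ₂ m X F A →
      ∀ (b : Bool) (a : ℤ), (b = false → K ^ 2 ≤ ((t + 1 : ℕ) : ℝ) ^ 2 + (a : ℝ) ^ 2) →
      ∃ (YL : ℕ → ℂ → ℂ) (f₀ : ℂ) (F' zs : ℂ → ℂ) (A' : ℕ → ℂ → ℂ), 0 ≤ f₀.re ∧
        ChZ (et k) (h k).ε (h k).ρ' (h k).τ' (h k).κ (h k).x₀ (h k).δ (h k).ε₁ (S k)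
          (stpb b a X) YL f₀ F' ∧ GXZ (et k) (h k).ρ₃ (h k).τ₃ (m + 1) YL F' A' ∧
        ∀ φ ∈ Rz (et k) (3 * (h k).ρ') (3 * (h k).τ'), zs φ ∈ Rc (3 * q.a₀) (3 * q.b₀) ∧
          ‖zs φ‖ ≤ q.r₀ ∧ (b = true → zs φ = 0) ∧
          (b = false → CPu q.a₀ q.b₀ q.r₀ (zs φ) ∧ Complex.I * a * zs φ / (2 * π) + Complex.I +
            deriv F (zs φ) + deriv (fun w => S k w φ) (zs φ) = 0) ∧
          F' φ = vt b a (zs φ) + F (zs φ) + S k (zs φ) φ ∧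
          HasDerivAt F' (deriv (fun w => S k (zs φ) w) φ) φ)
    {c : Tb} (hbig : Tb.BigV K c.bl (c.nc + 1) c.wt) (h1 : PV D S s q c) :
    ChK D S s q h k c := by
  obtain ⟨F, A, a1, a2, a3⟩ := h1
  obtain ⟨YL, f₀, F', zs, A', b0, b1, b2, b3⟩ := hkid c.nc c.ne (XX c) F A a1 a2 c.bl c.wt hbig
  refine ⟨YL, f₀, F', A', b0, b1, b2, ?_⟩
  intro φ hφ
  obtain ⟨z1, z2, z3, z4, z5, z6⟩ := b3 φ hφ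
  refine cfc_k0 hk (kz_big hD hbig) (a3 _ z1) (z2.trans hr₁) z3 (fun hb' => ?_) z5 z6
  obtain ⟨y1, y2⟩ := z4 hb'
  exact ⟨⟨Rc_mono ha₁ hb₁ y1.mem, y1.im, y1.sm.trans hr₀⟩, y2⟩

/-- a small hub as child -/
lemma chv_hub {k : ℕ} (hk : 3 ≤ k) {r c' C : ℝ} {dlk : ℂ → ℂ → ℂ} (hS : SDZ (et k) r c' C (S k) dlk)
    (ha3 : 3 * q.a₀ ≤ r) (hb3 : 3 * q.b₀ ≤ r) (h3 : 3 * (h k).ρ' ≤ r) (h3' : 3 * (h k).τ' ≤ r)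
    (hag : 3 * q.a₀ + 3 * q.b₀ ≤ q.g)
    (hst : HStep k (h k) (S k) q.g q.a₀ q.b₀ q.κ₁ q.c₁ q.C₁ q.ρ₂ q.τ₂) {c : Tb}
    (hh : IsHub c.bl (c.nc + 1) c.wt) (hkc : c.nc + 1 = k) (hkD : k < D)
    (h1 : PZ D S s q h k c) : ChV D S s q c := by
  obtain ⟨PL, f, Φ, A, a0, a1, a2, a3⟩ := h1
  have hn : c.nc = k - 1 := by omega
  rw [hn] at a1
  obtain ⟨F, zs, A', b1, b2, b3⟩ := hst (XX c) PL f Φ c.ne A a1 a0 a2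
  have hst0 : stpb c.bl c.wt (XX c) = stp 0 (XX c) := by
    rw [hh.1, hh.2.1, stpb_f]
  refine ⟨F, A', by rw [hst0]; exact b1, by rw [hst0]; exact b2, ?_⟩
  intro ψ hψ
  obtain ⟨z1, z2, z3, z4, z5⟩ := b3 ψ hψ
  have hψn : ‖ψ‖ ≤ q.g := by
    refine (Complex.norm_le_abs_re_add_abs_im ψ).trans ?_
    have := hψ.1
    have := hψ.2
    linarith
  have hψr : ψ ∈ Rc r r := Rc_mono ha3 hb3 hψ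
  have hzr : zs ψ ∈ Rz (et k) r r := Rz_mono h3 h3' z2
  obtain ⟨p, p1, p2, p3, p4, p5⟩ := a3 (zs ψ) z2
  refine cfc_0k (by omega) (by rw [hkc] at hh ⊢; exact kz_small hh hkD) hh.1 hh.2.1
    ⟨p, p1, p2, p3, p4, p5⟩ hψn z1 ?_ ?_ z5
  · have h5 : HasDerivAt (fun w => S k ψ w) (deriv (fun w => S k ψ w) (zs ψ)) (zs ψ) :=
      (hS.sder2 ψ hψr (zs ψ) hzr).differentiableAt.hasDerivAt
    have h6 : HasDerivAt (qz fun w => Φ w + S k ψ w)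
        (Complex.I + (gv D S s k p + deriv (fun w => S k ψ w) (zs ψ))) (zs ψ) := by
      unfold qz
      have h7 : HasDerivAt (fun w : ℂ => Complex.I * w) Complex.I (zs ψ) := by
        simpa using (hasDerivAt_id (zs ψ)).const_mul Complex.I
      exact h7.add (p5.add h5)
    rw [p5.deriv, ← h6.deriv]
    exact z3
  · rw [z4]
    rfl

end

/-- the induction -/
theorem main_ind {D : ℕ} {S : ℕ → ℂ → ℂ → ℂ} {s : ℂ → ℂ → ℂ} {q : CP} {h : ℕ → HP} {K : ℝ}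
    (v0 : ∀ b a, PV D S s q (.vx b a)) (u0 : ∀ b a, PU D S s q (.vx b a))
    (z0 : ∀ k b a, PZ D S s q h k (.vx b a))
    (v1 : ∀ t c, PV D S s q t → ChV D S s q c → PV D S s q (.br t c))
    (u1 : ∀ t c, PU D S s q t → ChU D S s q c → PU D S s q (.br t c))
    (z1 : ∀ k, 3 ≤ k → k < D → ∀ t c, PZ D S s q h k t → ChK D S s q h k c →
      PZ D S s q h k (.br t c))
    (uv : ∀ c, ChU D S s q c → ChV D S s q c)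
    (ub : ∀ c : Tb, Tb.BigV K c.bl (c.nc + 1) c.wt → PV D S s q c → ChU D S s q c)
    (uh : ∀ c : Tb, IsHub c.bl (c.nc + 1) c.wt → D ≤ c.nc + 1 → PU D S s q c → ChU D S s q c)
    (kb : ∀ k, 3 ≤ k → k < D → ∀ c : Tb, Tb.BigV K c.bl (c.nc + 1) c.wt → PV D S s q c →
      ChK D S s q h k c)
    (vh : ∀ c : Tb, IsHub c.bl (c.nc + 1) c.wt → c.nc + 1 < D → PZ D S s q h (c.nc + 1) c →
      ChV D S s q c) (t : Tb) :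
    (Ok K true t → PV D S s q t) ∧ (Ok K false t → PU D S s q t) ∧
      ∀ k, 3 ≤ k → k < D → Ok K false t → PZ D S s q h k t := by
  induction t with
  | vx b a => exact ⟨fun _ => v0 b a, fun _ => u0 b a, fun k _ _ _ => z0 k b a⟩
  | br t c iht ihc =>
    refine ⟨?_, ?_, ?_⟩
    · rintro ⟨h1, h2⟩
      refine v1 t c (iht.1 h1) ?_
      rcases h2 with ⟨h3, h4⟩ | ⟨-, h4, h5⟩
      · exact uv c (ub c h3 (ihc.1 h4))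
      · rcases lt_or_ge (c.nc + 1) D with h6 | h6
        · exact vh c h4 h6 (ihc.2.2 (c.nc + 1) h4.2.2 h6 h5)
        · exact uv c (uh c h4 h6 (ihc.2.1 h5))
    · rintro ⟨h1, h2⟩
      refine u1 t c (iht.2.1 h1) ?_
      rcases h2 with ⟨h3, h4⟩ | ⟨h3, -, -⟩
      · exact ub c h3 (ihc.1 h4)
      · exact absurd h3 (by simp)
    · rintro k hk hkD ⟨h1, h2⟩
      refine z1 k hk hkD t c (iht.2.2 k hk hkD h1) ?_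
      rcases h2 with ⟨h3, h4⟩ | ⟨h3, -, -⟩
      · exact kb k hk hkD c h3 (ihc.1 h4)
      · exact absurd h3 (by simp)

end Pool.Agent.TH563.V
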