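import Pool.Agent.TH558.J365
import Pool.Agent.TH563.V.Edge

/-!
# Several hubs: the kernel, with the bound for complex variables of the parent (as `kerzx`)
-/

set_option autoImplicit false

namespace Pool.Agent.TH563.V

open Finset Filter Topology Metric MeasureTheory
open Pool.Agent.W711.HT hiding XX
open Pool.Agent.TH563.UV
open Pool.Agent.TH563.Z hiding gd
open scoped Real
open Pool.Agent.TH563.Z.J365

/-- the bound of the lower part of the kernel away from the hub, first variable complex -/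
def FG2 (η ε ρ' τ' κ : ℝ) : Prop := ∃ τs : ℝ, 0 < τs ∧ ∀ᶠ N : ℕ in atTop, ∀ x y x' y' : ℝ,
  |x| ≤ π → |y| ≤ τs → ρ' ≤ |x'| → |x'| ≤ π → |y' - η| ≤ 3 * τ' →
    ‖kerL ε N (x + y * Complex.I) (x' + y' * Complex.I)‖ ≤ Real.exp (N * (AA η - κ))

/-- as `S_KERZX` -/
def S_KERV : Prop := ∀ η : ℝ, Adm η → ∀ (r c C : ℝ) (s dl : ℂ → ℂ → ℂ), SDZ η r c C s dl →
  ∃ ε : ℝ, FDZ η ε ∧ ∀ g : ℝ, 0 < g → ∃ (ρ τ ρ' τ' κ : ℝ), KDZ η ε ρ τ ρ' τ' κ c s dl ∧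
    3 * ρ ≤ g ∧ 3 * ρ' ≤ g ∧ FG2 η ε ρ' τ' κ

/-- as `kerzx` -/
theorem kerv : S_MWKZ → S_BNDZ → S_KERV := by
  intro hM hB η hη r c C s dl S
  obtain ⟨ε, hε0, hε1, hF, ρs, c₂, hρs, hρs1, hc₂, HB⟩ := hB η hη
  refine ⟨ε, hF, fun g hg => ?_⟩
  obtain ⟨r₁, hr₁, hr₁r, hmw⟩ := hM η ε hη hε0 hε1 hF r c C s dl S
  have hπ3 := Real.pi_gt_three
  have hbet := bet_pos
  have hη0 := hη.1
  have hAA := AA_ge hη0.le
  have hC := S.hC
  -- the sizes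
  obtain ⟨ρ, hρ, hρ14, hρr₁, hρρs, hρg⟩ : ∃ ρ : ℝ, 0 < ρ ∧ ρ ≤ 1 / 4 ∧ 3 * ρ ≤ r₁ ∧ ρ ≤ ρs ∧
      3 * ρ ≤ g := by
    refine ⟨min (min (1 / 4) (r₁ / 3)) (min ρs (g / 3)), by positivity, ?_, ?_, ?_, ?_⟩
    · exact (min_le_left _ _).trans (min_le_left _ _)
    · have := (min_le_left (min (1 / 4) (r₁ / 3)) (min ρs (g / 3))).trans (min_le_right _ _)
      linarith
    · exact (min_le_right _ _).trans (min_le_left _ _)
    · have := (min_le_right (min (1 / 4) (r₁ / 3)) (min ρs (g / 3))).trans (min_le_right _ _)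
      linarith
  obtain ⟨ρ', hρ', hρ'14, hρ'r₁, hρ'ρs, hρ'g, hρ'C, hρ'b⟩ : ∃ ρ' : ℝ, 0 < ρ' ∧ ρ' ≤ 1 / 4 ∧
      3 * ρ' ≤ r₁ ∧ ρ' ≤ ρs ∧ 3 * ρ' ≤ g ∧ C * (6 * ρ') ≤ c₂ * ρ ^ 2 / 4 ∧ C * (6 * ρ') ≤ bet := by
    refine ⟨min (min (min (1 / 4) (r₁ / 3)) (min ρs (g / 3)))
      (min (c₂ * ρ ^ 2 / 4 / (6 * C)) (bet / (6 * C))), by positivity, ?_, ?_, ?_, ?_, ?_, ?_⟩
    · exact ((min_le_left _ _).trans (min_le_left _ _)).trans (min_le_left _ _)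
    · have := ((min_le_left (min (min (1 / 4) (r₁ / 3)) (min ρs (g / 3)))
        (min (c₂ * ρ ^ 2 / 4 / (6 * C)) (bet / (6 * C)))).trans (min_le_left _ _)).trans
        (min_le_right _ _)
      linarith
    · exact ((min_le_left _ _).trans (min_le_right _ _)).trans (min_le_left _ _)
    · have := ((min_le_left (min (min (1 / 4) (r₁ / 3)) (min ρs (g / 3)))
        (min (c₂ * ρ ^ 2 / 4 / (6 * C)) (bet / (6 * C)))).trans (min_le_right _ _)).trans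
        (min_le_right _ _)
      linarith
    · have h1 := (min_le_right (min (min (1 / 4) (r₁ / 3)) (min ρs (g / 3)))
        (min (c₂ * ρ ^ 2 / 4 / (6 * C)) (bet / (6 * C)))).trans (min_le_left _ _)
      rw [le_div_iff₀ (by positivity)] at h1
      linarith
    · have h1 := (min_le_right (min (min (1 / 4) (r₁ / 3)) (min ρs (g / 3)))
        (min (c₂ * ρ ^ 2 / 4 / (6 * C)) (bet / (6 * C)))).trans (min_le_right _ _)
      rw [le_div_iff₀ (by positivity)] at h1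
      linarith
  obtain ⟨ε', hε', hε'1, hε'2⟩ : ∃ ε' : ℝ, 0 < ε' ∧ ε' ≤ c₂ * ρ ^ 2 / 8 ∧ ε' ≤ c₂ * ρ' ^ 2 / 8 :=
    ⟨min (c₂ * ρ ^ 2 / 8) (c₂ * ρ' ^ 2 / 8), by positivity, min_le_left _ _, min_le_right _ _⟩
  obtain ⟨κ, hκ, hκ1, hκ2, hκb⟩ : ∃ κ : ℝ, 0 < κ ∧ κ ≤ c₂ * ρ ^ 2 / 4 ∧ κ ≤ c₂ * ρ' ^ 2 / 4 ∧
      κ ≤ bet :=
    ⟨min (c₂ * ρ ^ 2 / 4) (min (c₂ * ρ' ^ 2 / 4) bet), by positivity, min_le_left _ _,
      (min_le_right _ _).trans (min_le_left _ _), (min_le_right _ _).trans (min_le_right _ _)⟩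
  obtain ⟨τε, hτε, hkb⟩ := kbz hε1 HB hε'
  obtain ⟨τ', hτ', hτ'ρ, hτ'η, hτ'ε⟩ : ∃ τ' : ℝ, 0 < τ' ∧ τ' ≤ ρ' ∧ 3 * τ' < η ∧ 3 * τ' ≤ τε := by
    refine ⟨min ρ' (min (η / 4) (τε / 3)), by positivity, min_le_left _ _, ?_, ?_⟩
    · have := (min_le_right ρ' (min (η / 4) (τε / 3))).trans (min_le_left _ _)
      linarith
    · have := (min_le_right ρ' (min (η / 4) (τε / 3))).trans (min_le_right _ _)
      linarith
  have hsub1 : Rc (3 * ρ) (3 * ρ) ⊆ Rc r₁ r₁ := fun z hz =>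
    ⟨hz.1.trans_le hρr₁, hz.2.trans_le hρr₁⟩
  have hsub2 : Rz η (3 * ρ') (3 * τ') ⊆ Rz η r₁ r₁ := fun z hz =>
    ⟨hz.1.trans_le hρ'r₁, hz.2.trans_le (by linarith)⟩
  have hsub3 : Rz η (3 * ρ') (3 * τ') ⊆ Rz η r r := fun z hz =>
    ⟨hz.1.trans_le (by linarith), hz.2.trans_le (by linarith)⟩
  have h0mem : (0 : ℂ) ∈ Rc r r := by
    have := S.hr.1
    refine ⟨?_, ?_⟩ <;> simp <;> positivity
  have hinv : ∀ t : ℝ, 0 < t → ∀ᶠ N : ℕ in atTop, 1 / (N : ℝ) ≤ t := by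
    intro t ht
    exact (tendsto_one_div_atTop_nhds_zero_nat.eventually_le_const ht)
  -- lower bound for `Re s(0,φ)`
  have hlow : ∀ φ ∈ Rz η (3 * ρ') (3 * τ'), AA η - C * (6 * ρ') ≤ (s 0 φ).re := by
    intro φ hφ
    have h1 := S.lip 0 h0mem φ (hsub3 hφ)
    have h2 : ‖φ - η * Complex.I‖ ≤ 6 * ρ' := by
      refine (Complex.norm_le_abs_re_add_abs_im _).trans ?_
      have e1 : (φ - η * Complex.I).re = φ.re := by simp
      have e2 : (φ - η * Complex.I).im = φ.im - η := by simp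
      rw [e1, e2]
      have := hφ.1
      have := hφ.2
      linarith
    rw [norm_zero, zero_add] at h1
    have h3 := (Complex.abs_re_le_norm _).trans (h1.trans (mul_le_mul_of_nonneg_left h2 hC.le))
    rw [Complex.sub_re, Complex.ofReal_re] at h3
    have := (abs_le.1 h3).1
    linarith
  have hmin : ∀ x t : ℝ, 0 < t → t ≤ ρs → t ≤ |x| → c₂ * t ^ 2 ≤ c₂ * min |x| ρs ^ 2 := by
    intro x t ht hts hx
    have h1 : t ≤ min |x| ρs := le_min hx hts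
    gcongr
  have hmin0 : ∀ x : ℝ, 0 ≤ c₂ * min |x| ρs ^ 2 := fun x => by positivity
  refine ⟨ρ, ρ, ρ', τ', κ, ?_, hρg, hρ'g, τε, hτε, ?_⟩
  swap
  · filter_upwards [hkb] with N hN x y x' y' hx hy hρx' hx' hy'
    refine (hN x y x' y' hx hy hx' (hy'.trans hτ'ε)).trans (Real.exp_le_exp.2 ?_)
    refine mul_le_mul_of_nonneg_left ?_ (Nat.cast_nonneg N)
    have h1 := hmin0 x
    have h2 := hmin x' ρ' hρ' hρ'ρs hρx'
    linarith
  refine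
    { hε := ⟨hε0, hε1⟩
      hρ := ⟨hρ, hρ14⟩
      hτ := ⟨hρ, le_rfl⟩
      hρ' := ⟨hρ', hρ'14⟩
      hτ' := ⟨hτ', hτ'ρ, hτ'η⟩
      hκ := ⟨hκ, hκb⟩
      hc := S.hc
      sdz := ⟨r, C, S, hρr₁.trans hr₁r, hρ'r₁.trans hr₁r⟩
      slow := ?_
      mw := ?_
      far1 := ?_
      farg := ?_ }
  · intro φ hφ
    have h1 := hlow φ hφ
    linarith
  · intro ε' hε'
    filter_upwards [hmw ε' hε'] with N hN ψ hψ φ hφ
    exact hN ψ (hsub1 hψ) φ (hsub2 hφ)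
  · filter_upwards [hkb, hinv τε hτε] with N hN hN1 x y hx hxπ hy φ hφ
    have hre : |φ.re| ≤ π := by
      have := hφ.1
      linarith
    have him : |φ.im - η| ≤ τε := by
      have := hφ.2
      linarith
    have h1 := hN x y φ.re φ.im hxπ (hy.trans hN1) hre him
    rw [Complex.re_add_im] at h1
    refine h1.trans (Real.exp_le_exp.2 ?_)
    refine mul_le_mul_of_nonneg_left ?_ (Nat.cast_nonneg N)
    have h2 := hmin x ρ hρ hρρs hx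
    have h3 := hmin0 φ.re
    have h4 := hlow φ hφ
    linarith
  · filter_upwards [hkb, hinv τε hτε] with N hN hN1 x y x' y' hx hy hρx' hx' hy'
    refine (hN x y x' y' hx (hy.trans hN1) hx' (hy'.trans hτ'ε)).trans (Real.exp_le_exp.2 ?_)
    refine mul_le_mul_of_nonneg_left ?_ (Nat.cast_nonneg N)
    have h1 := hmin0 x
    have h2 := hmin x' ρ' hρ' hρ'ρs hρx'
    linarith

end Pool.Agent.TH563.V
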