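import Pool.Agent.TH563.V.HubX

/-!
# Several hubs: one child of a small hub
-/

set_option autoImplicit false
set_option maxHeartbeats 1000000

namespace Pool.Agent.TH563.V

open Finset Filter Topology Metric
open Pool.Agent.W711.HT hiding XX
open Pool.Agent.TH563.UV
open Pool.Agent.TH563.Z hiding gd
open Pool.Agent.W85.HT hiding Rc_mono Rp_diff
open Pool.Agent.W293.HT
open Pool.Agent.W719.AX (UX GX KXD cv)
open Pool.Agent.TH219.J139 (Ub Ub_diff Ub_even)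
open Pool.Agent.TH929.J29 (UN_diff)
open scoped Real

lemma stL_stk {ε : ℝ} (h1 : ε < 1 / 4) (a : ℤ) {X : ℕ → ℂ → ℂ}
    (hX : ∀ N, Differentiable ℂ (X N)) : stL ε a X = stk a X (kerL ε) := by
  funext N φ
  exact stL_eq h1 a X hX N φ

lemma stp_stk (a : ℤ) (X : ℕ → ℂ → ℂ) : stp a X = stk a X Pool.Agent.W711.HT.ker := by
  funext N φ
  exact Pool.Agent.W85.HT.stp_eq a X N φ

lemma stpb_f (a : ℤ) (X : ℕ → ℂ → ℂ) : stpb false a X = stp a X := by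
  funext N ψ
  rw [Pool.Agent.TH219.J139.stpb_eq]
  have : (fun (N : ℕ) ψ => Ub false N ψ * X N ψ) = X := by
    funext N ψ
    show (1 : ℂ) * X N ψ = X N ψ
    rw [one_mul]
  rw [this]

lemma stpb_t (a : ℤ) (X : ℕ → ℂ → ℂ) : stpb true a X = stp a (fun N ψ => UN N ψ * X N ψ) := by
  funext N ψ
  rw [Pool.Agent.TH219.J139.stpb_eq]
  rfl

lemma mw_sub {Z : ℕ → ℂ → ℂ} {G : ℂ → ℂ} {S T : Set ℂ} (h : MW Z G T) (hs : S ⊆ T) :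
    MW Z G S := by
  intro ε hε
  filter_upwards [h ε hε] with N hN z hz
  exact hN z (hs hz)

/-- a child of a small hub, growth and expansions -/
theorem kidz (hVF : S_VF) (hVT : S_VT) (hVFX : S_VFX) (hVTX : S_VTX) (hH : S_HALF) {ρs : ℝ}
    (hρs : 0 < ρs) (hbnd : BND ρs) {η ε ρ τ ρ' τ' κ c' : ℝ} {s' dl' : ℂ → ℂ → ℂ}
    (hZ : KDZ η ε ρ τ ρ' τ' κ c' s' dl') {a₀ b₀ κe C : ℝ}
    (hE : ED a₀ b₀ κe c' C (Rz η (3 * ρ') (3 * τ')) (kerL ε) s') {x₀ δ ε₁ r₀ : ℝ}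
    (hx₀ : 0 < x₀) (hδ : δ < c1 * min x₀ ρs ^ 2) (hε₁ : 0 < ε₁) (hr₀ : 0 < r₀)
    {κ₁ c₁ C₁ : ℝ} (hκ₁ : 0 < κ₁) (hc₁ : 0 < c₁) (hC₁ : 0 < C₁)
    {ρ₂ τ₂ ρ₃ τ₃ ρb τb : ℝ} {Az : ℕ → ℂ × ℂ → ℂ} (hAz : KXZ η ε ρb τb ρ₃ τ₃ s' Az)
    (hρ₂0 : 0 < ρ₂) (hτ₂0 : 0 < τ₂) (hρ₂ : ρ₂ ≤ a₀)
    (hτ₂ : τ₂ ≤ b₀) (hρb : ρ₂ ≤ ρb) (hτb : τ₂ ≤ τb) (hρ₃ : ρ₃ ≤ ρ') (hτ₃ : τ₃ ≤ τ')
    (hr₀' : r₀ < min ρ₂ τ₂ / 4) :
    ∃ K : ℝ, 0 < K ∧ ∀ (t m : ℕ) (X : ℕ → ℂ → ℂ) (F : ℂ → ℂ) (A : ℕ → ℂ → ℂ),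
      GoodV a₀ b₀ κ₁ c₁ C₁ t X F → GX ρ₂ τ₂ m X F A →
      ∀ (b : Bool) (a : ℤ), (b = false → K ^ 2 ≤ ((t + 1 : ℕ) : ℝ) ^ 2 + (a : ℝ) ^ 2) →
      ∃ (YL : ℕ → ℂ → ℂ) (f₀ : ℂ) (F' zs : ℂ → ℂ) (A' : ℕ → ℂ → ℂ), 0 ≤ f₀.re ∧
        ChZ η ε ρ' τ' κ x₀ δ ε₁ s' (stpb b a X) YL f₀ F' ∧ GXZ η ρ₃ τ₃ (m + 1) YL F' A' ∧
        ∀ φ ∈ Rz η (3 * ρ') (3 * τ'), zs φ ∈ Rc (3 * a₀) (3 * b₀) ∧ ‖zs φ‖ ≤ r₀ ∧
          (b = true → zs φ = 0) ∧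
          (b = false → CPu a₀ b₀ r₀ (zs φ) ∧ Complex.I * a * zs φ / (2 * π) + Complex.I +
            deriv F (zs φ) + deriv (fun w => s' w φ) (zs φ) = 0) ∧
          F' φ = vt b a (zs φ) + F (zs φ) + s' (zs φ) φ ∧
          HasDerivAt F' (deriv (fun w => s' (zs φ) w) φ) φ := by
  have ha₀ := hE.hρ.1
  have hb₀ := hE.hτ.1
  have hκe := hE.hκ.1
  have hρ' := hZ.hρ'.1
  have hτ' := hZ.hτ'.1
  have hρ30 := hAz.hρ'
  have hτ30 := hAz.hτ'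
  obtain ⟨K, hK0, hcp⟩ := hVF a₀ b₀ κe c' C _ _ _ hE κ₁ c₁ C₁ hκ₁ hc₁ hC₁ r₀ (min ε₁ (κe / 16))
    hr₀ (lt_min hε₁ (by positivity))
  refine ⟨K, hK0, ?_⟩
  intro t m X F A hX hA b a hbig
  have hB : XB X (F 0).re := xb_gv ha₀ hb₀ hκ₁.le hc₁.le hC₁.le hX
  have hKK : Kz η (2 * ρ') (2 * τ') ⊆ Rz η (3 * ρ') (3 * τ') := by
    intro w hw
    rw [Kz_mem] at hw
    exact ⟨by linarith [hw.1], by linarith [hw.2]⟩
  have hRK : Rz η (2 * ρ') (2 * τ') ⊆ Kz η (2 * ρ') (2 * τ') := by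
    intro w hw
    rw [Kz_mem]
    exact ⟨hw.1.le, hw.2.le⟩
  have hKK3 : Kz η ρ₃ τ₃ ⊆ Rz η (3 * ρ') (3 * τ') := by
    intro w hw
    rw [Kz_mem] at hw
    exact ⟨by linarith [hw.1], by linarith [hw.2]⟩
  have hRK3 : Rz η ρ₃ τ₃ ⊆ Kz η ρ₃ τ₃ := by
    intro w hw
    rw [Kz_mem]
    exact ⟨hw.1.le, hw.2.le⟩
  have hKX := kxg_z hAz hρ₂0 hρb hτ₂0 hτb
  have hY : stpb b a X = stp a (fun N ψ => Ub b N ψ * X N ψ) := by
    funext N ψ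
    exact Pool.Agent.TH219.J139.stpb_eq b a X N ψ
  obtain ⟨X', hX'⟩ : ∃ X' : ℕ → ℂ → ℂ, X' = fun N ψ => Ub b N ψ * X N ψ := ⟨_, rfl⟩
  have hB' : XB X' (F 0).re := by rw [hX']; exact xb_ub b hB
  have hXd : ∀ N, Differentiable ℂ (X' N) := by
    intro N
    rw [hX']
    exact (Ub_diff b N).mul (hX.an N)
  obtain ⟨st1, st2⟩ := Pool.Agent.W398.HT.t_STPE a X' hXd
  have hfar := child_far (a := a) hXd hB' hZ
  have hout := child_out (a := a) hXd hB' hρs hbnd hZ.hε.2 hx₀ hδ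
  have hdec := child_dec (a := a) hXd hB' hH hZ.hε.1
  rw [hY, ← hX']
  have hsplit : ∀ N φ, stp a X' N φ = stL ε a X' N φ +
      ∑ d ∈ Ico (cut ε N) N, Rp N d φ / (Sd N d : ℂ) ^ 4 * Md a X' N d :=
    fun N φ => stp_split hZ.hε.2 a X' hXd N φ
  have hstk := stL_stk hZ.hε.2 a hXd
  cases b with
  | false =>
    have hXX : X' = X := by
      rw [hX']
      funext N ψ
      show (1 : ℂ) * X N ψ = X N ψ
      rw [one_mul]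
    rw [hXX] at hstk
    obtain ⟨F', zs, hF1, hz1, hF2, -, hF3, hmw⟩ := hcp t X F hX a (hbig rfl)
    obtain ⟨A', hA'⟩ := hVFX a₀ b₀ κe c' C _ _ _ hE κ₁ c₁ C₁ hκ₁ hc₁ hC₁ t X F hX ρ₂ τ₂
      (Rz η ρ₃ τ₃) (Kz η ρ₃ τ₃) Az hρ₂ hτ₂ hKX (Kz_compact _ _ _) hRK3 hKK3 m A hA a r₀ F' zs
      hr₀' hF1 hz1 (fun φ hφ => (hF2 φ hφ).trans (min_le_right _ _))
      (fun φ hφ => ⟨(hF3 φ hφ).1, (hF3 φ hφ).2.1, (hF3 φ hφ).2.2.2.1⟩)
      (fun N => by rw [← hstk]; exact (stL_diff ε a X N).differentiableOn)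
    refine ⟨stL ε a X', F 0, F', zs, A', hX.pos, ?_, ?_, ?_⟩
    · refine ⟨st1, stL_diff ε a X', st2, stL_even ε a X', stp_per a X' hXd, stL_per ε a X', hF1,
        fun φ hφ => (hF2 φ hφ).trans (min_le_left _ _), ?_, hfar, hout,
        ⟨Md a X', hsplit, hdec⟩⟩
      rw [hXX, hstk]
      exact mw_sub (hmw _ (Kz_compact _ _ _) hKK) hRK
    · rw [hXX, hstk]
      exact gxz_of_gxg hA'
    · intro φ hφ
      obtain ⟨p1, p2, p3, p4, p5⟩ := hF3 φ hφ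
      refine ⟨Rc_mono (by linarith) (by linarith) p1.mem, p1.sm, fun h => absurd h (by simp),
        fun _ => ⟨p1, p3⟩, ?_, p5⟩
      rw [p4]
      simp [vt, qq]
  | true =>
    have hXX : X' = fun N ψ => UN N ψ * X N ψ := by
      rw [hX']
      rfl
    rw [hXX] at hstk
    have h00 : (0 : ℂ) ∈ Rc (3 * a₀) (3 * b₀) := zero_mem_Rc (by linarith) (by linarith)
    have hf0 : (F 0 + π * Complex.I).re = (F 0).re := by
      rw [Complex.add_re]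
      simp
    have hmw := hVT a₀ b₀ κe c' C _ _ _ hE κ₁ c₁ C₁ hκ₁ hc₁ hC₁ t X F hX a _ (Kz_compact _ _ _)
      hKK
    obtain ⟨A', hA'⟩ := hVTX a₀ b₀ κe c' C _ _ _ hE κ₁ c₁ C₁ hκ₁ hc₁ hC₁ t X F hX ρ₂ τ₂
      (Rz η ρ₃ τ₃) (Kz η ρ₃ τ₃) Az hρ₂ hτ₂ hKX (Kz_compact _ _ _) hRK3 hKK3 m A hA a
      (fun N => by rw [← hstk]; exact (stL_diff ε a _ N).differentiableOn)
    have hsd : DifferentiableOn ℂ (fun φ => s' 0 φ) (Rz η (3 * ρ') (3 * τ')) := by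
      have h1 : DifferentiableOn ℂ (fun w : ℂ => ((0 : ℂ), w)) (Rz η (3 * ρ') (3 * τ')) :=
        ((differentiable_const _).prodMk differentiable_id).differentiableOn
      exact hE.san.comp h1 (fun w hw => ⟨h00, hw⟩)
    refine ⟨stL ε a X', F 0 + π * Complex.I, fun φ => F 0 + π * Complex.I + s' 0 φ, fun _ => 0,
      A', by rw [hf0]; exact hX.pos, ?_, ?_, ?_⟩
    · refine ⟨st1, stL_diff ε a X', st2, stL_even ε a X', stp_per a X' hXd, stL_per ε a X', ?_,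
        ?_, ?_, ?_, ?_, ⟨Md a X', hsplit, ?_⟩⟩
      · exact (differentiableOn_const _).add hsd
      · intro φ _
        have e : F 0 + π * Complex.I + s' 0 φ - (F 0 + π * Complex.I) - s' 0 φ = 0 := by ring
        rw [e, norm_zero]
        exact hε₁.le
      · rw [hXX, hstk]
        exact mw_sub hmw hRK
      · rw [hf0]
        exact hfar
      · rw [hf0]
        exact hout
      · rw [hf0]
        exact hdec
    · rw [hXX, hstk]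
      exact gxz_of_gxg hA'
    · intro φ hφ
      refine ⟨h00, by rw [norm_zero]; exact hr₀.le,
        fun _ => rfl, fun h => absurd h (by simp), ?_, ?_⟩
      · show F 0 + π * Complex.I + s' 0 φ = vt true a 0 + F 0 + s' 0 φ
        simp only [vt, if_true]
        ring
      · have h1 : HasDerivAt (fun w => s' 0 w) (deriv (fun w => s' 0 w) φ) φ :=
          (hsd.differentiableAt ((isOpen_Rz _ _ _).mem_nhds hφ)).hasDerivAt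
        exact h1.const_add _

end Pool.Agent.TH563.V
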