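import Pool.Agent.TH563.V.Ind2

/-!
# Several hubs: the analytic main theorem
-/

set_option autoImplicit false
set_option maxHeartbeats 1000000

namespace Pool.Agent.TH563.V

open Finset Filter Topology Metric
open Pool.Agent.W711.HT hiding XX
open Pool.Agent.TH563.UV
open Pool.Agent.TH563.Z hiding gd
open Pool.Agent.W293.HT
open Pool.Agent.W719.AX (UX GX KXD cv)
open scoped Real

/-- one small number for finitely many conditions -/
lemma fin_min {P : ℕ → ℝ → Prop} (hm : ∀ k x y, 0 < x → x ≤ y → P k y → P k x) (D : ℕ)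
    (h : ∀ k, 3 ≤ k → k < D → ∃ x : ℝ, 0 < x ∧ P k x) :
    ∃ x : ℝ, 0 < x ∧ ∀ k, 3 ≤ k → k < D → P k x := by
  induction D with
  | zero => exact ⟨1, one_pos, fun k _ h1 => absurd h1 (Nat.not_lt_zero _)⟩
  | succ D ih =>
    obtain ⟨x, hx, h1⟩ := ih (fun k h2 h3 => h k h2 (by omega))
    by_cases hD : 3 ≤ D
    · obtain ⟨y, hy, h2⟩ := h D hD (Nat.lt_succ_self D)
      refine ⟨min x y, lt_min hx hy, fun k h3 h4 => ?_⟩
      rcases Nat.lt_succ_iff_lt_or_eq.1 h4 with h5 | h5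
      · exact hm k _ x (lt_min hx hy) (min_le_left _ _) (h1 k h3 h5)
      · rw [h5]
        exact hm D _ y (lt_min hx hy) (min_le_right _ _) h2
    · refine ⟨x, hx, fun k h3 h4 => ?_⟩
      exact h1 k h3 (by omega)

/-- one large number for finitely many conditions -/
lemma fin_max {P : ℕ → ℝ → Prop} (hm : ∀ k x y, 0 < x → x ≤ y → P k x → P k y) (D : ℕ)
    (h : ∀ k, 3 ≤ k → k < D → ∃ x : ℝ, 0 < x ∧ P k x) :
    ∃ x : ℝ, 0 < x ∧ ∀ k, 3 ≤ k → k < D → P k x := by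
  induction D with
  | zero => exact ⟨1, one_pos, fun k _ h1 => absurd h1 (Nat.not_lt_zero _)⟩
  | succ D ih =>
    obtain ⟨x, hx, h1⟩ := ih (fun k h2 h3 => h k h2 (by omega))
    by_cases hD : 3 ≤ D
    · obtain ⟨y, hy, h2⟩ := h D hD (Nat.lt_succ_self D)
      refine ⟨max x y, lt_max_of_lt_left hx, fun k h3 h4 => ?_⟩
      rcases Nat.lt_succ_iff_lt_or_eq.1 h4 with h5 | h5
      · exact hm k x _ hx (le_max_left _ _) (h1 k h3 h5)
      · rw [h5]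
        exact hm D y _ hy (le_max_right _ _) h2
    · refine ⟨x, hx, fun k h3 h4 => ?_⟩
      exact h1 k h3 (by omega)

/-- the expansion of the invariants is given by a critical configuration -/
def S_MAINV : Prop := ∃ (ρ τ κ c : ℝ) (s dl : ℂ → ℂ → ℂ), KD ρ τ κ c s dl ∧
  ∃ (D : ℕ) (S : ℕ → ℂ → ℂ → ℂ),
  (∀ k, 3 ≤ k → k < D → Adm (et k) ∧ ∃ (r c' C : ℝ) (dl' : ℂ → ℂ → ℂ),
    SDZ (et k) r c' C (S k) dl') ∧ ∀ g : ℝ, 0 < g →
  ∃ K : ℝ, 0 < K ∧ ∀ t : Tb, OkT K t → 1 ≤ t.nc →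
    ∃ (p : PB) (y : ℕ → ℂ), p.shape = t ∧ CV D S s ρ τ g (kz D p.bl p.nc p.wt) p ∧
      VCV ρ τ g (kz D p.bl p.nc p.wt) p.bl p.wt p.rz (gv D S s (kz D p.bl p.nc p.wt) p) ∧
      y 0 ≠ 0 ∧
      UX (fun N (_ : Unit) => (N : ℂ) ^ (2 * t.ne) * (Real.sqrt N : ℂ) * (-1) ^ (N * (t.ne + 1)) *
        Complex.exp (-(N * (vt p.bl p.wt p.rz + vv D S s (kz D p.bl p.nc p.wt) p))) * JT t N)
        (fun k _ => y k) Set.univ

/-- conclusions at the root, root near `0` -/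
lemma root_0 {D : ℕ} {S : ℕ → ℂ → ℂ → ℂ} {s : ℂ → ℂ → ℂ} {ρ τ g : ℝ} {t : Tb}
    (hk : kz D t.bl t.nc t.wt = 0) {F : ℂ → ℂ} {z v : ℂ} {y : ℕ → ℂ}
    (hcf : CfP D S s ρ τ g 0 t F z) (h1 : t.bl = true → z = 0)
    (h2 : t.bl = false → CPu ρ τ (1 / 10) z ∧
      Complex.I * t.wt * z / (2 * π) + Complex.I + deriv F z = 0)
    (hv : v = vt t.bl t.wt z + F z) (hy : y 0 ≠ 0)
    (hux : UX (fun N (_ : Unit) => (N : ℂ) ^ (2 * t.ne) * (Real.sqrt N : ℂ) *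
      (-1) ^ (N * (t.ne + 1)) * Complex.exp (-(N * v)) * JT t N) (fun k _ => y k) Set.univ) :
    ∃ (p : PB) (y : ℕ → ℂ), p.shape = t ∧ CV D S s ρ τ g (kz D p.bl p.nc p.wt) p ∧
      VCV ρ τ g (kz D p.bl p.nc p.wt) p.bl p.wt p.rz (gv D S s (kz D p.bl p.nc p.wt) p) ∧
      y 0 ≠ 0 ∧
      UX (fun N (_ : Unit) => (N : ℂ) ^ (2 * t.ne) * (Real.sqrt N : ℂ) * (-1) ^ (N * (t.ne + 1)) *
        Complex.exp (-(N * (vt p.bl p.wt p.rz + vv D S s (kz D p.bl p.nc p.wt) p))) * JT t N)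
        (fun k _ => y k) Set.univ := by
  obtain ⟨p, p1, p2, p3, p4, p5⟩ := hcf
  have ew : p.wt = t.wt := by rw [← pb_wt p, p1]
  have eb : p.bl = t.bl := by rw [← pb_bl p, p1]
  have en : p.nc = t.nc := by rw [← shape_nc p, p1]
  have e1 : kz D p.bl p.nc p.wt = 0 := by rw [eb, en, ew, hk]
  refine ⟨p, y, p1, by rw [e1]; exact p3, ?_, hy, ?_⟩
  · rw [e1]
    refine ⟨fun _ => ⟨?_, ?_⟩, fun h => absurd rfl h⟩
    · intro h
      rw [p2]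
      exact h1 (eb ▸ h)
    · intro h
      obtain ⟨a1, a2⟩ := h2 (eb ▸ h)
      rw [p2, ew, ← p5.deriv]
      exact ⟨a1, a2⟩
  · rw [e1, eb, ew, p2, ← p4, ← hv]
    exact hux

/-- conclusions at the root, small hub -/
lemma root_k {D : ℕ} {S : ℕ → ℂ → ℂ → ℂ} {s : ℂ → ℂ → ℂ} {ρ τ g : ℝ} {t : Tb}
    (hh : IsHub t.bl t.nc t.wt) (hn : t.nc < D) {Φ : ℂ → ℂ} {z : ℂ} {y : ℕ → ℂ}
    (hcf : CfP D S s ρ τ g t.nc t Φ z) (hz : ‖z - et t.nc * Complex.I‖ ≤ g)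
    (h1 : deriv (qz Φ) z = 0) (hy : y 0 ≠ 0)
    (hux : UX (fun N (_ : Unit) => (N : ℂ) ^ (2 * t.ne) * (Real.sqrt N : ℂ) *
      (-1) ^ (N * (t.ne + 1)) * Complex.exp (-(N * qz Φ z)) * JT t N)
      (fun k _ => y k) Set.univ) :
    ∃ (p : PB) (y : ℕ → ℂ), p.shape = t ∧ CV D S s ρ τ g (kz D p.bl p.nc p.wt) p ∧
      VCV ρ τ g (kz D p.bl p.nc p.wt) p.bl p.wt p.rz (gv D S s (kz D p.bl p.nc p.wt) p) ∧
      y 0 ≠ 0 ∧
      UX (fun N (_ : Unit) => (N : ℂ) ^ (2 * t.ne) * (Real.sqrt N : ℂ) * (-1) ^ (N * (t.ne + 1)) *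
        Complex.exp (-(N * (vt p.bl p.wt p.rz + vv D S s (kz D p.bl p.nc p.wt) p))) * JT t N)
        (fun k _ => y k) Set.univ := by
  obtain ⟨p, p1, p2, p3, p4, p5⟩ := hcf
  have ew : p.wt = t.wt := by rw [← pb_wt p, p1]
  have eb : p.bl = t.bl := by rw [← pb_bl p, p1]
  have en : p.nc = t.nc := by rw [← shape_nc p, p1]
  have e1 : kz D p.bl p.nc p.wt = t.nc := by rw [eb, en, ew, kz_small hh hn]
  have hn0 : t.nc ≠ 0 := by
    have := hh.2.2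
    omega
  refine ⟨p, y, p1, by rw [e1]; exact p3, ?_, hy, ?_⟩
  · rw [e1]
    refine ⟨fun h => absurd h hn0, fun _ => ⟨by rw [p2]; exact hz, ?_⟩⟩
    have h3 : HasDerivAt (qz Φ) (Complex.I + gv D S s t.nc p) z := by
      unfold qz
      have h2 : HasDerivAt (fun w : ℂ => Complex.I * w) Complex.I z := by
        simpa using (hasDerivAt_id z).const_mul Complex.I
      exact h2.add p5
    rw [← h3.deriv]
    exact h1
  · have e2 : vt p.bl p.wt p.rz + vv D S s (kz D p.bl p.nc p.wt) p = qz Φ z := by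
      rw [e1, eb, ew, hh.1, hh.2.1, p2, ← p4]
      simp [vt, qz]
    rw [e2]
    exact hux

end Pool.Agent.TH563.V
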