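import Pool.Agent.TH563.V.MainV

/-!
# Several hubs: proof of the analytic main theorem
-/

set_option autoImplicit false
set_option maxHeartbeats 1000000

namespace Pool.Agent.TH563.V

open Finset Filter Topology Metric
open Pool.Agent.W711.HT hiding XX
open Pool.Agent.TH563.UV
open Pool.Agent.TH563.Z hiding gd
open Pool.Agent.W293.HT
open Pool.Agent.W719.AX (UX GX KXD cv)
open scoped Real

theorem mainv (hVF : S_VF) (hVT : S_VT) (hVFX : S_VFX) (hVTX : S_VTX) (hVL : S_VL)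
    (hVLT : S_VLT) (hHC : S_HC) (hHX : S_HX) (hSD : S_SDZ) (hKER : S_KERV) (hKX : S_KXCZ)
    (hR : S_REM) (hH : S_HALF) (hI : S_INEQ) : S_MAINV := by
  have hπ := Real.pi_pos
  obtain ⟨ρ₀, τ₀, κ₁, c₀, s, dl, hK1⟩ := Pool.Agent.W719.AR.f_KER
  obtain ⟨κ₀, hκ₀⟩ : ∃ κ₀ : ℝ, κ₀ = min κ₁ (min (c₀ * τ₀ ^ 2) 1) := ⟨_, rfl⟩
  have hρ₀ := hK1.hρ.1
  have hτ₀ := hK1.hτ.1
  have hc₀ := hK1.hc
  have hκ₀0 : 0 < κ₀ := by
    rw [hκ₀]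
    exact lt_min hK1.hκ.1 (lt_min (by positivity) one_pos)
  have hκa : κ₀ ≤ κ₁ := by rw [hκ₀]; exact min_le_left _ _
  have hκb : κ₀ ≤ c₀ * τ₀ ^ 2 := by
    rw [hκ₀]; exact (min_le_right _ _).trans (min_le_left _ _)
  have hκc : κ₀ ≤ 1 := by rw [hκ₀]; exact (min_le_right _ _).trans (min_le_right _ _)
  have hK := kd_kappa hK1 hκ₀0 hκa
  obtain ⟨C₀, hC₀⟩ := hK.sbd
  -- the large vertices
  obtain ⟨ρa, τa, hρa, hτa, Ak, hAk⟩ :=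
    Pool.Agent.W719.AX.f_KXC Pool.Agent.W719.AX.f_WIN ρ₀ τ₀ κ₀ c₀ s dl hK
  obtain ⟨ε₀, K₁, hε₀, hε₀1, hK₁0, hreal, hU1, hU2⟩ :=
    f_STEPU ρ₀ τ₀ κ₀ c₀ s dl hK ρa τa Ak hρa hτa hAk
  obtain ⟨p0, p1⟩ := f_PRU ρ₀ τ₀ κ₀ c₀ s dl hK ε₀ hε₀
  obtain ⟨p0x, p1x⟩ := (Pool.Agent.W52.AX.prdx Pool.Agent.W303.AX.uxmul) ρa τa
  obtain ⟨D, hD⟩ := exists_nat_ge K₁
  -- the potentials at the small hubs
  have hpot : ∀ k : ℕ, ∃ (r c' C : ℝ) (s' dl' : ℂ → ℂ → ℂ), 3 ≤ k →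
      SDZ (et k) r c' C s' dl' := by
    intro k
    by_cases hk : 3 ≤ k
    · obtain ⟨r, c', C, s', dl', h⟩ := hSD (et k) (hI k hk).1
      exact ⟨r, c', C, s', dl', fun _ => h⟩
    · exact ⟨0, 0, 0, fun _ _ => 0, fun _ _ => 0, fun h => absurd h hk⟩
  choose rk ck Ck S dlk hS using hpot
  refine ⟨ρ₀, τ₀, κ₀, c₀, s, dl, hK, D, S, fun k hk _ => ⟨(hI k hk).1, rk k, ck k, Ck k, dlk k,
    hS k hk⟩, ?_⟩
  intro g hg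
  obtain ⟨ρs, hρs, -, hbnd⟩ := Pool.Agent.W711.HT.f_BND
  -- the constants of the small hubs
  have hhub : ∀ k : ℕ, ∃ (h : HP) (ρ τ ρb τb : ℝ) (Az : ℕ → ℂ × ℂ → ℂ), 3 ≤ k →
      HPk k h (S k) (dlk k) g ρs ρ τ (ck k) ρb τb Az := by
    intro k
    by_cases hk : 3 ≤ k
    · obtain ⟨hadm, hgd, hineq⟩ := hI k hk
      obtain ⟨ε, hFD, hker⟩ := hKER (et k) hadm (rk k) (ck k) (Ck k) (S k) (dlk k) (hS k hk)
      obtain ⟨ρ, τ, ρ', τ', κ, hZ, -, -, hFG⟩ := hker 1 one_pos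
      obtain ⟨ρb, τb, ρ₃, τ₃, hρb, hτb, hρ₃, hτ₃, Az, hAz⟩ :=
        hKX (et k) ε ρ τ ρ' τ' κ (ck k) (S k) (dlk k) hadm hFD hZ
      obtain ⟨h, hh⟩ := hub_pkg hHC hHX hR hH hρs hbnd hk hgd hineq hZ hFG hAz hρ₃ hτ₃ hg
      exact ⟨h, ρ, τ, ρb, τb, Az, fun _ => hh⟩
    · exact ⟨⟨0, 0, 0, 0, 0, 0, 0, 0, 0⟩, 0, 0, 0, 0, fun _ _ => 0, fun h => absurd h hk⟩
  choose h ρk τk ρb τb Az hh using hhub
  -- constants of the small scale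
  obtain ⟨e1, he10, he1⟩ := fin_min (P := fun k x => ∃ cM CM : ℝ, 0 < cM ∧ 0 < CM ∧
      ∀ a₀ b₀ : ℝ, 0 < a₀ → a₀ ≤ x → 0 < b₀ → b₀ ≤ x → b₀ ≤ a₀ → ∃ κM : ℝ, 0 < κM ∧
      ∀ κ₁ c₁ C₁ ρ₂ τ₂ : ℝ, κ₁ ≤ κM → c₁ ≤ cM → CM ≤ C₁ → ρ₂ ≤ a₀ → τ₂ ≤ b₀ →
        HStep k (h k) (S k) g a₀ b₀ κ₁ c₁ C₁ ρ₂ τ₂)
    (by
      rintro k x y hx hxy ⟨cM, CM, a1, a2, a3⟩
      exact ⟨cM, CM, a1, a2, fun a₀ b₀ h1 h2 h3 h4 h5 => a3 a₀ b₀ h1 (h2.trans hxy) h3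
        (h4.trans hxy) h5⟩) D
    (fun k hk _ => by
      obtain ⟨aM, cM, CM, a0, a1, a2, a3⟩ := (hh k hk).step
      exact ⟨aM, a0, cM, CM, a1, a2, a3⟩)
  obtain ⟨e2, he20, he2⟩ := fin_min (P := fun k x => x ≤ ρk k ∧ x ≤ τk k)
    (fun k x y _ hxy h1 => ⟨hxy.trans h1.1, hxy.trans h1.2⟩) D
    (fun k hk _ => ⟨min (ρk k) (τk k), lt_min (hh k hk).kdz.hρ.1 (hh k hk).kdz.hτ.1,
      min_le_left _ _, min_le_right _ _⟩)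
  obtain ⟨e3, he30, he3⟩ := fin_min (P := fun k x => x ≤ ρb k ∧ x ≤ τb k)
    (fun k x y _ hxy h1 => ⟨hxy.trans h1.1, hxy.trans h1.2⟩) D
    (fun k hk _ => ⟨min (ρb k) (τb k), lt_min (hh k hk).kxz.hρ (hh k hk).kxz.hτ,
      min_le_left _ _, min_le_right _ _⟩)
  obtain ⟨e, he0, hee1, hee2, heρ, heτ, heg⟩ : ∃ e : ℝ, 0 < e ∧ e ≤ e1 ∧ e ≤ e2 ∧ e ≤ ρ₀ ∧
      e ≤ τ₀ ∧ e ≤ g / 6 := by
    refine ⟨min (min e1 e2) (min (min ρ₀ τ₀) (g / 6)), ?_, ?_, ?_, ?_, ?_, ?_⟩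
    · exact lt_min (lt_min he10 he20) (lt_min (lt_min hρ₀ hτ₀) (by positivity))
    · exact (min_le_left _ _).trans (min_le_left _ _)
    · exact (min_le_left _ _).trans (min_le_right _ _)
    · exact (min_le_right _ _).trans ((min_le_left _ _).trans (min_le_left _ _))
    · exact (min_le_right _ _).trans ((min_le_left _ _).trans (min_le_right _ _))
    · exact (min_le_right _ _).trans (min_le_right _ _)
  obtain ⟨f, hf0, hfe, hf3, hfa, hfb⟩ : ∃ f : ℝ, 0 < f ∧ f ≤ e ∧ f ≤ e3 ∧ f ≤ ρa ∧ f ≤ τa := by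
    refine ⟨min (min e e3) (min ρa τa), ?_, ?_, ?_, ?_, ?_⟩
    · exact lt_min (lt_min he0 he30) (lt_min hAk.hρ hAk.hτ)
    · exact (min_le_left _ _).trans (min_le_left _ _)
    · exact (min_le_left _ _).trans (min_le_right _ _)
    · exact (min_le_right _ _).trans (min_le_left _ _)
    · exact (min_le_right _ _).trans (min_le_right _ _)
  -- `c₁`
  obtain ⟨cm, hcm0, hcm⟩ := fin_min (P := fun k x => ∃ CM : ℝ, 0 < CM ∧ ∃ κM : ℝ, 0 < κM ∧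
      ∀ κ₁ c₁ C₁ ρ₂ τ₂ : ℝ, κ₁ ≤ κM → c₁ ≤ x → CM ≤ C₁ → ρ₂ ≤ e → τ₂ ≤ e →
        HStep k (h k) (S k) g e e κ₁ c₁ C₁ ρ₂ τ₂)
    (by
      rintro k x y hx hxy ⟨CM, a2, κM, a3, a4⟩
      exact ⟨CM, a2, κM, a3, fun κ₁ c₁ C₁ ρ₂ τ₂ h1 h2 h3 h4 h5 => a4 κ₁ c₁ C₁ ρ₂ τ₂ h1
        (h2.trans hxy) h3 h4 h5⟩) D
    (fun k hk hkD => by
      obtain ⟨cM, CM, a1, a2, a3⟩ := he1 k hk hkD
      obtain ⟨κM, a4, a5⟩ := a3 e e he0 hee1 he0 hee1 le_rfl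
      exact ⟨cM, a1, CM, a2, κM, a4, a5⟩)
  obtain ⟨c₁, hc₁0, hc₁m, hc₁c⟩ : ∃ c₁ : ℝ, 0 < c₁ ∧ c₁ ≤ cm ∧ c₁ ≤ c₀ / 2 :=
    ⟨min cm (c₀ / 2), lt_min hcm0 (by positivity), min_le_left _ _, min_le_right _ _⟩
  -- `κ₁`
  obtain ⟨km, hkm0, hkm⟩ := fin_min (P := fun k x => ∃ CM : ℝ, 0 < CM ∧
      ∀ κ₁ C₁ ρ₂ τ₂ : ℝ, κ₁ ≤ x → CM ≤ C₁ → ρ₂ ≤ e → τ₂ ≤ e →
        HStep k (h k) (S k) g e e κ₁ c₁ C₁ ρ₂ τ₂)
    (by
      rintro k x y hx hxy ⟨CM, a2, a4⟩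
      exact ⟨CM, a2, fun κ₁ C₁ ρ₂ τ₂ h1 h3 h4 h5 => a4 κ₁ C₁ ρ₂ τ₂ (h1.trans hxy) h3 h4 h5⟩) D
    (fun k hk hkD => by
      obtain ⟨CM, a2, κM, a4, a5⟩ := hcm k hk hkD
      exact ⟨κM, a4, CM, a2, fun κ₁ C₁ ρ₂ τ₂ h1 h3 h4 h5 => a5 κ₁ c₁ C₁ ρ₂ τ₂ h1 hc₁m h3 h4 h5⟩)
  obtain ⟨κs, hκs0, hκsm, hκs₀, hκse⟩ : ∃ κs : ℝ, 0 < κs ∧ κs ≤ km ∧ κs ≤ κ₀ ∧
      κs / 2 < c₀ / 2 / 2 * e ^ 2 := by
    refine ⟨min km (min κ₀ (c₀ / 4 * e ^ 2)), ?_, min_le_left _ _,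
      (min_le_right _ _).trans (min_le_left _ _), ?_⟩
    · exact lt_min hkm0 (lt_min hκ₀0 (by positivity))
    · have h1 : min km (min κ₀ (c₀ / 4 * e ^ 2)) ≤ c₀ / 4 * e ^ 2 :=
        (min_le_right _ _).trans (min_le_right _ _)
      have h2 : 0 < c₀ * e ^ 2 := by positivity
      linarith
  -- `C₁`
  obtain ⟨CM, hCM0, hCM⟩ := fin_max (P := fun k x =>
      ∀ C₁ ρ₂ τ₂ : ℝ, x ≤ C₁ → ρ₂ ≤ e → τ₂ ≤ e → HStep k (h k) (S k) g e e κs c₁ C₁ ρ₂ τ₂)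
    (by
      intro k x y hx hxy a4 C₁ ρ₂ τ₂ h3 h4 h5
      exact a4 C₁ ρ₂ τ₂ (hxy.trans h3) h4 h5) D
    (fun k hk hkD => by
      obtain ⟨CM, a2, a5⟩ := hkm k hk hkD
      exact ⟨CM, a2, fun C₁ ρ₂ τ₂ h3 h4 h5 => a5 κs C₁ ρ₂ τ₂ hκsm h3 h4 h5⟩)
  obtain ⟨C₁, hC₁0, hC₁M, hC₁c⟩ : ∃ C₁ : ℝ, 0 < C₁ ∧ CM ≤ C₁ ∧ 8 * (1 + 3 * C₀) / τ₀ ^ 2 ≤ C₁ :=
    ⟨max CM (8 * (1 + 3 * C₀) / τ₀ ^ 2), lt_max_of_lt_left hCM0, le_max_left _ _, le_max_right _ _⟩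
  -- `r₀`
  obtain ⟨r₀, hr₀0, hr₀a, hr₀g, hr₀f⟩ : ∃ r₀ : ℝ, 0 < r₀ ∧ r₀ ≤ 1 / 10 ∧ r₀ ≤ g ∧
      r₀ < min f f / 4 := by
    rw [min_self]
    refine ⟨min (1 / 10) (min g (f / 8)), lt_min (by norm_num) (lt_min hg (by positivity)),
      min_le_left _ _, (min_le_right _ _).trans (min_le_left _ _), ?_⟩
    have : min (1 / 10) (min g (f / 8)) ≤ f / 8 := (min_le_right _ _).trans (min_le_right _ _)
    linarith
  -- the edges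
  obtain ⟨Cs, hEs⟩ := ed_s hK
  obtain ⟨κe, hκe0, hκe1, hκe2⟩ : ∃ κe : ℝ, 0 < κe ∧ κe ≤ κ₀ ∧ κe < c₀ / 2 * e ^ 2 := by
    refine ⟨min κ₀ (c₀ / 4 * e ^ 2), lt_min hκ₀0 (by positivity), min_le_left _ _, ?_⟩
    have h1 : min κ₀ (c₀ / 4 * e ^ 2) ≤ c₀ / 4 * e ^ 2 := min_le_right _ _
    have h2 : 0 < c₀ * e ^ 2 := by positivity
    linarith
  have hEs2 := ed_restrict hEs he0 heρ he0 heτ le_rfl hκe0 hκe1 hκe2
  obtain ⟨KA, hKA0, hkidA⟩ := kida hVF hVT hVFX hVTX hK hε₀ hEs2 hr₀0 hκs0 hc₁0 hC₁0 hAk hf0 hf0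
    hfe hfe hfa hfb hρa hτa hr₀f heρ heτ
  -- the children of the small hubs
  obtain ⟨KZ, hKZ0, hkidZ⟩ := fin_max (P := fun k K => ∀ (t m : ℕ) (X : ℕ → ℂ → ℂ) (F : ℂ → ℂ)
      (A : ℕ → ℂ → ℂ), GoodV e e κs c₁ C₁ t X F → GX f f m X F A →
      ∀ (b : Bool) (a : ℤ), (b = false → K ^ 2 ≤ ((t + 1 : ℕ) : ℝ) ^ 2 + (a : ℝ) ^ 2) →
      ∃ (YL : ℕ → ℂ → ℂ) (f₀ : ℂ) (F' zs : ℂ → ℂ) (A' : ℕ → ℂ → ℂ), 0 ≤ f₀.re ∧
        ChZ (et k) (h k).ε (h k).ρ' (h k).τ' (h k).κ (h k).x₀ (h k).δ (h k).ε₁ (S k)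
          (stpb b a X) YL f₀ F' ∧ GXZ (et k) (h k).ρ₃ (h k).τ₃ (m + 1) YL F' A' ∧
        ∀ φ ∈ Rz (et k) (3 * (h k).ρ') (3 * (h k).τ'), zs φ ∈ Rc (3 * e) (3 * e) ∧
          ‖zs φ‖ ≤ r₀ ∧ (b = true → zs φ = 0) ∧
          (b = false → CPu e e r₀ (zs φ) ∧ Complex.I * a * zs φ / (2 * π) + Complex.I +
            deriv F (zs φ) + deriv (fun w => S k w φ) (zs φ) = 0) ∧
          F' φ = vt b a (zs φ) + F (zs φ) + S k (zs φ) φ ∧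
          HasDerivAt F' (deriv (fun w => S k (zs φ) w) φ) φ)
    (by
      intro k x y hx hxy a1 t m X F A hX hA b a hb
      exact a1 t m X F A hX hA b a (fun hf => (pow_le_pow_left₀ hx.le hxy 2).trans (hb hf))) D
    (fun k hk hkD => by
      have hkk := hh k hk
      obtain ⟨Ce, hE⟩ := ed_z hkk.kdz
      obtain ⟨κz, hκz0, hκz1, hκz2⟩ : ∃ κz : ℝ, 0 < κz ∧ κz ≤ (h k).κ ∧
          κz < ck k / 2 * e ^ 2 := by
        have hc := hkk.kdz.hc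
        refine ⟨min (h k).κ (ck k / 4 * e ^ 2), lt_min hkk.kdz.hκ.1 (by positivity),
          min_le_left _ _, ?_⟩
        have h1 : min (h k).κ (ck k / 4 * e ^ 2) ≤ ck k / 4 * e ^ 2 := min_le_right _ _
        have h2 : 0 < ck k * e ^ 2 := by positivity
        linarith
      obtain ⟨q1, q2⟩ := he2 k hk hkD
      obtain ⟨q3, q4⟩ := he3 k hk hkD
      have hE2 := ed_restrict hE he0 (hee2.trans q1) he0 (hee2.trans q2) le_rfl hκz0 hκz1 hκz2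
      exact kidz hVF hVT hVFX hVTX hH hρs hbnd hkk.kdz hE2 hkk.x₀ hkk.δ hkk.ε₁ hr₀0 hκs0 hc₁0
        hC₁0 hkk.kxz hf0 hf0 hfe hfe (hf3.trans q3) (hf3.trans q4) hkk.h3 hkk.h4 hr₀f)
  -- the last step
  have he14 : e ≤ 1 / 4 := heρ.trans hK.hρ.2
  obtain ⟨KL, hKL0, hlast⟩ := hVL e e κs c₁ C₁ he0 he14 he0 le_rfl hκs0 hc₁0 hC₁0 f f hf0 hfe hf0
    hfe r₀ hr₀0
  have hlastT := hVLT e e κs c₁ C₁ he0 he14 he0 le_rfl hκs0 hc₁0 hC₁0 f f hf0 hfe hf0 hfe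
  obtain ⟨p0y, p1y⟩ := (Pool.Agent.W52.AX.prdx Pool.Agent.W303.AX.uxmul) f f
  obtain ⟨K, hKD, hKA, hKZ, hKL⟩ : ∃ K : ℝ, (D : ℝ) ≤ K ∧ KA ≤ K ∧ KZ ≤ K ∧ KL ≤ K :=
    ⟨max (max (D : ℝ) KA) (max KZ KL), (le_max_left _ _).trans (le_max_left _ _),
      (le_max_right _ _).trans (le_max_left _ _), (le_max_left _ _).trans (le_max_right _ _),
      (le_max_right _ _).trans (le_max_right _ _)⟩
  have hK0 : 0 < K := hKA0.trans_le hKA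
  -- the induction
  obtain ⟨q, hq⟩ : ∃ q : CP, q = ⟨ρ₀, τ₀, κ₀, ε₀, ρa, τa, e, e, κs, c₁, C₁, f, f, g, r₀⟩ := ⟨_, rfl⟩
  have hind := fun t => main_ind (D := D) (S := S) (s := s) (q := q) (h := h) (K := K)
    (by rw [hq]; exact fun b a => pv_zero he0 he0 p0y b a)
    (by rw [hq]; exact fun b a => pu_zero p0 p0x b a)
    (fun k b a => pz_zero k b a)
    (by rw [hq]; exact fun t c h1 h2 => pv_succ he0 he0 p1y h1 h2)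
    (by rw [hq]; exact fun t c h1 h2 => pu_succ p1 p1x h1 h2)
    (fun k hk _ t c h1 h2 => pz_succ hR (hh k hk).kdz.hε (hh k hk).x₀ (hh k hk).x₀' h1 h2)
    (by
      rw [hq]
      exact fun c h1 => chv_of_chu hK (by linarith) (by linarith) hC₀ he0 he0 heρ heτ hκs₀ hκse
        hc₁c hC₁c hfa hfb h1)
    (by
      rw [hq]
      intro c h1 h2
      refine chu_big (K := K) hKD he0 he0 heρ heτ hr₀a ?_ h1 h2
      intro t m X F A hX hA b a hb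
      exact hkidA t m X F A hX hA b a
        (fun hf => (pow_le_pow_left₀ hKA0.le hKA 2).trans (hb hf)))
    (by
      rw [hq]
      exact fun c h1 h2 h3 => chu_hub (K := K₁) hρ₀ hτ₀ hU1 hK₁0.le hD h1 h2 h3)
    (by
      rw [hq]
      intro k hk hkD c h1 h2
      refine chk_big (K := K) (by omega) hKD he0 he0 heρ heτ hr₀a hr₀g ?_ h1 h2
      intro t m X F A hX hA b a hb
      exact hkidZ k hk hkD t m X F A hX hA b a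
        (fun hf => (pow_le_pow_left₀ hKZ0.le hKZ 2).trans (hb hf)))
    (by
      rw [hq]
      intro c h1 h2 h3
      have hk : 3 ≤ c.nc + 1 := h1.2.2
      obtain ⟨r', C', hS', hr1, hr2⟩ := (hh (c.nc + 1) hk).kdz.sdz
      obtain ⟨q1, q2⟩ := he2 (c.nc + 1) hk h2
      have hτρ := (hh (c.nc + 1) hk).kdz.hτ'.2.1
      have q1' := hee2.trans q1
      exact chv_hub hk hS' (by show 3 * e ≤ r'; linarith) (by show 3 * e ≤ r'; linarith) hr2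
        (by linarith) (by show 3 * e + 3 * e ≤ g; linarith)
        (hCM (c.nc + 1) hk h2 C₁ f f hC₁M hfe hfe) h1 rfl h2 h3) t
  -- the root
  refine ⟨K, hK0, ?_⟩
  intro t ht hnc
  rcases ht with ⟨hbig, hok⟩ | ⟨hhub, hok⟩
  · have h1 := (hind t).1 hok
    rw [hq] at h1
    obtain ⟨F, A, a1, a2, a3⟩ := h1
    have hbig' : t.bl = false → KL ^ 2 ≤ (t.nc : ℝ) ^ 2 + (t.wt : ℝ) ^ 2 := fun hf =>
      (pow_le_pow_left₀ hKL0.le hKL 2).trans (hbig hf)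
    rcases hb : t.bl with _ | _
    · obtain ⟨z, y, z1, z2, z3, z4⟩ := hlast t.nc t.ne (XX t) F A hnc a1 a2 t.wt (hbig' hb)
      refine root_0 (kz_big hKD hbig) (a3 z (Rc_mono (by show e ≤ 3 * e; linarith)
        (by show e ≤ 3 * e; linarith) z1.mem)) (fun h1 => ?_)
        (fun _ => ⟨⟨Rc_mono heρ heτ z1.mem, z1.im, z1.sm.trans hr₀a⟩, z2⟩)
        (v := qq t.wt F z) ?_ z3 ?_
      · rw [hb] at h1
        exact absurd h1 (by simp)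
      · rw [hb]
        simp [vt, qq]
      · unfold JT
        rw [hb]
        exact z4
    · obtain ⟨y, z3, z4⟩ := hlastT t.nc t.ne (XX t) F A hnc a1 a2 t.wt
      refine root_0 (kz_big hKD hbig) (a3 0 ⟨by simp; positivity, by simp; positivity⟩)
        (fun _ => rfl) (fun h1 => ?_) (v := F 0 + π * Complex.I) ?_ z3 ?_
      · rw [hb] at h1
        exact absurd h1 (by simp)
      · rw [hb]
        simp only [vt, if_true]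
        ring
      · unfold JT
        rw [hb]
        exact z4
  · rcases lt_or_ge t.nc D with hn | hn
    · have hk : 3 ≤ t.nc := hhub.2.2
      have h1 := (hind t).2.2 t.nc hk hn hok
      rw [hq] at h1
      obtain ⟨PL, f', Φ, A, a0, a1, a2, a3⟩ := h1
      obtain ⟨z, y, z1, z2, z3, z4, z5⟩ := (hh t.nc hk).root (XX t) PL f' Φ t.ne A a1 a2
      refine root_k hhub hn (a3 z z2) z1 z3 z4 ?_
      have hJT : ∀ N, JT t N = upp (1 / N) fun φ => XX t N φ * kr N φ := by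
        intro N
        unfold JT
        rw [hhub.1, hhub.2.1]
        congr 1
        funext φ
        have e1 : Eb false 0 N φ = 1 := by
          unfold Eb Ea
          simp
        rw [e1, one_mul]
      simp only [hJT]
      exact z5
    · have h1 := (hind t).2.1 hok
      rw [hq] at h1
      obtain ⟨F, A, a1, a2, a3⟩ := h1
      have hbig : K₁ ^ 2 ≤ (t.nc : ℝ) ^ 2 + (t.wt : ℝ) ^ 2 := by
        have e1 : K₁ ≤ (t.nc : ℝ) := hD.trans (by exact_mod_cast hn)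
        have e2 : K₁ ^ 2 ≤ (t.nc : ℝ) ^ 2 := pow_le_pow_left₀ hK₁0.le e1 2
        have e3 : (0 : ℝ) ≤ (t.wt : ℝ) ^ 2 := by positivity
        linarith
      obtain ⟨z, y, z1, z2, z3, z4⟩ := hU2 t.nc t.ne (XX t) F A hnc a1 a2 t.wt hbig
      refine root_0 (kz_large hn) (a3 z (Rc_subU hρ₀ hτ₀ z1.mem)) (fun h1 => ?_)
        (fun _ => ⟨z1, z2⟩) (v := qq t.wt F z) ?_ z3 ?_
      · rw [hhub.1] at h1
        exact absurd h1 (by simp)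
      · rw [hhub.1]
        simp [vt, qq]
      · unfold JT
        rw [hhub.1]
        exact z4

end Pool.Agent.TH563.V
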